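import Mathlib.Dynamics.Ergodic.MeasurePreserving
import Mathlib.MeasureTheory.Measure.Typeclasses.Probability
import Mathlib.Dynamics.Flow

open MeasureTheory Set Topology

namespace Pool.Agent.MP_4a8842_an

variable {X : Type*} [TopologicalSpace X] [MeasurableSpace X]

/-- Small boundary property of the system generated by the map T. -/
def SBP (T : X → X) : Prop :=
  ∃ B : Set (Set X), TopologicalSpace.IsTopologicalBasis B ∧ ∀ U ∈ B, ∀ μ : Measure X,
    IsProbabilityMeasure μ → MeasurePreserving T μ μ → μ (frontier U) = 0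

/-- Discrete small flow boundary property. -/
def DSBP (φ : Flow ℝ X) : Prop := ∀ τ : ℝ, τ ≠ 0 → SBP (φ τ)

/-- The set E is null for every probability measure invariant under the flow. -/
def Small (φ : Flow ℝ X) (E : Set X) : Prop :=
  ∀ μ : Measure X, IsProbabilityMeasure μ → (∀ t, MeasurePreserving (φ t) μ μ) → μ E = 0

omit [MeasurableSpace X] in
/-- Cross-section with injectivity time η. -/
def CrossSection (φ : Flow ℝ X) (η : ℝ) (S : Set X) : Prop :=
  0 < η ∧ InjOn (fun p : ℝ × X => φ p.1 p.2) (Icc (-η) η ×ˢ S)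

omit [MeasurableSpace X] in
/-- The flow box of U with times in the closed interval from -η to η. -/
def box (φ : Flow ℝ X) (η : ℝ) (U : Set X) : Set X :=
  {z | ∃ t ∈ Icc (-η) η, ∃ u ∈ U, φ t u = z}

/-- Small flow boundary property, as worded in the problem file. -/
def SFBP (φ : Flow ℝ X) : Prop :=
  ∀ (η : ℝ) (S : Set X), IsClosed S → CrossSection φ η S →
    ∃ B : Set (Set S), TopologicalSpace.IsTopologicalBasis B ∧
      ∀ U ∈ B, Small φ (frontier (box φ η (Subtype.val '' U)))

omit [MeasurableSpace X] in
/-- Flow interior of a cross-section. -/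
def flowInt (φ : Flow ℝ X) (η : ℝ) (S : Set X) : Set X := S ∩ interior (box φ η S)

/-- Small flow boundary property, in the wording of Burguet. -/
def BurguetSFBP (φ : Flow ℝ X) : Prop :=
  ∀ (x : X) (η : ℝ) (S' : Set X), IsClosed S' → CrossSection φ η S' → x ∈ flowInt φ η S' →
    ∃ S ⊆ S', x ∈ flowInt φ η S ∧ Small φ (box φ η (closure S \ flowInt φ η S))

/-- The weakest form: each point is interior to one flow box with small boundary. -/
def LocalSFBP (φ : Flow ℝ X) : Prop :=
  ∀ x : X, ∃ (η : ℝ) (S U : Set X), IsClosed S ∧ CrossSection φ η S ∧ U ⊆ S ∧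
    x ∈ interior (box φ η U) ∧ Small φ (frontier (box φ η U))

end Pool.Agent.MP_4a8842_an
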