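import Mathlib.Topology.Sheaves.Presheaf
import Mathlib.Tactic.Monotonicity.Lemmas
import Mathlib.Algebra.Field.ZMod
import Mathlib.Data.Int.Star
import Mathlib.Data.Nat.Prime.Int
import Mathlib.MeasureTheory.Integral.Prod
import Mathlib.Analysis.SpecialFunctions.Integrals.Basic
import Mathlib.Combinatorics.SimpleGraph.Basic
import Mathlib.Analysis.Fourier.AddCircle
import Mathlib.RingTheory.PiTensorProduct
import Pool.Agent.MP_4a8842_an.Defs
import Pool.Agent.MP_8bdec9_gt.LS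

-- ======== part 0: formerly Pool.Agent.MP_4a8842_an.Phase
section MrgPart0

/-! Covers of periodic flows by closed sets that carry a circle valued phase. -/

open Set Topology Metric

namespace Pool.Agent.MP_4a8842_an

/-- the character of the real line -/
noncomputable def ee (x : ℝ) : ℂ := Complex.exp (((2 * Real.pi * x : ℝ) : ℂ) * Complex.I)

lemma ee_add (x y : ℝ) : ee (x + y) = ee x * ee y := by
  unfold ee; rw [← Complex.exp_add]; congr 1; push_cast; ring

@[simp] lemma norm_ee (x : ℝ) : ‖ee x‖ = 1 := Complex.norm_exp_ofReal_mul_I _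

@[simp] lemma ee_zero : ee 0 = 1 := by simp [ee]

lemma ee_ne_zero (x : ℝ) : ee x ≠ 0 := Complex.exp_ne_zero _

@[fun_prop] lemma continuous_ee : Continuous ee := by unfold ee; fun_prop

lemma ee_int (n : ℤ) : ee n = 1 := by
  unfold ee
  rw [Complex.exp_eq_one_iff]
  exact ⟨n, by push_cast; ring⟩

lemma ee_eq_one {x : ℝ} (h : ee x = 1) : ∃ n : ℤ, x = n := by
  unfold ee at h
  obtain ⟨n, hn⟩ := Complex.exp_eq_one_iff.1 h
  refine ⟨n, ?_⟩
  have h2 : ((2 * Real.pi * x : ℝ) : ℂ) = ((2 * Real.pi * n : ℝ) : ℂ) := by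
    apply mul_right_cancel₀ Complex.I_ne_zero
    rw [hn]; push_cast; ring
  have h3 : 2 * Real.pi * x = 2 * Real.pi * n := by exact_mod_cast h2
  exact mul_left_cancel₀ (by positivity) h3

lemma ee_neg_mul (x : ℝ) : ee (-x) * ee x = 1 := by rw [← ee_add]; simp

lemma conj_ee (x : ℝ) : (starRingEnd ℂ) (ee x) = ee (-x) := by
  unfold ee
  rw [← Complex.exp_conj]; congr 1
  simp only [map_mul, Complex.conj_ofReal, Complex.conj_I]; push_cast; ring

lemma exists_ee (z : ℂ) : ∃ s : ℝ, z = ‖z‖ * ee s := by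
  refine ⟨Complex.arg z / (2 * Real.pi), ?_⟩
  unfold ee
  have : 2 * Real.pi * (Complex.arg z / (2 * Real.pi)) = Complex.arg z := by
    field_simp
  rw [this, Complex.norm_mul_exp_arg_mul_I]

section Cover

variable {Y Z : Type*} [TopologicalSpace Y] [TopologicalSpace Z]

/-- closed invariant set with a nonvanishing function of nonzero integer weight -/
def IsPhase (φ : Flow ℝ Y) (L : ℝ) (A : Set Y) : Prop :=
  IsClosed A ∧ ∃ (θ : Y → ℂ) (ν : Y → ℝ), ContinuousOn θ A ∧ ContinuousOn ν A ∧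
    ∀ y ∈ A, θ y ≠ 0 ∧ (∃ n : ℤ, n ≠ 0 ∧ ν y = n) ∧
      ∀ t, φ t y ∈ A ∧ ν (φ t y) = ν y ∧ θ (φ t y) = ee (ν y * t / L) * θ y

/-- the set A is covered by at most k phase sets -/
def Cov (φ : Flow ℝ Y) (L k : ℝ) (A : Set Y) : Prop :=
  ∃ s : Finset (Set Y), (s.card : ℝ) ≤ k ∧ (∀ B ∈ s, IsPhase φ L B) ∧ ∀ y ∈ A, ∃ B ∈ s, y ∈ B

variable {φ : Flow ℝ Y} {ψ : Flow ℝ Z} {L : ℝ}

lemma Cov.mono {k k' : ℝ} {A A' : Set Y} (h : Cov φ L k A) (hk : k ≤ k') (hA : A' ⊆ A) :
    Cov φ L k' A' := by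
  obtain ⟨s, h1, h2, h3⟩ := h
  exact ⟨s, h1.trans hk, h2, fun y hy => h3 y (hA hy)⟩

lemma Cov.empty : Cov φ L 0 ∅ := ⟨∅, by simp, by simp, by simp⟩

lemma IsPhase.cov {A : Set Y} (h : IsPhase φ L A) : Cov φ L 1 A :=
  ⟨{A}, by simp, by simpa using h, by simp⟩

lemma Cov.union {k k' : ℝ} {A A' : Set Y} (h : Cov φ L k A) (h' : Cov φ L k' A') :
    Cov φ L (k + k') (A ∪ A') := by
  classical
  obtain ⟨s, h1, h2, h3⟩ := h
  obtain ⟨s', h1', h2', h3'⟩ := h'
  refine ⟨s ∪ s', ?_, ?_, ?_⟩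
  · have : ((s ∪ s').card : ℝ) ≤ s.card + s'.card := by exact_mod_cast Finset.card_union_le s s'
    linarith
  · intro B hB
    rcases Finset.mem_union.1 hB with hB | hB
    exacts [h2 B hB, h2' B hB]
  · rintro y (hy | hy)
    · obtain ⟨B, hB, hyB⟩ := h3 y hy
      exact ⟨B, Finset.mem_union_left _ hB, hyB⟩
    · obtain ⟨B, hB, hyB⟩ := h3' y hy
      exact ⟨B, Finset.mem_union_right _ hB, hyB⟩

lemma Cov.biUnion {ι : Type*} (t : Finset ι) (k : ι → ℝ) (A : ι → Set Y)
    (h : ∀ i ∈ t, Cov φ L (k i) (A i)) : Cov φ L (∑ i ∈ t, k i) (⋃ i ∈ t, A i) := by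
  classical
  induction t using Finset.induction_on with
  | empty => simpa using Cov.empty
  | insert a t ha ih =>
    rw [Finset.sum_insert ha, Finset.set_biUnion_insert]
    exact (h a (Finset.mem_insert_self _ _)).union
      (ih fun i hi => h i (Finset.mem_insert_of_mem hi))

lemma cov_of_fam {ι : Type*} (t : Finset ι) {A : Set Y} (hA : IsClosed A)
    (hinv : ∀ y ∈ A, ∀ s, φ s y ∈ A) (F : ι → Y → ℂ) (ν : ι → Y → ℝ)
    (hF : ∀ i ∈ t, ContinuousOn (F i) A) (hν : ∀ i ∈ t, ContinuousOn (ν i) A)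
    (hint : ∀ i ∈ t, ∀ y ∈ A, ∃ n : ℤ, n ≠ 0 ∧ ν i y = n)
    (hνi : ∀ i ∈ t, ∀ y ∈ A, ∀ s, ν i (φ s y) = ν i y)
    (hFi : ∀ i ∈ t, ∀ y ∈ A, ∀ s, F i (φ s y) = ee (ν i y * s / L) * F i y)
    (hne : ∀ y ∈ A, ∃ i ∈ t, F i y ≠ 0) : Cov φ L t.card A := by
  let B : ι → Set Y := fun i => A ∩ ⋂ j ∈ t, {y | y ∈ A ∧ ‖F j y‖ ≤ ‖F i y‖}
  have hB : ∀ i y, y ∈ B i ↔ y ∈ A ∧ ∀ j ∈ t, ‖F j y‖ ≤ ‖F i y‖ := by
    intro i y
    simp only [B, mem_inter_iff, mem_iInter, mem_ofPred_eq]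
    exact ⟨fun h => ⟨h.1, fun j hj => (h.2 j hj).2⟩, fun h => ⟨h.1, fun j hj => ⟨h.1, h.2 j hj⟩⟩⟩
  have key : ∀ i ∈ t, Cov φ L 1 (B i) := by
    intro i hi
    refine IsPhase.cov ⟨hA.inter (isClosed_biInter fun j hj => ?_), F i, ν i,
      (hF i hi).mono inter_subset_left, (hν i hi).mono inter_subset_left, fun y hy => ?_⟩
    · exact hA.isClosed_le (hF j hj).norm (hF i hi).norm
    · obtain ⟨hyA, hy⟩ := (hB i y).1 hy
      refine ⟨fun h0 => ?_, hint i hi y hyA, fun s => ⟨(hB i _).2 ⟨hinv y hyA s, fun j hj => ?_⟩,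
        hνi i hi y hyA s, hFi i hi y hyA s⟩⟩
      · obtain ⟨j, hj, hj0⟩ := hne y hyA
        have := hy j hj
        rw [h0, norm_zero] at this
        exact hj0 (norm_le_zero_iff.1 this)
      · rw [hFi j hj y hyA, hFi i hi y hyA]
        simpa using hy j hj
  refine (Cov.biUnion t (fun _ => 1) B key).mono (by simp) fun y hy => ?_
  obtain ⟨j, hj, -⟩ := hne y hy
  obtain ⟨i, hi, hmax⟩ := t.exists_max_image (fun i => ‖F i y‖) ⟨j, hj⟩
  exact mem_biUnion hi ((hB i y).2 ⟨hy, hmax⟩)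

lemma Cov.preimage {k : ℝ} {A : Set Z} (h : Cov ψ L k A) {f : Y → Z} (hf : Continuous f)
    (he : ∀ t y, f (φ t y) = ψ t (f y)) : Cov φ L k (f ⁻¹' A) := by
  classical
  obtain ⟨s, h1, h2, h3⟩ := h
  refine ⟨s.image fun B => f ⁻¹' B, ?_, ?_, ?_⟩
  · exact le_trans (by exact_mod_cast Finset.card_image_le) h1
  · intro B' hB'
    obtain ⟨B, hB, rfl⟩ := Finset.mem_image.1 hB'
    obtain ⟨hc, θ, ν, hθ, hν, h⟩ := h2 B hB
    refine ⟨hc.preimage hf, θ ∘ f, ν ∘ f, hθ.comp hf.continuousOn fun _ h => h,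
      hν.comp hf.continuousOn fun _ h => h, fun y hy => ?_⟩
    obtain ⟨a, b, c⟩ := h (f y) hy
    refine ⟨a, b, fun t => ?_⟩
    simp only [mem_preimage, Function.comp, he]
    exact c t
  · intro y hy
    obtain ⟨B, hB, hyB⟩ := h3 (f y) hy
    exact ⟨f ⁻¹' B, Finset.mem_image_of_mem _ hB, hyB⟩

lemma Cov.image_val {G : Set Y} (hG : IsClosed G) (hi : IsInvariant φ G) {k : ℝ} {A : Set G}
    (h : Cov (φ.restrict hi) L k A) : Cov φ L k (Subtype.val '' A) := by
  classical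
  obtain ⟨s, h1, h2, h3⟩ := h
  refine ⟨s.image fun B => Subtype.val '' B, ?_, ?_, ?_⟩
  · exact le_trans (by exact_mod_cast Finset.card_image_le) h1
  · intro B' hB'
    obtain ⟨B, hB, rfl⟩ := Finset.mem_image.1 hB'
    obtain ⟨hc, θ, ν, hθ, hν, h⟩ := h2 B hB
    have hemb := hG.isClosedEmbedding_subtypeVal
    refine ⟨hemb.isClosedMap _ hc, fun y => if hy : y ∈ G then θ ⟨y, hy⟩ else 0,
      fun y => if hy : y ∈ G then ν ⟨y, hy⟩ else 0, ?_, ?_, ?_⟩
    · rw [← hemb.isInducing.continuousOn_image_iff.symm]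
      exact hθ.congr fun y _ => by simp
    · rw [← hemb.isInducing.continuousOn_image_iff.symm]
      exact hν.congr fun y _ => by simp
    · rintro _ ⟨y, hy, rfl⟩
      obtain ⟨a, b, c⟩ := h y hy
      refine ⟨by simpa using a, by simpa using b, fun t => ?_⟩
      have hm : φ t y ∈ G := hi t y.2
      obtain ⟨c1, c2, c3⟩ := c t
      refine ⟨⟨_, c1, rfl⟩, ?_, ?_⟩
      · simp only [hm, y.2, dite_true]; exact c2
      · simp only [hm, y.2, dite_true]; exact c3
  · rintro _ ⟨y, hy, rfl⟩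
    obtain ⟨B, hB, hyB⟩ := h3 y hy
    exact ⟨_, Finset.mem_image_of_mem _ hB, y, hyB, rfl⟩

end Cover

end Pool.Agent.MP_4a8842_an

end MrgPart0

-- ======== part 1: formerly Pool.Agent.MP_4a8842_an.Four
section MrgPart1

/-! Windowed Fourier coefficients. -/

open Set MeasureTheory intervalIntegral Real

namespace Pool.Agent.MP_4a8842_an

/-- Fourier coefficient of f over the window from 0 to T at the real frequency ξ -/
noncomputable def av (T : ℝ) (f : ℝ → ℂ) (ξ : ℝ) : ℂ :=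
  (T : ℂ)⁻¹ * ∫ u in (0 : ℝ)..T, f u * ee (-(ξ * u))

lemma norm_int_ee {v : ℝ} (hv : v ≠ 0) (a b : ℝ) :
    ‖∫ u in a..b, ee (v * u)‖ ≤ 1 / (π * |v|) := by
  have hc : ((2 * π * v : ℝ) : ℂ) * Complex.I ≠ 0 :=
    mul_ne_zero (by exact_mod_cast (by positivity : 2 * π * v ≠ 0)) Complex.I_ne_zero
  have e : ∀ u : ℝ, ee (v * u) = Complex.exp (((2 * π * v : ℝ) : ℂ) * Complex.I * u) := by
    intro u; unfold ee; congr 1; push_cast; ring
  simp_rw [e]
  rw [integral_exp_mul_complex hc, ← e, ← e, norm_div, norm_mul, Complex.norm_I, mul_one,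
    Complex.norm_real, Real.norm_eq_abs, abs_mul, abs_of_pos (by positivity : 0 < 2 * π)]
  have h1 : ‖ee (v * b) - ee (v * a)‖ ≤ 2 := by
    refine (norm_sub_le _ _).trans ?_
    simp; norm_num
  have h2 : 0 < |v| := abs_pos.2 hv
  rw [div_le_div_iff₀ (by positivity) (by positivity)]
  nlinarith [mul_pos pi_pos h2]

lemma int_ee_int {L : ℝ} (hL : L ≠ 0) {n : ℤ} (hn : n ≠ 0) (a : ℝ) :
    ∫ u in a..a + L, ee (n / L * u) = 0 := by
  have hn' : (n : ℝ) ≠ 0 := by exact_mod_cast hn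
  have hc : ((2 * π * (n / L) : ℝ) : ℂ) * Complex.I ≠ 0 :=
    mul_ne_zero (by exact_mod_cast (by positivity : 2 * π * (n / L) ≠ 0)) Complex.I_ne_zero
  have e : ∀ u : ℝ, ee (n / L * u) =
      Complex.exp (((2 * π * (n / L) : ℝ) : ℂ) * Complex.I * u) := by
    intro u; unfold ee; congr 1; push_cast; ring
  simp_rw [e]
  rw [integral_exp_mul_complex hc, ← e, ← e]
  have : n / L * (a + L) = n / L * a + n := by field_simp
  rw [this, ee_add, ee_int]; simp

lemma norm_av_le {T : ℝ} (hT : 0 < T) {f : ℝ → ℂ} (hb : ∀ u, ‖f u‖ ≤ 1) (ξ : ℝ) :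
    ‖av T f ξ‖ ≤ 1 := by
  have := norm_integral_le_of_norm_le_const (a := 0) (b := T) (C := 1)
    (f := fun u => f u * ee (-(ξ * u))) fun u _ => by simpa using hb u
  rw [av, norm_mul, norm_inv, Complex.norm_real, Real.norm_eq_abs, abs_of_pos hT,
    inv_mul_le_iff₀ hT]
  simpa [abs_of_pos hT] using this

lemma continuous_av {P : Type*} [TopologicalSpace P] {F : P → ℝ → ℂ}
    (hF : Continuous (Function.uncurry F)) (T ξ : ℝ) : Continuous fun p => av T (F p) ξ := by
  refine continuous_const.mul (continuous_parametric_intervalIntegral_of_continuous' ?_ _ _)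
  exact hF.mul (by fun_prop)

lemma av_shift (T : ℝ) (f : ℝ → ℂ) (ξ t : ℝ) : av T (fun u => f (u + t)) ξ =
    ee (ξ * t) * ((T : ℂ)⁻¹ * ∫ u in t..t + T, f u * ee (-(ξ * u))) := by
  have := integral_comp_add_right (a := 0) (b := T) (fun u => f u * ee (-(ξ * u))) t
  rw [zero_add, add_comm T] at this
  rw [← this, av, mul_left_comm, ← intervalIntegral.integral_const_mul (ee _)]
  congr 2
  ext u
  rw [mul_left_comm, ← ee_add]; congr 2; ring

lemma periodic_mul_ee {L : ℝ} (hL : L ≠ 0) {f : ℝ → ℂ} (hp : Function.Periodic f L) (n : ℤ) :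
    Function.Periodic (fun u => f u * ee (-(n / L * u))) L := by
  intro u
  have : -(n / L * (u + L)) = -(n / L * u) + ((-n : ℤ) : ℝ) := by push_cast; field_simp; ring
  simp only [hp u, this, ee_add, ee_int, mul_one]

lemma av_shift_per {L : ℝ} (hL : L ≠ 0) {f : ℝ → ℂ} (hp : Function.Periodic f L) (n : ℤ)
    (t : ℝ) : av L (fun u => f (u + t)) (n / L) = ee (n * t / L) * av L f (n / L) := by
  rw [av_shift, (periodic_mul_ee hL hp n).intervalIntegral_add_eq t 0, zero_add, av]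
  congr 2; ring

lemma parseval {L : ℝ} (hL : 0 < L) {f : ℝ → ℂ} (hf : Continuous f) :
    HasSum (fun n : ℤ => ‖av L f (n / L)‖ ^ 2) (L⁻¹ * ∫ u in (0 : ℝ)..L, ‖f u‖ ^ 2) := by
  obtain ⟨C, hC⟩ := isCompact_Icc.exists_bound_of_continuousOn (hf.continuousOn (s := Icc 0 L))
  have h2 : MemLp f 2 (volume.restrict (Ioc 0 L)) :=
    MemLp.of_bound hf.aestronglyMeasurable C
      ((ae_restrict_iff' measurableSet_Ioc).2 (.of_forall fun x hx => hC x (Ioc_subset_Icc_self hx)))
  have := hasSum_sq_fourierCoeffOn hL h2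
  rw [sub_zero, smul_eq_mul] at this
  convert this using 4 with n
  rw [fourierCoeffOn_eq_integral, av, Complex.real_smul]
  congr 1
  · simp
  · congr 1
    ext u
    rw [fourier_coe_apply, smul_eq_mul, mul_comm]
    congr 1
    unfold ee; congr 1; push_cast; ring

lemma av_const {L : ℝ} (hL : L ≠ 0) (c : ℂ) (n : ℤ) :
    av L (fun _ => c) (n / L) = if n = 0 then c else 0 := by
  split_ifs with hn
  · have : (L : ℂ) ≠ 0 := by exact_mod_cast hL
    simp [av, hn]; field_simp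
  · have := int_ee_int hL (neg_ne_zero.2 hn) 0
    rw [zero_add] at this
    rw [av, intervalIntegral.integral_const_mul]
    have e : (fun u : ℝ => ee (-(n / L * u))) = fun u => ee (((-n : ℤ) : ℝ) / L * u) := by
      ext u; congr 1; push_cast; ring
    rw [e, this]; simp

lemma av_sub {T : ℝ} {f g : ℝ → ℂ} (hf : Continuous f) (hg : Continuous g) (ξ : ℝ) :
    av T (fun u => f u - g u) ξ = av T f ξ - av T g ξ := by
  simp only [av, sub_mul]
  rw [intervalIntegral.integral_sub, mul_sub] <;> exact Continuous.intervalIntegrable (by fun_prop) _ _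

lemma const_of_coeff {L : ℝ} (hL : 0 < L) {f : ℝ → ℂ} (hf : Continuous f)
    (hp : Function.Periodic f L) (h : ∀ n : ℤ, n ≠ 0 → av L f (n / L) = 0) (t : ℝ) :
    f t = f 0 := by
  set c := av L f ((0 : ℤ) / L)
  have hc : Continuous fun u => f u - c := by fun_prop
  have h1 := parseval hL hc
  have h2 : (fun n : ℤ => ‖av L (fun u => f u - c) (n / L)‖ ^ 2) = fun _ => 0 := by
    ext n
    rw [av_sub hf continuous_const, av_const hL.ne']
    split_ifs with hn
    · simp [hn, c]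
    · simp [h n hn]
  rw [h2] at h1
  have h3 := h1.unique hasSum_zero
  have key : ∀ u ∈ Icc 0 L, f u = c := by
    intro u hu
    by_contra hne
    have := intervalIntegral.integral_pos hL (f := fun u => ‖f u - c‖ ^ 2) (by fun_prop)
      (fun _ _ => by positivity) ⟨u, hu, by have := sub_ne_zero.2 hne; positivity⟩
    have : 0 < L⁻¹ * ∫ u in (0 : ℝ)..L, ‖f u - c‖ ^ 2 := by positivity
    linarith
  obtain ⟨u, hu, e⟩ := hp.exists_mem_Ico₀ hL t
  rw [e, key u (Ico_subset_Icc_self hu), key 0 ⟨le_rfl, hL.le⟩]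

lemma av_av {L : ℝ} (hL : L ≠ 0) {f : ℝ → ℂ} (hf : Continuous f) (hp : Function.Periodic f L)
    (T ξ : ℝ) (n : ℤ) : av L (fun t => av T (fun u => f (u + t)) ξ) (n / L) =
      av L f (n / L) * ((T : ℂ)⁻¹ * ∫ u in (0 : ℝ)..T, ee ((n / L - ξ) * u)) := by
  have e1 : ∀ t, av T (fun u => f (u + t)) ξ * ee (-(n / L * t)) =
      ∫ u in (0 : ℝ)..T, (T : ℂ)⁻¹ * ee (-(ξ * u)) * (f (t + u) * ee (-(n / L * t))) := by
    intro t
    rw [av, ← intervalIntegral.integral_const_mul, ← intervalIntegral.integral_mul_const]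
    congr 1; ext u; rw [add_comm t]; ring
  rw [av]
  simp_rw [e1]
  rw [intervalIntegral_intervalIntegral_swap, ← intervalIntegral.integral_const_mul,
    ← intervalIntegral.integral_const_mul, ← intervalIntegral.integral_const_mul]
  · congr 1; ext u
    have := av_shift_per hL hp n u
    rw [av] at this
    rw [intervalIntegral.integral_const_mul, mul_left_comm, this]
    have e : ee ((n / L - ξ) * u) = ee (-(ξ * u)) * ee (n * u / L) := by
      rw [← ee_add]; congr 1; ring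
    rw [e]; ring
  · refine (ContinuousOn.integrableOn_compact (isCompact_uIcc.prod isCompact_uIcc)
      (Continuous.continuousOn ?_)).mono_set (prod_mono uIoc_subset_uIcc uIoc_subset_uIcc)
    unfold Function.uncurry
    fun_prop

lemma mean_sq_le {L T κ ξ : ℝ} (hL : 0 < L) (hT : 0 < T) (hκ : 0 < κ) {f : ℝ → ℂ}
    (hf : Continuous f) (hp : Function.Periodic f L) (hb : ∀ u, ‖f u‖ ≤ 1)
    (h0 : ∀ n : ℤ, |n / L - ξ| < κ → av L f (n / L) = 0) :
    L⁻¹ * ∫ t in (0 : ℝ)..L, ‖av T (fun u => f (u + t)) ξ‖ ^ 2 ≤ (1 / (π * T * κ)) ^ 2 := by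
  have hc : Continuous fun t => av T (fun u => f (u + t)) ξ :=
    continuous_av (by unfold Function.uncurry; fun_prop) _ _
  have h1 := parseval hL hc
  have h2 := (parseval hL hf).mul_left ((1 / (π * T * κ)) ^ 2)
  have h3 : L⁻¹ * ∫ u in (0 : ℝ)..L, ‖f u‖ ^ 2 ≤ 1 := by
    have := norm_integral_le_of_norm_le_const (a := 0) (b := L) (C := 1)
      (f := fun u => ‖f u‖ ^ 2) fun u _ => by
        rw [Real.norm_eq_abs, abs_of_nonneg (by positivity)]
        exact pow_le_one₀ (norm_nonneg _) (hb u)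
    rw [inv_mul_le_iff₀ hL]
    have h := le_abs_self (∫ u in (0 : ℝ)..L, ‖f u‖ ^ 2)
    simp only [sub_zero, abs_of_pos hL, Real.norm_eq_abs] at this
    linarith
  refine (hasSum_le (fun n => ?_) h1 h2).trans (mul_le_of_le_one_right (by positivity) h3)
  rw [av_av hL.ne' hf hp]
  by_cases hn : |n / L - ξ| < κ
  · simp [h0 n hn]
  · push Not at hn
    have hv : (n : ℝ) / L - ξ ≠ 0 := fun h => by rw [h, abs_zero] at hn; linarith
    rw [norm_mul, mul_pow, mul_comm]
    gcongr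
    rw [norm_mul, norm_inv, Complex.norm_real, Real.norm_eq_abs, abs_of_pos hT]
    calc T⁻¹ * ‖∫ u in (0 : ℝ)..T, ee ((n / L - ξ) * u)‖ ≤ T⁻¹ * (1 / (π * κ)) := by
          gcongr
          exact (norm_int_ee hv _ _).trans (by gcongr)
      _ = _ := by field_simp

lemma norm_ee_sub (x y : ℝ) : ‖ee x - ee y‖ ≤ 2 * π * |x - y| := by
  have e : ee x - ee y = ee y * (ee (x - y) - 1) := by
    rw [mul_sub, ← ee_add]; simp
  rw [e, norm_mul, norm_ee, one_mul, ee, mul_comm _ Complex.I]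
  refine Real.norm_exp_I_mul_ofReal_sub_one_le.trans_eq ?_
  rw [Real.norm_eq_abs, abs_mul, abs_of_pos (by positivity : 0 < 2 * π)]

lemma av_lip_freq {T : ℝ} (hT : 0 < T) {f : ℝ → ℂ} (hf : Continuous f) (hb : ∀ u, ‖f u‖ ≤ 1)
    (ξ ξ' : ℝ) : ‖av T f ξ - av T f ξ'‖ ≤ 2 * π * T * |ξ - ξ'| := by
  rw [av, av, ← mul_sub, ← intervalIntegral.integral_sub (Continuous.intervalIntegrable (by fun_prop) _ _)
    (Continuous.intervalIntegrable (by fun_prop) _ _), norm_mul, norm_inv, Complex.norm_real,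
    Real.norm_eq_abs, abs_of_pos hT, inv_mul_le_iff₀ hT]
  refine (intervalIntegral.norm_integral_le_of_norm_le_const (C := 2 * π * T * |ξ - ξ'|)
    fun u hu => ?_).trans_eq ?_
  · rw [uIoc_of_le hT.le] at hu
    rw [← mul_sub, norm_mul]
    have h1 := norm_ee_sub (-(ξ * u)) (-(ξ' * u))
    have h2 : |-(ξ * u) - -(ξ' * u)| = u * |ξ - ξ'| := by
      rw [show -(ξ * u) - -(ξ' * u) = -(u * (ξ - ξ')) by ring, abs_neg, abs_mul, abs_of_pos hu.1]
    rw [h2] at h1
    calc _ ≤ 1 * (2 * π * (u * |ξ - ξ'|)) := by gcongr; exact hb u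
      _ ≤ 1 * (2 * π * (T * |ξ - ξ'|)) := by gcongr; exact hu.2
      _ = _ := by ring
  · rw [sub_zero, abs_of_pos hT]; ring

lemma av_lip_time {T : ℝ} (hT : 0 < T) {f : ℝ → ℂ} (hf : Continuous f) (hb : ∀ u, ‖f u‖ ≤ 1)
    (ξ s t : ℝ) : ‖av T (fun u => f (u + s)) ξ‖ ≤
      ‖av T (fun u => f (u + t)) ξ‖ + 2 / T * |s - t| := by
  rw [av_shift, av_shift]
  simp only [norm_mul, norm_ee, one_mul, norm_inv, Complex.norm_real, Real.norm_eq_abs,
    abs_of_pos hT]
  have hi : ∀ a b, IntervalIntegrable (fun u => f u * ee (-(ξ * u))) volume a b :=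
    fun a b => Continuous.intervalIntegrable (by fun_prop) _ _
  have hn : ∀ a b, ‖∫ u in a..b, f u * ee (-(ξ * u))‖ ≤ |b - a| := fun a b => by
    simpa using norm_integral_le_of_norm_le_const (a := a) (b := b) (C := 1)
      (f := fun u => f u * ee (-(ξ * u))) fun u _ => by simpa using hb u
  have h1 := integral_interval_sub_interval_comm (hi s (s + T)) (hi t (t + T)) (hi s t)
  have h2 := norm_sub_norm_le (∫ u in s..s + T, f u * ee (-(ξ * u)))
    (∫ u in t..t + T, f u * ee (-(ξ * u)))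
  have h3 := norm_sub_le (∫ u in s..t, f u * ee (-(ξ * u)))
    (∫ u in s + T..t + T, f u * ee (-(ξ * u)))
  have h4 := hn s t
  have h5 := hn (s + T) (t + T)
  rw [add_sub_add_right_eq_sub] at h5
  rw [abs_sub_comm] at h4 h5
  rw [h1] at h2
  rw [div_eq_inv_mul, mul_assoc, ← mul_add]
  gcongr
  linarith

lemma av_long {τ T : ℝ} (hτ : 0 < τ) (hT : 0 < T) {f : ℝ → ℂ} (hf : Continuous f)
    (hp : Function.Periodic f τ) (hb : ∀ u, ‖f u‖ ≤ 1) (n : ℤ) :
    ‖av τ f (n / τ)‖ ≤ ‖av T f (n / τ)‖ + 2 * τ / T := by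
  set g : ℝ → ℂ := fun u => f u * ee (-(n / τ * u))
  have hi : ∀ a b, IntervalIntegrable g volume a b :=
    fun a b => Continuous.intervalIntegrable (by fun_prop) _ _
  set N := ⌊T / τ⌋
  have a1 : N * τ ≤ T := (le_div_iff₀ hτ).1 (Int.floor_le _)
  have a2 : T < (N + 1) * τ := (div_lt_iff₀ hτ).1 (Int.lt_floor_add_one _)
  have h1 := (periodic_mul_ee hτ.ne' hp n).intervalIntegral_add_zsmul_eq N 0 hi
  simp only [zero_add, zsmul_eq_mul] at h1
  change ∫ u in (0 : ℝ)..N * τ, g u = N * ∫ u in (0 : ℝ)..τ, g u at h1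
  have h2 := integral_add_adjacent_intervals (hi 0 (N * τ)) (hi (N * τ) T)
  have h3 : ‖∫ u in N * τ..T, g u‖ ≤ T - N * τ := by
    have := norm_integral_le_of_norm_le_const (a := N * τ) (b := T) (C := 1)
      (f := g) fun u _ => by simpa [g] using hb u
    rwa [one_mul, abs_of_nonneg (by linarith)] at this
  have h4 := norm_av_le hτ hb (n / τ)
  have hτ' : (τ : ℂ) ≠ 0 := by exact_mod_cast hτ.ne'
  have hT' : (T : ℂ) ≠ 0 := by exact_mod_cast hT.ne'
  have e : av τ f (n / τ) = av T f (n / τ) +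
      (T : ℂ)⁻¹ * (((T - N * τ : ℝ) : ℂ) * av τ f (n / τ) - ∫ u in N * τ..T, g u) := by
    simp only [av]
    change (τ : ℂ)⁻¹ * ∫ u in (0 : ℝ)..τ, g u = (T : ℂ)⁻¹ * (∫ u in (0 : ℝ)..T, g u) +
      (T : ℂ)⁻¹ * (((T - N * τ : ℝ) : ℂ) * ((τ : ℂ)⁻¹ * ∫ u in (0 : ℝ)..τ, g u) - _)
    rw [← h2, h1]; push_cast; field_simp; ring
  conv_lhs => rw [e]
  refine (norm_add_le _ _).trans (add_le_add le_rfl ?_)
  rw [norm_mul, norm_inv, Complex.norm_real, Real.norm_eq_abs, abs_of_pos hT,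
    div_eq_inv_mul (2 * τ)]
  gcongr
  refine (norm_sub_le _ _).trans ?_
  rw [norm_mul, Complex.norm_real, Real.norm_eq_abs, abs_of_nonneg (by linarith)]
  nlinarith [norm_nonneg (av τ f (n / τ))]

end Pool.Agent.MP_4a8842_an

end MrgPart1

-- ======== part 2: formerly Pool.Agent.MP_4a8842_an.Four2
section MrgPart2

/-! A Bessel inequality for separated frequencies and a Favard type inequality. -/

open Set MeasureTheory intervalIntegral Real

namespace Pool.Agent.MP_4a8842_an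

lemma bessel {T α κ : ℝ} (hT : 0 < T) (hκ : 0 < κ) {Q : ℕ} (hQ : Q ≤ π * κ * T) {f : ℝ → ℂ}
    (hf : Continuous f) (hb : ∀ u, ‖f u‖ ≤ 1) (ξ : ℕ → ℝ)
    (hξ : ∀ q, α + q * κ ≤ ξ q ∧ ξ q ≤ α + (q + 1) * κ) :
    ∑ q ∈ Finset.range Q, ‖av T f (ξ q)‖ ^ 2 ≤ 4 := by
  set a : ℕ → ℂ := fun q => av T f (ξ q) with ha
  set S := ∑ q ∈ Finset.range Q, ‖a q‖ ^ 2 with hS
  set g : ℝ → ℂ := fun u => ∑ q ∈ Finset.range Q, a q * ee (ξ q * u) with hg
  have hgc : Continuous g := by rw [hg]; fun_prop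
  have hcg : ∀ u, (starRingEnd ℂ) (g u) =
      ∑ q ∈ Finset.range Q, (starRingEnd ℂ) (a q) * ee (-(ξ q * u)) := by
    intro u; simp only [hg, map_sum, map_mul, conj_ee]
  have h1 : (T : ℂ)⁻¹ * ∫ u in (0 : ℝ)..T, f u * (starRingEnd ℂ) (g u) = S := by
    simp_rw [hcg, Finset.mul_sum]
    rw [intervalIntegral.integral_finsetSum fun _ _ => Continuous.intervalIntegrable (by fun_prop) _ _,
      Finset.mul_sum, hS]
    push_cast
    refine Finset.sum_congr rfl fun q _ => ?_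
    simp_rw [mul_left_comm (f _)]
    rw [intervalIntegral.integral_const_mul, mul_left_comm, ← Complex.conj_mul']
    rfl
  let w : ℕ → ℕ → ℝ := fun q q' => (if q' ∈ Finset.Icc (q - 1) (q + 1) then 1 else 0) + 1 / (π * κ * T)
  have hw : ∀ q q', ‖(T : ℂ)⁻¹ * ∫ u in (0 : ℝ)..T, ee ((ξ q - ξ q') * u)‖ ≤ w q q' := by
    intro q q'
    rw [norm_mul, norm_inv, Complex.norm_real, Real.norm_eq_abs, abs_of_pos hT]
    have hp : 0 ≤ 1 / (π * κ * T) := by positivity
    by_cases h : q' ∈ Finset.Icc (q - 1) (q + 1)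
    · have := intervalIntegral.norm_integral_le_of_norm_le_const (a := 0) (b := T) (C := 1)
        (f := fun u => ee ((ξ q - ξ q') * u)) fun u _ => by simp
      rw [sub_zero, abs_of_pos hT, one_mul] at this
      have : T⁻¹ * ‖∫ u in (0 : ℝ)..T, ee ((ξ q - ξ q') * u)‖ ≤ 1 := by
        rw [inv_mul_le_iff₀ hT]; linarith
      simp only [w, h, if_true]; linarith
    · have hk : κ ≤ |ξ q - ξ q'| := by
        have a1 := hξ q
        have a2 := hξ q'
        rw [Finset.mem_Icc] at h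
        rcases (by omega : q' + 2 ≤ q ∨ q + 2 ≤ q') with h | h
        · have : (q' : ℝ) + 2 ≤ q := by exact_mod_cast h
          exact le_trans (by nlinarith) (le_abs_self _)
        · have : (q : ℝ) + 2 ≤ q' := by exact_mod_cast h
          exact le_trans (by nlinarith) (neg_le_abs _)
      have hv : ξ q - ξ q' ≠ 0 := fun h => by rw [h, abs_zero] at hk; linarith
      simp only [w, h, if_false, zero_add]
      calc _ ≤ T⁻¹ * (1 / (π * κ)) := by
            gcongr
            exact (norm_int_ee hv _ _).trans (by gcongr)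
        _ = _ := by field_simp
  have hws : ∀ q q', w q q' = w q' q := by
    intro q q'
    have : q' ∈ Finset.Icc (q - 1) (q + 1) ↔ q ∈ Finset.Icc (q' - 1) (q' + 1) := by
      simp only [Finset.mem_Icc]; omega
    simp only [w, this]
  have hw4 : ∀ q, ∑ q' ∈ Finset.range Q, w q q' ≤ 4 := by
    intro q
    simp only [w]
    rw [Finset.sum_add_distrib, Finset.sum_const, Finset.card_range, nsmul_eq_mul,
      Finset.sum_ite_mem, Finset.sum_const, nsmul_eq_mul, mul_one]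
    have a1 : ((Finset.range Q ∩ Finset.Icc (q - 1) (q + 1)).card : ℝ) ≤ 3 := by
      have := Finset.card_le_card (Finset.inter_subset_right (s₁ := Finset.range Q)
        (s₂ := Finset.Icc (q - 1) (q + 1)))
      rw [Nat.card_Icc] at this
      exact_mod_cast this.trans (by omega)
    have a2 : Q * (1 / (π * κ * T)) ≤ 1 := by
      rw [mul_one_div, div_le_one (by positivity)]; exact hQ
    linarith
  have h2 : T⁻¹ * ∫ u in (0 : ℝ)..T, ‖g u‖ ^ 2 ≤ 4 * S := by
    have e : ((T⁻¹ * ∫ u in (0 : ℝ)..T, ‖g u‖ ^ 2 : ℝ) : ℂ) =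
        ∑ q ∈ Finset.range Q, ∑ q' ∈ Finset.range Q, a q * (starRingEnd ℂ) (a q') *
          ((T : ℂ)⁻¹ * ∫ u in (0 : ℝ)..T, ee ((ξ q - ξ q') * u)) := by
      push_cast
      rw [← intervalIntegral.integral_ofReal]
      have e2 : ∀ u, ((‖g u‖ ^ 2 : ℝ) : ℂ) = ∑ q ∈ Finset.range Q, ∑ q' ∈ Finset.range Q,
          a q * (starRingEnd ℂ) (a q') * ee ((ξ q - ξ q') * u) := by
        intro u
        push_cast
        rw [← Complex.mul_conj', hcg, hg, Finset.sum_mul_sum]
        refine Finset.sum_congr rfl fun q _ => Finset.sum_congr rfl fun q' _ => ?_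
        rw [show (ξ q - ξ q') * u = ξ q * u + -(ξ q' * u) by ring, ee_add]; ring
      simp_rw [e2]
      rw [intervalIntegral.integral_finsetSum fun _ _ => Continuous.intervalIntegrable (by fun_prop) _ _,
        Finset.mul_sum]
      refine Finset.sum_congr rfl fun q _ => ?_
      rw [intervalIntegral.integral_finsetSum fun _ _ => Continuous.intervalIntegrable (by fun_prop) _ _,
        Finset.mul_sum]
      refine Finset.sum_congr rfl fun q' _ => ?_
      rw [intervalIntegral.integral_const_mul]; ring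
    refine (le_abs_self _).trans ?_
    rw [← Real.norm_eq_abs, ← Complex.norm_real, e]
    calc _ ≤ ∑ q ∈ Finset.range Q, ∑ q' ∈ Finset.range Q,
          (‖a q‖ ^ 2 / 2 * w q q' + ‖a q'‖ ^ 2 / 2 * w q' q) := by
          refine (norm_sum_le _ _).trans (Finset.sum_le_sum fun q _ =>
            (norm_sum_le _ _).trans (Finset.sum_le_sum fun q' _ => ?_))
          rw [hws q' q, ← add_mul, norm_mul, norm_mul, Complex.norm_conj]
          refine mul_le_mul ?_ (hw q q') (norm_nonneg _) (by positivity)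
          nlinarith [sq_nonneg (‖a q‖ - ‖a q'‖)]
      _ = 2 * ∑ q ∈ Finset.range Q, ‖a q‖ ^ 2 / 2 * ∑ q' ∈ Finset.range Q, w q q' := by
          simp_rw [Finset.sum_add_distrib, Finset.mul_sum]
          rw [Finset.sum_comm (f := fun q q' => ‖a q'‖ ^ 2 / 2 * w q' q), ← Finset.sum_add_distrib]
          refine Finset.sum_congr rfl fun q _ => ?_
          rw [← Finset.sum_add_distrib]
          exact Finset.sum_congr rfl fun q' _ => by ring
      _ ≤ 2 * ∑ q ∈ Finset.range Q, ‖a q‖ ^ 2 / 2 * 4 := by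
          gcongr with q; exact hw4 q
      _ = 4 * S := by rw [hS, Finset.mul_sum, Finset.mul_sum]; exact Finset.sum_congr rfl fun _ _ => by ring
  have h3 : S ≤ T⁻¹ * ∫ u in (0 : ℝ)..T, (2 + ‖g u‖ ^ 2 / 8) := by
    refine (le_abs_self _).trans ?_
    rw [← Real.norm_eq_abs, ← Complex.norm_real, ← h1, norm_mul, norm_inv, Complex.norm_real,
      Real.norm_eq_abs, abs_of_pos hT]
    gcongr
    refine (intervalIntegral.norm_integral_le_integral_norm hT.le).trans
      (integral_mono_on hT.le (Continuous.intervalIntegrable (by fun_prop) _ _)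
        (Continuous.intervalIntegrable (by fun_prop) _ _) fun u _ => ?_)
    rw [norm_mul, Complex.norm_conj]
    nlinarith [hb u, norm_nonneg (f u), norm_nonneg (g u), sq_nonneg (‖g u‖ - 4)]
  rw [intervalIntegral.integral_add (by simp) (Continuous.intervalIntegrable (by fun_prop) _ _),
    intervalIntegral.integral_div, intervalIntegral.integral_const, mul_add] at h3
  have : T⁻¹ * ((T - 0) • (2 : ℝ)) = 2 := by simp; field_simp
  rw [this, ← mul_div_assoc] at h3
  linarith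

/-- Dirichlet type sum -/
noncomputable def dir (L : ℝ) (K : ℕ) (u : ℝ) : ℂ := ∑ a ∈ Finset.range K, ee (a / L * u)

lemma dir_bound {L : ℝ} (hL : 0 < L) (K : ℕ) {u : ℝ} (hu : |u| ≤ L / 2) :
    ‖dir L K u‖ * |u| ≤ L / 2 := by
  have e : ∀ K : ℕ, dir L K u * (ee (u / L) - 1) = ee (K / L * u) - 1 := by
    intro K
    induction K with
    | zero => simp [dir]
    | succ K ih =>
      rw [dir, Finset.sum_range_succ, add_mul, ← dir, ih]
      have : ((K + 1 : ℕ) : ℝ) / L * u = K / L * u + u / L := by push_cast; ring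
      rw [this, ee_add]; ring
  have h1 : ‖ee (K / L * u) - 1‖ ≤ 2 := (norm_sub_le _ _).trans (by simp; norm_num)
  have h2 : 4 * |u| / L ≤ ‖ee (u / L) - 1‖ := by
    rw [ee, mul_comm _ Complex.I, Complex.norm_exp_I_mul_ofReal_sub_one, Real.norm_eq_abs, abs_mul]
    have e2 : |2 * π * (u / L) / 2| = π * (|u| / L) := by
      rw [show 2 * π * (u / L) / 2 = π * (u / L) by ring, abs_mul, abs_div, abs_of_pos pi_pos,
        abs_of_pos hL]
    have h3 : |u| / L ≤ 1 / 2 := by rw [div_le_iff₀ hL]; linarith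
    have := Real.mul_abs_le_abs_sin (x := 2 * π * (u / L) / 2) (by rw [e2]; nlinarith [pi_pos])
    rw [e2] at this
    have e3 : 2 / π * (π * (|u| / L)) = 2 * (|u| / L) := by field_simp
    rw [e3] at this
    rw [abs_two, mul_div_assoc]; linarith
  rw [← e, norm_mul] at h1
  have h3 : ‖dir L K u‖ * (4 * |u| / L) ≤ 2 := le_trans (by gcongr) h1
  rw [← mul_div_assoc, div_le_iff₀ hL] at h3
  linarith

lemma fejer_int {L : ℝ} (hL : 0 < L) (K : ℕ) {f : ℝ → ℂ} (hf : Continuous f)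
    (hp : Function.Periodic f L) :
    (L : ℂ)⁻¹ * ∫ u in (-(L / 2))..(-(L / 2) + L), f u * ((‖dir L K u‖ ^ 2 : ℝ) : ℂ) =
      ∑ a ∈ Finset.range K, ∑ b ∈ Finset.range K, av L f (((b - a : ℤ) : ℝ) / L) := by
  have e : ∀ u, f u * ((‖dir L K u‖ ^ 2 : ℝ) : ℂ) = ∑ a ∈ Finset.range K, ∑ b ∈ Finset.range K,
      f u * ee (-(((b - a : ℤ) : ℝ) / L * u)) := by
    intro u
    push_cast
    rw [← Complex.mul_conj', dir, map_sum, Finset.sum_mul_sum, Finset.mul_sum]
    refine Finset.sum_congr rfl fun a _ => ?_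
    rw [Finset.mul_sum]
    refine Finset.sum_congr rfl fun b _ => ?_
    rw [conj_ee, ← ee_add]; congr 2; ring
  simp_rw [e]
  rw [intervalIntegral.integral_finsetSum fun _ _ => Continuous.intervalIntegrable (by fun_prop) _ _,
    Finset.mul_sum]
  refine Finset.sum_congr rfl fun a _ => ?_
  rw [intervalIntegral.integral_finsetSum fun _ _ => Continuous.intervalIntegrable (by fun_prop) _ _,
    Finset.mul_sum]
  refine Finset.sum_congr rfl fun b _ => ?_
  rw [(periodic_mul_ee hL.ne' hp _).intervalIntegral_add_eq _ 0, zero_add, av]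

lemma favard {L lam R η : ℝ} (hL : 0 < L) (hlam : 0 ≤ lam) (hR : 0 < R) (hη : 0 ≤ η) {K : ℕ}
    (hK : 0 < K) {f : ℝ → ℂ} (hf : Continuous f) (hp : Function.Periodic f L)
    (hb : ∀ u, ‖f u‖ ≤ 1) (hl : ∀ s t, ‖f s - f t‖ ≤ lam * |s - t|)
    (hc : ∀ n : ℤ, n ≠ 0 → |n| < K → ‖av L f (n / L)‖ ≤ η) (t : ℝ) :
    ‖f t - av L f 0‖ ≤ lam * R + π * L / (K * R) + K * η := by
  have hK' : (0 : ℝ) < K := by exact_mod_cast hK
  have hdc : Continuous (dir L K) := by unfold dir; fun_prop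
  have hle : -(L / 2) ≤ -(L / 2) + L := by linarith
  have hdiag : ∀ c : ℂ, ∑ a ∈ Finset.range K, ∑ b ∈ Finset.range K,
      (if (b - a : ℤ) = 0 then c else 0) = K * c := by
    intro c
    have : ∀ a ∈ Finset.range K, ∑ b ∈ Finset.range K, (if (b - a : ℤ) = 0 then c else 0) = c := by
      intro a ha
      rw [Finset.sum_eq_single_of_mem a ha fun b _ hb => if_neg (by omega), if_pos (by omega)]
    rw [Finset.sum_congr rfl this]; simp
  have h1 := fejer_int hL K (f := fun u => f (u + t) - f t) (by fun_prop)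
    (fun u => by simp only [add_right_comm u L t, hp (u + t)])
  have h0 := fejer_int hL K (f := fun _ => 1) continuous_const (fun _ => rfl)
  simp_rw [av_const hL.ne', hdiag, one_mul, mul_one] at h0
  have hm : ∫ u in (-(L / 2))..(-(L / 2) + L), ‖dir L K u‖ ^ 2 = L * K := by
    rw [intervalIntegral.integral_ofReal, inv_mul_eq_iff_eq_mul₀ (by exact_mod_cast hL.ne')] at h0
    exact_mod_cast h0
  have h2 : ‖(L : ℂ)⁻¹ * ∫ u in (-(L / 2))..(-(L / 2) + L),
      (f (u + t) - f t) * ((‖dir L K u‖ ^ 2 : ℝ) : ℂ)‖ ≤ K * (lam * R + π * L / (K * R)) := by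
    rw [norm_mul, norm_inv, Complex.norm_real, Real.norm_eq_abs, abs_of_pos hL, inv_mul_le_iff₀ hL]
    have hcq : Continuous fun u : ℝ => (R ^ 2 + u ^ 2)⁻¹ :=
      Continuous.inv₀ (by fun_prop) fun u => by positivity
    refine (intervalIntegral.norm_integral_le_integral_norm hle).trans
      ((integral_mono_on (g := fun u => lam * R * ‖dir L K u‖ ^ 2 + L ^ 2 * (R ^ 2 + u ^ 2)⁻¹) hle
        (Continuous.intervalIntegrable (by fun_prop) _ _)
        (Continuous.intervalIntegrable (by fun_prop) _ _) fun u hu => ?_).trans ?_)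
    · rw [norm_mul, Complex.norm_real, Real.norm_eq_abs, abs_of_nonneg (by positivity)]
      have p1 : 0 ≤ L ^ 2 * (R ^ 2 + u ^ 2)⁻¹ := by positivity
      have p2 : 0 ≤ lam * R * ‖dir L K u‖ ^ 2 := by positivity
      by_cases hu' : |u| ≤ R
      · have := hl (u + t) t
        rw [add_sub_cancel_right] at this
        have : ‖f (u + t) - f t‖ ≤ lam * R := this.trans (by gcongr)
        have : ‖f (u + t) - f t‖ * ‖dir L K u‖ ^ 2 ≤ lam * R * ‖dir L K u‖ ^ 2 := by gcongr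
        linarith
      · push Not at hu'
        have a1 : ‖f (u + t) - f t‖ ≤ 2 := (norm_sub_le _ _).trans (by linarith [hb (u + t), hb t])
        have a2 := dir_bound hL K (u := u) (abs_le.2 ⟨hu.1, by linarith [hu.2]⟩)
        have a3 : (‖dir L K u‖ * |u|) ^ 2 ≤ (L / 2) ^ 2 := by gcongr
        rw [mul_pow, sq_abs] at a3
        have a4 : R ^ 2 ≤ u ^ 2 := by rw [← sq_abs u]; gcongr
        have a5 : 2 * ‖dir L K u‖ ^ 2 ≤ L ^ 2 * (R ^ 2 + u ^ 2)⁻¹ := by
          rw [← div_eq_mul_inv, le_div_iff₀ (by positivity)]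
          nlinarith [sq_nonneg ‖dir L K u‖]
        have : ‖f (u + t) - f t‖ * ‖dir L K u‖ ^ 2 ≤ 2 * ‖dir L K u‖ ^ 2 := by gcongr
        linarith
    · rw [intervalIntegral.integral_add (Continuous.intervalIntegrable (by fun_prop) _ _)
        (Continuous.intervalIntegrable (by fun_prop) _ _), intervalIntegral.integral_const_mul,
        intervalIntegral.integral_const_mul, hm, integral_inv_sq_add_sq hR.ne']
      have a1 := arctan_lt_pi_div_two ((-(L / 2) + L) / R)
      have a2 := neg_pi_div_two_lt_arctan (-(L / 2) / R)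
      calc _ ≤ lam * R * (L * K) + L ^ 2 * (R⁻¹ * π) := by gcongr; linarith
        _ = _ := by field_simp
  have hsh : ∀ n : ℤ, av L (fun u => f (u + t) - f t) (n / L) =
      (if n = 0 then av L f 0 - f t else 0) +
        (if n = 0 then 0 else ee (n * t / L) * av L f (n / L)) := by
    intro n
    rw [av_sub (by fun_prop) continuous_const, av_const hL.ne', av_shift_per hL.ne' hp]
    split_ifs with hn
    · simp [hn]
    · simp
  simp_rw [hsh, Finset.sum_add_distrib, hdiag] at h1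
  have h3 : ‖∑ a ∈ Finset.range K, ∑ b ∈ Finset.range K, (if (b - a : ℤ) = 0 then 0 else
      ee (((b - a : ℤ) : ℝ) * t / L) * av L f (((b - a : ℤ) : ℝ) / L))‖ ≤ K * (K * η) := by
    refine (norm_sum_le _ _).trans ((Finset.sum_le_card_nsmul _ _ (K * η) fun a ha =>
      (norm_sum_le _ _).trans ((Finset.sum_le_card_nsmul _ _ η fun b hb => ?_).trans
        (by simp))).trans (by simp))
    split_ifs with hn
    · simpa using hη
    · rw [norm_mul, norm_ee, one_mul]
      refine hc _ hn ?_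
      rw [Finset.mem_range] at ha hb
      rw [abs_lt]; constructor <;> omega
  rw [h1] at h2
  have h4 := norm_sub_le_of_le h2 h3
  rw [add_sub_cancel_right, norm_mul, Complex.norm_natCast, ← mul_add, norm_sub_rev] at h4
  exact le_of_mul_le_mul_left h4 hK'

end Pool.Agent.MP_4a8842_an

end MrgPart2

-- ======== part 3: formerly Pool.Agent.MP_4a8842_an.WM
section MrgPart3

/-! Periodic points with a large windowed Fourier coefficient are covered by few phase sets. -/

open Set MeasureTheory intervalIntegral Real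

namespace Pool.Agent.MP_4a8842_an

lemma gap {ι : Type*} (P : ι → Prop) (v : ι → ℝ) (a : ℝ) {d : ℝ} (hd : 0 < d) (m : ℕ)
    (h : ∀ r < m, ∃ i, P i ∧ a + (r : ℕ) * d < v i ∧ v i < a + (r + 1) * d) :
    ∃ c : Fin m → ι, (∀ r, P (c r) ∧ a < v (c r) ∧ v (c r) < a + m * d) ∧
      Function.Injective fun r => v (c r) := by
  choose c h1 h2 h3 using fun r : Fin m => h r r.2
  refine ⟨c, fun r => ⟨h1 r, ?_, ?_⟩, StrictMono.injective fun r r' hr => ?_⟩
  · exact lt_of_le_of_lt (le_add_of_nonneg_right (by positivity)) (h2 r)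
  · have : ((r : ℕ) : ℝ) + 1 ≤ m := by exact_mod_cast r.2
    exact (h3 r).trans_le (by gcongr)
  · have : ((r : ℕ) : ℝ) + 1 ≤ (r' : ℕ) := by exact_mod_cast hr
    exact ((h3 r).trans_le (by gcongr)).trans (h2 r')

variable {Z : Type*} [TopologicalSpace Z] (φ : Flow ℝ Z)

/-- points of period L -/
def Per (L : ℝ) : Set Z := {y | φ L y = y}

/-- points all of whose windows have small Fourier coefficients in a range of frequencies -/
def Good (h : Z → ℂ) (T α β ε : ℝ) : Set Z :=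
  {y | ∀ t ξ, α ≤ ξ → ξ ≤ β → ‖av T (fun u => h (φ u (φ t y))) ξ‖ ≤ ε}

variable {φ}

lemma per_inv {L : ℝ} {y : Z} (hy : y ∈ Per φ L) (t : ℝ) : φ t y ∈ Per φ L := by
  change φ L (φ t y) = φ t y
  rw [← φ.map_add, add_comm, φ.map_add, hy]

lemma per_periodic {L : ℝ} {y : Z} (hy : y ∈ Per φ L) {E : Type*} (f : Z → E) :
    Function.Periodic (fun u => f (φ u y)) L := fun u => by
  simp only [φ.map_add]; rw [hy]

lemma isClosed_Per [T2Space Z] (L : ℝ) : IsClosed (Per φ L) :=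
  isClosed_eq (φ.continuous_toFun L) continuous_id

lemma continuous_av_orb {h : Z → ℂ} (hh : Continuous h) (T ξ : ℝ) :
    Continuous fun y => av T (fun u => h (φ u y)) ξ :=
  continuous_av (F := fun y u => h (φ u y)) (hh.comp (φ.continuous continuous_snd continuous_fst)) _ _

lemma isClosed_Good {h : Z → ℂ} (hh : Continuous h) (T α β ε : ℝ) :
    IsClosed (Good φ h T α β ε) := by
  simp only [Good, ofPred_forall]
  refine isClosed_iInter fun t => isClosed_iInter fun ξ => isClosed_iInter fun _ =>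
    isClosed_iInter fun _ => isClosed_le ?_ continuous_const
  exact ((continuous_av_orb hh T ξ).comp (φ.continuous_toFun t)).norm

lemma good_inv {h : Z → ℂ} {T α β ε : ℝ} {y : Z} (hy : y ∈ Good φ h T α β ε) (t : ℝ) :
    φ t y ∈ Good φ h T α β ε := fun s ξ h1 h2 => by
  simpa only [φ.map_add] using hy (s + t) ξ h1 h2

lemma av_orb_shift {L : ℝ} (hL : L ≠ 0) {y : Z} (hy : y ∈ Per φ L) (f : Z → ℂ) (n : ℤ) (s : ℝ) :
    av L (fun u => f (φ u (φ s y))) (n / L) = ee (n * s / L) * av L (fun u => f (φ u y)) (n / L) := by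
  rw [← av_shift_per hL (per_periodic hy f)]
  simp only [φ.map_add]

lemma cov_coef [T2Space Z] {L η : ℝ} (hL : L ≠ 0) (hη : 0 < η) {f : Z → ℂ} (hf : Continuous f)
    (S : Finset ℤ) (hS : 0 ∉ S) :
    Cov φ L S.card {y | y ∈ Per φ L ∧ η ≤ ∑ n ∈ S, ‖av L (fun u => f (φ u y)) (n / L)‖} := by
  refine cov_of_fam S ((isClosed_Per L).inter (isClosed_le continuous_const
    (continuous_finsetSum _ fun n _ => (continuous_av_orb hf _ _).norm))) ?_
    (fun n y => av L (fun u => f (φ u y)) (n / L)) (fun n _ => n)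
    (fun n _ => (continuous_av_orb hf _ _).continuousOn) (fun _ _ => continuousOn_const)
    (fun n hn _ _ => ⟨n, fun h => hS (h ▸ hn), rfl⟩) (fun _ _ _ _ _ => rfl)
    (fun n _ y hy s => av_orb_shift hL hy.1 f n s) ?_
  · intro y hy s
    refine ⟨per_inv hy.1 s, ?_⟩
    simpa only [av_orb_shift hL hy.1, norm_mul, norm_ee, one_mul] using hy.2
  · intro y hy
    by_contra hc
    push Not at hc
    have := hy.2
    rw [Finset.sum_eq_zero fun n hn => by rw [hc n hn, norm_zero]] at this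
    linarith

variable (φ) in
/-- largest coefficient on the grid of the bin q -/
noncomputable def Mq (h : Z → ℂ) (T α κ : ℝ) (G q : ℕ) (y : Z) : ℝ :=
  ‖fun g : Fin G => av T (fun u => h (φ u y)) (α + q * κ + (g : ℕ) * κ / G)‖

variable (φ) in
/-- mean of Mq over a period -/
noncomputable def mq (h : Z → ℂ) (T α κ : ℝ) (G : ℕ) (L : ℝ) (q : ℕ) (y : Z) : ℝ :=
  L⁻¹ * ∫ t in (0 : ℝ)..L, Mq φ h T α κ G q (φ t y)

section
variable {h : Z → ℂ} {T α κ L ε : ℝ} {G : ℕ}

lemma continuous_Mq (hh : Continuous h) (q : ℕ) : Continuous (Mq φ h T α κ G q) :=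
  (continuous_pi fun _ => continuous_av_orb hh _ _).norm

lemma continuous_mq (hh : Continuous h) (q : ℕ) : Continuous (mq φ h T α κ G L q) :=
  continuous_const.mul (continuous_parametric_intervalIntegral_of_continuous'
    (f := fun y t => Mq φ h T α κ G q (φ t y)) ((continuous_Mq hh q).comp (φ.continuous continuous_snd continuous_fst)) _ _)

lemma mq_inv {y : Z} (hy : y ∈ Per φ L) (q : ℕ) (s : ℝ) :
    mq φ h T α κ G L q (φ s y) = mq φ h T α κ G L q y := by
  unfold mq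
  have := integral_comp_add_right (a := 0) (b := L) (fun t => Mq φ h T α κ G q (φ t y)) s
  simp only [φ.map_add] at this
  rw [this, zero_add, add_comm L, (per_periodic hy _).intervalIntegral_add_eq s 0, zero_add]

lemma grid_mem (hκ : 0 < κ) (q : ℕ) (g : Fin G) : α + q * κ ≤ α + q * κ + (g : ℕ) * κ / G ∧
    α + q * κ + (g : ℕ) * κ / G ≤ α + (q + 1) * κ := by
  have h1 : (0 : ℝ) < G := by exact_mod_cast g.pos
  have h2 : ((g : ℕ) : ℝ) ≤ G := by exact_mod_cast g.2.le
  refine ⟨le_add_of_nonneg_right (by positivity), ?_⟩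
  have : (g : ℕ) * κ / G ≤ κ := by rw [div_le_iff₀ h1]; nlinarith
  linarith

lemma Mq_attained (hG : 0 < G) (q : ℕ) (y : Z) : ∃ g : Fin G,
    Mq φ h T α κ G q y ≤ ‖av T (fun u => h (φ u y)) (α + q * κ + (g : ℕ) * κ / G)‖ := by
  have : Nonempty (Fin G) := ⟨⟨0, hG⟩⟩
  obtain ⟨g, hg⟩ := Finite.exists_max fun g : Fin G =>
    ‖av T (fun u => h (φ u y)) (α + q * κ + (g : ℕ) * κ / G)‖
  exact ⟨g, (pi_norm_le_iff_of_nonneg (norm_nonneg _)).2 hg⟩

lemma Mq_lip (hT : 0 < T) (hh : Continuous h) (hb : ∀ y, ‖h y‖ ≤ 1) (q : ℕ) (y : Z) (s t : ℝ) :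
    Mq φ h T α κ G q (φ s y) ≤ Mq φ h T α κ G q (φ t y) + 2 / T * |s - t| := by
  refine (pi_norm_le_iff_of_nonneg (add_nonneg (norm_nonneg _) (by positivity))).2 fun g => ?_
  have := av_lip_time hT (f := fun u => h (φ u y)) (by fun_prop) (fun _ => hb _)
    (α + q * κ + (g : ℕ) * κ / G) s t
  simp only [φ.map_add] at this
  exact this.trans (add_le_add (norm_le_pi_norm
    (fun g : Fin G => av T (fun u => h (φ u (φ t y))) (α + q * κ + (g : ℕ) * κ / G)) g) le_rfl)

lemma mq_count (hT : 0 < T) (hκ : 0 < κ) (hL : 0 < L) (hε : 0 < ε) (hG : 0 < G) {Q : ℕ}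
    (hQ : Q ≤ π * κ * T) (hh : Continuous h) (hb : ∀ y, ‖h y‖ ≤ 1) (y : Z) (S : Finset ℕ)
    (hS : S ⊆ Finset.range Q) (hm : ∀ q ∈ S, ε / 8 < mq φ h T α κ G L q y) :
    (S.card : ℝ) ≤ 256 / ε ^ 2 := by
  have hc : ∀ q, Continuous fun t => Mq φ h T α κ G q (φ t y) := fun q =>
    (continuous_Mq hh q).comp (by fun_prop)
  have h1 : ∀ z, ∑ q ∈ S, Mq φ h T α κ G q z ≤ S.card * (ε / 16) + 16 / ε := by
    intro z
    choose g hg using fun q => Mq_attained (φ := φ) (h := h) (T := T) (α := α) (κ := κ) hG q z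
    have hB := bessel hT hκ hQ (f := fun u => h (φ u z)) (by fun_prop) (fun _ => hb _) _
      fun q => grid_mem (α := α) hκ q (g q)
    have h2 : ∑ q ∈ S, Mq φ h T α κ G q z ^ 2 ≤ 4 :=
      le_trans ((Finset.sum_le_sum fun q _ => pow_le_pow_left₀ (norm_nonneg _) (hg q) 2).trans
        (Finset.sum_le_sum_of_subset_of_nonneg hS fun _ _ _ => by positivity)) hB
    calc _ ≤ ∑ q ∈ S, (ε / 16 + 4 / ε * Mq φ h T α κ G q z ^ 2) := by
          refine Finset.sum_le_sum fun q _ => ?_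
          have := sq_nonneg (Mq φ h T α κ G q z - ε / 8)
          rw [← sub_nonneg]
          have e : ε / 16 + 4 / ε * Mq φ h T α κ G q z ^ 2 - Mq φ h T α κ G q z =
              4 / ε * (Mq φ h T α κ G q z - ε / 8) ^ 2 := by field_simp; ring
          rw [e]; positivity
      _ ≤ _ := by
          rw [Finset.sum_add_distrib, Finset.sum_const, nsmul_eq_mul, ← Finset.mul_sum]
          have : 4 / ε * ∑ q ∈ S, Mq φ h T α κ G q z ^ 2 ≤ 4 / ε * 4 := by gcongr
          have e : 4 / ε * 4 = 16 / ε := by ring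
          linarith
  have h2 : ∑ q ∈ S, mq φ h T α κ G L q y ≤ S.card * (ε / 16) + 16 / ε := by
    simp only [mq]
    rw [← Finset.mul_sum, ← intervalIntegral.integral_finsetSum fun q _ => (hc q).intervalIntegrable _ _,
      inv_mul_le_iff₀ hL]
    refine (integral_mono_on (g := fun _ => S.card * (ε / 16) + 16 / ε) hL.le
      ((continuous_finsetSum _ fun q _ => hc q).intervalIntegrable _ _) (by simp)
      fun t _ => h1 _).trans_eq
        (by rw [intervalIntegral.integral_const, sub_zero, smul_eq_mul])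
  have h3 : S.card • (ε / 8) ≤ ∑ q ∈ S, mq φ h T α κ G L q y :=
    Finset.card_nsmul_le_sum _ _ _ fun q hq => (hm q hq).le
  rw [nsmul_eq_mul] at h3
  have h4 : S.card * (ε / 16) ≤ 16 / ε := by linarith
  rw [le_div_iff₀ hε] at h4
  rw [le_div_iff₀ (by positivity)]
  nlinarith

lemma mq_coef (hT : 0 < T) (hκ : 0 < κ) (hL : 0 < L) (hε : 0 < ε) (hG : 0 < G)
    (hGT : G * (1 / (π * T * κ)) ^ 2 ≤ ε ^ 2 / 64) (hh : Continuous h) (hb : ∀ y, ‖h y‖ ≤ 1)
    {y : Z} (hy : y ∈ Per φ L) {q : ℕ} (hm : ε / 8 < mq φ h T α κ G L q y) :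
    ∃ i ∈ Finset.range (⌈3 * κ * L⌉₊ + 1),
      av L (fun u => h (φ u y)) (((⌈L * (α + (q - 1) * κ)⌉ + (i : ℕ) : ℤ) : ℝ) / L) ≠ 0 := by
  by_contra hc
  push Not at hc
  have hca : ∀ ξ, Continuous fun t => av T (fun u => h (φ u (φ t y))) ξ := fun ξ =>
    (continuous_av_orb hh T ξ).comp (by fun_prop)
  have h1 : ∀ g : Fin G, L⁻¹ * ∫ t in (0 : ℝ)..L,
      ‖av T (fun u => h (φ u (φ t y))) (α + q * κ + (g : ℕ) * κ / G)‖ ^ 2 ≤
        (1 / (π * T * κ)) ^ 2 := by
    intro g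
    have := mean_sq_le (ξ := α + q * κ + (g : ℕ) * κ / G) hL hT hκ (f := fun u => h (φ u y))
      (by fun_prop) (per_periodic hy h) (fun _ => hb _) fun n hn => ?_
    · simpa only [φ.map_add] using this
    obtain ⟨a1, a2⟩ := grid_mem (α := α) hκ q g
    obtain ⟨b1, b2⟩ := abs_lt.1 hn
    have c1 : L * (α + (q - 1) * κ) ≤ n := by
      rw [← le_div_iff₀' hL]; linarith
    have c2 : (n : ℝ) ≤ L * (α + (q + 2) * κ) := by
      rw [← div_le_iff₀' hL]; linarith
    have c3 := Int.ceil_le.2 c1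
    have c4 := Int.le_ceil (L * (α + (q - 1) * κ))
    have c5 := Nat.le_ceil (3 * κ * L)
    obtain ⟨i, hi⟩ := Int.le.dest c3
    have c6 : (n : ℝ) = (⌈L * (α + (q - 1) * κ)⌉ : ℤ) + (i : ℕ) := by exact_mod_cast hi.symm
    have c7 : (i : ℝ) ≤ ⌈3 * κ * L⌉₊ := by nlinarith
    have := hc i (Finset.mem_range.2 (Nat.lt_succ_of_le (by exact_mod_cast c7)))
    rwa [hi] at this
  have h2 : ∀ z, Mq φ h T α κ G q z ≤ ε / 16 + 4 / ε *
      ∑ g : Fin G, ‖av T (fun u => h (φ u z)) (α + q * κ + (g : ℕ) * κ / G)‖ ^ 2 := by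
    intro z
    obtain ⟨g, hg⟩ := Mq_attained (φ := φ) (h := h) (T := T) (α := α) (κ := κ) hG q z
    have a1 := Finset.single_le_sum (s := Finset.univ) (f := fun g : Fin G =>
      ‖av T (fun u => h (φ u z)) (α + q * κ + (g : ℕ) * κ / G)‖ ^ 2) (fun _ _ => by positivity)
      (Finset.mem_univ g)
    have a2 := (pow_le_pow_left₀ (norm_nonneg _) hg 2).trans a1
    have e : ε / 16 + 4 / ε * Mq φ h T α κ G q z ^ 2 - Mq φ h T α κ G q z =
        4 / ε * (Mq φ h T α κ G q z - ε / 8) ^ 2 := by field_simp; ring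
    have a3 : 0 ≤ 4 / ε * (Mq φ h T α κ G q z - ε / 8) ^ 2 := by positivity
    have a4 : 4 / ε * Mq φ h T α κ G q z ^ 2 ≤ 4 / ε * ∑ g : Fin G,
      ‖av T (fun u => h (φ u z)) (α + q * κ + (g : ℕ) * κ / G)‖ ^ 2 := by gcongr; exact a2
    linarith
  have hi : ∀ g : Fin G, IntervalIntegrable (fun t =>
      ‖av T (fun u => h (φ u (φ t y))) (α + q * κ + (g : ℕ) * κ / G)‖ ^ 2) volume 0 L :=
    fun g => ((hca _).norm.pow 2).intervalIntegrable _ _
  have hs : Continuous fun t => 4 / ε * ∑ g : Fin G,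
      ‖av T (fun u => h (φ u (φ t y))) (α + q * κ + (g : ℕ) * κ / G)‖ ^ 2 :=
    continuous_const.mul (continuous_finsetSum Finset.univ fun (g : Fin G) _ =>
      (hca (α + q * κ + (g : ℕ) * κ / G)).norm.pow 2)
  have h3 := integral_mono_on (f := fun t => Mq φ h T α κ G q (φ t y))
    (g := fun t => ε / 16 + 4 / ε * ∑ g : Fin G,
      ‖av T (fun u => h (φ u (φ t y))) (α + q * κ + (g : ℕ) * κ / G)‖ ^ 2) hL.le
    (((continuous_Mq hh q).comp (f := fun t => φ t y) (by fun_prop)).intervalIntegrable 0 L)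
    ((continuous_const.add hs).intervalIntegrable (μ := volume) 0 L)
    fun t _ => h2 (φ t y)
  rw [intervalIntegral.integral_add (by simp) (hs.intervalIntegrable _ _),
    intervalIntegral.integral_const_mul, intervalIntegral.integral_finsetSum fun g _ => hi g] at h3
  have h4 : L⁻¹ * ∑ g : Fin G, ∫ t in (0 : ℝ)..L,
      ‖av T (fun u => h (φ u (φ t y))) (α + q * κ + (g : ℕ) * κ / G)‖ ^ 2 ≤ ε ^ 2 / 64 := by
    rw [Finset.mul_sum]
    exact (Finset.sum_le_card_nsmul _ _ _ fun g _ => h1 g).trans (by simpa using hGT)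
  rw [inv_mul_le_iff₀ hL] at h4
  rw [mq, lt_inv_mul_iff₀ hL] at hm
  simp only [intervalIntegral.integral_const, sub_zero, smul_eq_mul] at h3
  have h5 := mul_le_mul_of_nonneg_left h4 (by positivity : 0 ≤ 4 / ε)
  have e : 4 / ε * (L * (ε ^ 2 / 64)) = L * (ε / 16) := by field_simp; ring
  linarith

lemma cov_stratum [T2Space Z] (hT : 0 < T) (hκ : 0 < κ) (hκα : κ < α) (hL : 0 < L) (hε : 0 < ε)
    (hG : 0 < G) (hGT : G * (1 / (π * T * κ)) ^ 2 ≤ ε ^ 2 / 64) (hh : Continuous h)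
    (hb : ∀ y, ‖h y‖ ≤ 1) (Q : ℕ) {a b : ℝ} (ha : ε / 8 ≤ a) (hab : a < b) :
    Cov φ L (3 * κ * L + 2) {y | y ∈ Per φ L ∧
      (∀ q < Q, mq φ h T α κ G L q y ≤ a ∨ b ≤ mq φ h T α κ G L q y) ∧
      ∃ q < Q, b ≤ mq φ h T α κ G L q y} := by
  classical
  set A := {y | y ∈ Per φ L ∧ (∀ q < Q, mq φ h T α κ G L q y ≤ a ∨ b ≤ mq φ h T α κ G L q y) ∧
      ∃ q < Q, b ≤ mq φ h T α κ G L q y} with hA
  have hcm := fun q => continuous_mq (φ := φ) (T := T) (α := α) (κ := κ) (G := G) (L := L) hh q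
  let qs : Z → ℕ := fun y => sInf {q | q < Q ∧ b ≤ mq φ h T α κ G L q y}
  have hqs : ∀ y ∈ A, qs y < Q ∧ b ≤ mq φ h T α κ G L (qs y) y := fun y hy =>
    Nat.sInf_mem (s := {q | q < Q ∧ b ≤ mq φ h T α κ G L q y}) hy.2.2
  have hev : ∀ y ∈ A, ∀ᶠ z in nhdsWithin y A, qs z = qs y := by
    intro y hy
    have : ∀ q ∈ Finset.range Q, ∀ᶠ z in nhdsWithin y A,
        (b ≤ mq φ h T α κ G L q z ↔ b ≤ mq φ h T α κ G L q y) := by
      intro q hq
      rw [Finset.mem_range] at hq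
      by_cases hby : b ≤ mq φ h T α κ G L q y
      · filter_upwards [self_mem_nhdsWithin, nhdsWithin_le_nhds
          ((hcm q).continuousAt.eventually (lt_mem_nhds (hab.trans_le hby)))] with z hz hz'
        exact iff_of_true ((hz.2.1 q hq).resolve_left (not_le.2 hz')) hby
      · filter_upwards [nhdsWithin_le_nhds
          ((hcm q).continuousAt.eventually (gt_mem_nhds (not_le.1 hby)))] with z hz'
        exact iff_of_false (not_le.2 hz') hby
    filter_upwards [(Filter.eventually_all_finset _).2 this] with z hz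
    simp only [qs]
    congr 1
    ext q
    exact and_congr_right fun hq => hz q (Finset.mem_range.2 hq)
  have hinv : ∀ y ∈ A, ∀ s, qs (φ s y) = qs y := fun y hy s => by
    simp only [qs, mq_inv hy.1]
  let n : ℕ → Z → ℤ := fun i y => ⌈L * (α + (qs y - 1) * κ)⌉ + (i : ℕ)
  refine (cov_of_fam (Finset.range (⌈3 * κ * L⌉₊ + 1)) ?_ ?_
    (fun i y => av L (fun u => h (φ u y)) (n i y / L)) (fun i y => n i y) ?_ ?_ ?_ ?_ ?_ ?_).mono
    ?_ Subset.rfl
  · refine (isClosed_Per L).inter (IsClosed.inter ?_ ?_)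
    · change IsClosed {y | ∀ q < Q, mq φ h T α κ G L q y ≤ a ∨ b ≤ mq φ h T α κ G L q y}
      simp only [ofPred_forall]
      exact isClosed_iInter fun q => isClosed_iInter fun _ =>
        (isClosed_le (hcm q) continuous_const).union (isClosed_le continuous_const (hcm q))
    · have : {y | ∃ q < Q, b ≤ mq φ h T α κ G L q y} =
          ⋃ q ∈ Finset.range Q, {y | b ≤ mq φ h T α κ G L q y} := by ext; simp
      change IsClosed {y | ∃ q < Q, b ≤ mq φ h T α κ G L q y}
      rw [this]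
      exact isClosed_biUnion_finset fun q _ => isClosed_le continuous_const (hcm q)
  · intro y hy s
    refine ⟨per_inv hy.1 s, ?_⟩
    simpa only [mq_inv hy.1] using hy.2
  · intro i _ y hy
    refine ((continuous_av_orb hh L (n i y / L)).continuousWithinAt).congr_of_eventuallyEq ?_ rfl
    filter_upwards [hev y hy] with z hz
    simp only [n, hz]
  · intro i _ y hy
    refine (continuousWithinAt_const (b := (n i y : ℝ))).congr_of_eventuallyEq ?_ rfl
    filter_upwards [hev y hy] with z hz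
    simp only [n, hz]
  · intro i _ y _
    refine ⟨n i y, ?_, rfl⟩
    have : 0 < L * (α + (qs y - 1) * κ) := by
      have : (0 : ℝ) ≤ qs y * κ := by positivity
      exact mul_pos hL (by linarith)
    have := Int.ceil_pos.2 this
    simp only [n]; omega
  · intro i _ y hy s
    simp only [n, hinv y hy]
  · intro i _ y hy s
    have : n i (φ s y) = n i y := by simp only [n, hinv y hy]
    simp only [this]
    exact av_orb_shift hL.ne' hy.1 h _ s
  · intro y hy
    exact mq_coef hT hκ hL hε hG hGT hh hb hy.1 (lt_of_lt_of_le (ha.trans_lt hab) (hqs y hy).2)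
  · have := (Nat.ceil_lt_add_one (by positivity : 0 ≤ 3 * κ * L)).le
    simp only [Finset.card_range]; push_cast; linarith

lemma mq_large (hT : 0 < T) (hL : 0 < L) (hε : 0 < ε) {R : ℝ} (hR : 0 < R) {K : ℕ} (hK : 0 < K)
    (h1 : 2 / T * R ≤ ε / 16) (h2 : π * L / (K * R) ≤ ε / 16) (hh : Continuous h)
    (hb : ∀ y, ‖h y‖ ≤ 1) {y : Z} (hy : y ∈ Per φ L) {q : ℕ} {t : ℝ}
    (ht : ε / 2 < Mq φ h T α κ G q (φ t y))
    (hs : ∑ n ∈ (Finset.Ioo (-K : ℤ) K).erase 0,
      ‖av L (fun u => (Mq φ h T α κ G q (φ u y) : ℂ)) (n / L)‖ < ε / (16 * K)) :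
    ε / 4 ≤ mq φ h T α κ G L q y := by
  have hK' : (0 : ℝ) < K := by exact_mod_cast hK
  have hc := continuous_Mq (φ := φ) (T := T) (α := α) (κ := κ) (G := G) hh q
  have := favard (η := ε / (16 * K)) hL (by positivity : 0 ≤ 2 / T) hR (by positivity) hK
    (f := fun u => (Mq φ h T α κ G q (φ u y) : ℂ)) (by fun_prop)
    (per_periodic hy fun z => (Mq φ h T α κ G q z : ℂ)) (fun u => ?_) (fun s s' => ?_)
    (fun n hn hnK => ?_) t
  · have e : av L (fun u => (Mq φ h T α κ G q (φ u y) : ℂ)) 0 = (mq φ h T α κ G L q y : ℂ) := by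
      simp [av, mq, intervalIntegral.integral_ofReal]
    rw [e, ← Complex.ofReal_sub, Complex.norm_real, Real.norm_eq_abs] at this
    have e2 : K * (ε / (16 * K)) = ε / 16 := by field_simp
    have := (le_abs_self _).trans this
    linarith
  · rw [Complex.norm_real, Real.norm_eq_abs, Mq, abs_of_nonneg (norm_nonneg _)]
    exact (pi_norm_le_iff_of_nonneg zero_le_one).2 fun g => norm_av_le hT (fun _ => hb _) _
  · rw [← Complex.ofReal_sub, Complex.norm_real, Real.norm_eq_abs, abs_le]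
    have a1 := Mq_lip (φ := φ) (α := α) (κ := κ) (G := G) hT hh hb q y s s'
    have a2 := Mq_lip (φ := φ) (α := α) (κ := κ) (G := G) hT hh hb q y s' s
    rw [abs_sub_comm] at a2
    constructor <;> linarith
  · refine le_trans (Finset.single_le_sum (f := fun n : ℤ =>
      ‖av L (fun u => (Mq φ h T α κ G q (φ u y) : ℂ)) (n / L)‖) (fun _ _ => norm_nonneg _) ?_) hs.le
    rw [Finset.mem_erase, Finset.mem_Ioo, ← abs_lt]
    exact ⟨hn, hnK⟩

end

theorem wm [T2Space Z] (φ : Flow ℝ Z) {ε δ α β : ℝ} (hε : 0 < ε) (hδ : 0 < δ) (hα : 0 < α)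
    (T0 : ℝ) : ∃ T C : ℝ, T0 ≤ T ∧ 0 < T ∧ ∀ h : Z → ℂ, Continuous h → (∀ y, ‖h y‖ ≤ 1) →
      ∀ L, 0 < L → Cov φ L (δ * L + C) (Per φ L \ Good φ h T α β ε) := by
  obtain ⟨N, hN⟩ : ∃ N : ℕ, 256 / ε ^ 2 < N := exists_nat_gt _
  have hN0 : (0 : ℝ) < N := lt_trans (by positivity) hN
  obtain ⟨κ, hκ, hκα, hκδ⟩ : ∃ κ : ℝ, 0 < κ ∧ κ < α ∧ N * (3 * κ) ≤ δ / 2 := by
    refine ⟨min (α / 2) (δ / (6 * N)), by positivity, (min_le_left _ _).trans_lt (by linarith), ?_⟩
    calc N * (3 * min (α / 2) (δ / (6 * N))) ≤ N * (3 * (δ / (6 * N))) := by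
          gcongr; exact min_le_right _ _
      _ = δ / 2 := by field_simp; ring
  obtain ⟨Q, hQ⟩ : ∃ Q : ℕ, max 0 ((β - α) / κ) < Q := exists_nat_gt _
  have hQ0 : (0 : ℝ) < Q := (le_max_left _ _).trans_lt hQ
  set δ' := δ / (4 * Q) with hδ'
  have hδ0 : 0 < δ' := by positivity
  set R := 16 * π / (δ' * ε) with hR
  have hR0 : 0 < R := by positivity
  set x0 := max 1 (64 * (4 / ε + 2) / ε ^ 2) with hx0
  set T := max (max T0 (Q / (π * κ))) (max (32 * R / ε) (x0 / (π * κ))) with hT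
  have t1 : T0 ≤ T := (le_max_left _ _).trans (le_max_left _ _)
  have t2 : Q ≤ π * κ * T := by
    rw [← div_le_iff₀' (by positivity)]; exact (le_max_right _ _).trans (le_max_left _ _)
  have t3 : 32 * R / ε ≤ T := (le_max_left _ _).trans (le_max_right _ _)
  have t4 : x0 ≤ π * κ * T := by
    rw [← div_le_iff₀' (by positivity)]; exact (le_max_right _ _).trans (le_max_right _ _)
  have hT0 : 0 < T := lt_of_lt_of_le (by positivity) t3
  set G := ⌈4 * π * T * κ / ε⌉₊ with hG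
  have g1 : 4 * π * T * κ / ε ≤ G := Nat.le_ceil _
  have g0 : 0 < G := Nat.ceil_pos.2 (by positivity)
  have g0' : (0 : ℝ) < G := by exact_mod_cast g0
  have g2 : G * (1 / (π * T * κ)) ^ 2 ≤ ε ^ 2 / 64 := by
    have a1 : (G : ℝ) ≤ 4 * π * T * κ / ε + 1 := (Nat.ceil_lt_add_one (by positivity)).le
    have a2 : 1 ≤ π * T * κ := by linarith [le_max_left 1 (64 * (4 / ε + 2) / ε ^ 2)]
    have a3 : 64 * (4 / ε + 2) / ε ^ 2 ≤ π * T * κ := by
      linarith [le_max_right 1 (64 * (4 / ε + 2) / ε ^ 2)]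
    set x := π * T * κ
    have a4 : (G : ℝ) ≤ (4 / ε + 2) * x := by
      have : 4 * π * T * κ / ε = 4 / ε * x := by simp only [x]; ring
      linarith
    rw [div_le_iff₀ (by positivity)] at a3
    calc G * (1 / x) ^ 2 ≤ (4 / ε + 2) * x * (1 / x) ^ 2 := by gcongr
      _ = (4 / ε + 2) / x := by field_simp
      _ ≤ _ := by rw [div_le_div_iff₀ (by positivity) (by positivity)]; linarith
  refine ⟨T, 2 * Q + 2 * N, t1, hT0, fun h hh hb L hL => ?_⟩
  set K := ⌈δ' * L⌉₊ with hK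
  have k0 : 0 < K := Nat.ceil_pos.2 (by positivity)
  have k0' : (0 : ℝ) < K := by exact_mod_cast k0
  have k1 : δ' * L ≤ K := Nat.le_ceil _
  have k2 : (K : ℝ) ≤ δ' * L + 1 := (Nat.ceil_lt_add_one (by positivity)).le
  have c1 := Cov.biUnion (Finset.range Q) _ _ fun q _ => cov_coef (φ := φ) (η := ε / (16 * K))
    hL.ne' (by positivity) (f := fun z => (Mq φ h T α κ G q z : ℂ))
    (Complex.continuous_ofReal.comp (continuous_Mq hh q)) ((Finset.Ioo (-K : ℤ) K).erase 0)
    (Finset.notMem_erase _ _)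
  have hd : 0 < ε / (8 * N) := by positivity
  have c2 := Cov.biUnion (Finset.range N) _ _ fun r _ => cov_stratum (φ := φ) hT0 hκ hκα hL hε g0
    g2 hh hb Q (a := ε / 8 + (r : ℕ) * (ε / (8 * N))) (b := ε / 8 + (r + 1) * (ε / (8 * N)))
    (le_add_of_nonneg_right (by positivity)) (by linarith)
  refine (c1.union c2).mono ?_ ?_
  · simp only [Finset.sum_const, Finset.card_range, nsmul_eq_mul]
    have a1 : (((Finset.Ioo (-K : ℤ) K).erase 0).card : ℝ) ≤ 2 * K := by
      have := (Finset.card_erase_le (s := Finset.Ioo (-K : ℤ) K) (a := 0))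
      rw [Int.card_Ioo] at this
      exact_mod_cast this.trans (by omega)
    have a2 : Q * (2 * (δ' * L + 1)) = δ / 2 * L + 2 * Q := by rw [hδ']; field_simp; ring
    have a3 : Q * (((Finset.Ioo (-K : ℤ) K).erase 0).card : ℝ) ≤ Q * (2 * (δ' * L + 1)) := by
      gcongr; linarith
    have a4 := mul_le_mul_of_nonneg_right hκδ hL.le
    nlinarith
  · rintro y ⟨hy, hy'⟩
    simp only [Good, mem_ofPred_eq, not_forall, not_le] at hy'
    obtain ⟨t, ξ, x1, x2, hξ⟩ := hy'
    set q := ⌊(ξ - α) / κ⌋₊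
    have q1 : q * κ ≤ ξ - α := (le_div_iff₀ hκ).1 (Nat.floor_le (div_nonneg (by linarith) hκ.le))
    have q2 : ξ - α < (q + 1) * κ := (div_lt_iff₀ hκ).1 (Nat.lt_floor_add_one _)
    have q3 : q < Q := by
      have : (q : ℝ) ≤ (β - α) / κ := by rw [le_div_iff₀ hκ]; linarith
      exact_mod_cast (this.trans (le_max_right _ _)).trans_lt hQ
    have hp : 0 < κ / G := by positivity
    set g := ⌊(ξ - α - q * κ) / (κ / G)⌋₊
    have r1 : g * (κ / G) ≤ ξ - α - q * κ :=
      (le_div_iff₀ hp).1 (Nat.floor_le (div_nonneg (by linarith) hp.le))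
    have r2 : ξ - α - q * κ < (g + 1) * (κ / G) := (div_lt_iff₀ hp).1 (Nat.lt_floor_add_one _)
    have r3 : g < G := by
      have a1 : g * (κ / G) < G * (κ / G) := by rw [mul_div_cancel₀ _ g0'.ne']; linarith
      exact_mod_cast lt_of_mul_lt_mul_right a1 hp.le
    have hM : ε / 2 < Mq φ h T α κ G q (φ t y) := by
      have a1 := av_lip_freq hT0 (f := fun u => h (φ u (φ t y))) (by fun_prop) (fun _ => hb _) ξ
        (α + q * κ + g * κ / G)
      have a2 : |ξ - (α + q * κ + g * κ / G)| ≤ κ / G := by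
        rw [mul_div_assoc, abs_le]; constructor <;> linarith
      have a3 : 2 * π * T * (κ / G) ≤ ε / 2 := by
        rw [div_le_iff₀ hε] at g1
        rw [← mul_div_assoc, div_le_iff₀ g0']; linarith
      have a4 : 2 * π * T * |ξ - (α + q * κ + g * κ / G)| ≤ 2 * π * T * (κ / G) := by gcongr
      have a5 := norm_le_pi_norm (fun g : Fin G => av T (fun u => h (φ u (φ t y)))
        (α + q * κ + (g : ℕ) * κ / G)) ⟨g, r3⟩
      have a6 := norm_sub_norm_le (av T (fun u => h (φ u (φ t y))) ξ)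
        (av T (fun u => h (φ u (φ t y))) (α + q * κ + g * κ / G))
      simp only at a5
      unfold Mq
      linarith
    by_cases hs : ∑ n ∈ (Finset.Ioo (-K : ℤ) K).erase 0,
      ‖av L (fun u => (Mq φ h T α κ G q (φ u y) : ℂ)) (n / L)‖ < ε / (16 * K)
    swap
    · exact Or.inl (mem_biUnion (Finset.mem_range.2 q3) ⟨hy, not_lt.1 hs⟩)
    have hm := mq_large hT0 hL hε hR0 k0 ?_ ?_ hh hb hy hM hs
    · right
      by_contra hc
      obtain ⟨c, hc1, hc2⟩ := gap (fun q => q < Q) (fun q => mq φ h T α κ G L q y) (ε / 8) hd N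
        fun r hr => by
          by_contra hn
          push Not at hn
          refine hc (mem_biUnion (Finset.mem_range.2 hr) ⟨hy, fun q' hq' => ?_, q, q3, ?_⟩)
          · exact (le_or_gt _ _).imp_right (hn q' hq')
          · have : (r : ℝ) + 1 ≤ N := by exact_mod_cast hr
            calc _ ≤ ε / 8 + N * (ε / (8 * N)) := by gcongr
              _ = ε / 4 := by field_simp; ring
              _ ≤ _ := hm
      have hci : Function.Injective c := Function.Injective.of_comp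
        (f := fun q => mq φ h T α κ G L q y) hc2
      have := mq_count (α := α) hT0 hκ hL hε g0 t2 hh hb y (Finset.univ.image c)
        (fun q hq => by
          obtain ⟨r, -, rfl⟩ := Finset.mem_image.1 hq
          exact Finset.mem_range.2 (hc1 r).1)
        (fun q hq => by
          obtain ⟨r, -, rfl⟩ := Finset.mem_image.1 hq
          exact (hc1 r).2.1)
      rw [Finset.card_image_of_injective _ hci, Finset.card_univ, Fintype.card_fin] at this
      linarith
    · rw [div_le_iff₀ hε] at t3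
      rw [div_mul_eq_mul_div, div_le_iff₀ hT0]; linarith
    · calc π * L / (K * R) ≤ π * L / (δ' * L * R) := by gcongr
        _ = ε / 16 := by rw [hR]; field_simp

end Pool.Agent.MP_4a8842_an

end MrgPart3

-- ======== part 4: formerly Pool.Agent.MP_4a8842_an.Pass
section MrgPart4

/-! A phase function built from separated passes of an orbit through a thin set. -/

open Set MeasureTheory intervalIntegral Real Topology

namespace Pool.Agent.MP_4a8842_an

lemma int_eq_of_supp {p : ℝ → ℝ} {c d c' d' : ℝ} (h : c ≤ d) (h' : c' ≤ d')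
    (hs : ∀ u, p u ≠ 0 → (u ∈ Icc c d ↔ u ∈ Icc c' d')) :
    ∫ u in c..d, p u = ∫ u in c'..d', p u := by
  rw [integral_of_le h, integral_of_le h', ← integral_Icc_eq_integral_Ioc,
    ← integral_Icc_eq_integral_Ioc, ← MeasureTheory.integral_indicator measurableSet_Icc,
    ← MeasureTheory.integral_indicator measurableSet_Icc]
  congr 1
  ext u
  by_cases hu : p u = 0
  · simp [indicator, hu]
  · by_cases h1 : u ∈ Icc c d
    · rw [indicator_of_mem h1, indicator_of_mem ((hs u hu).1 h1)]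
    · rw [indicator_of_notMem h1, indicator_of_notMem fun h => h1 ((hs u hu).2 h)]

/-- selection weight -/
noncomputable def gsel (a b w : ℝ) : ℝ := max 0 (min 1 ((w - a) / (b - a))) / max w a

lemma continuous_gsel {a b : ℝ} (ha : 0 < a) : Continuous (gsel a b) :=
  Continuous.div (by fun_prop) (by fun_prop) fun _ => (lt_max_of_lt_right ha).ne'

lemma gsel_nonneg {a b : ℝ} (ha : 0 < a) (w : ℝ) : 0 ≤ gsel a b w :=
  div_nonneg (le_max_left _ _) (lt_max_of_lt_right ha).le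

lemma gsel_low {a b w : ℝ} (hab : a < b) (hw : w ≤ a) : gsel a b w = 0 := by
  have : (w - a) / (b - a) ≤ 0 := div_nonpos_of_nonpos_of_nonneg (by linarith) (by linarith)
  rw [gsel, max_eq_left ((min_le_right _ _).trans this), zero_div]

lemma gsel_high {a b w : ℝ} (hab : a < b) (hw : b ≤ w) : gsel a b w = 1 / w := by
  have : 1 ≤ (w - a) / (b - a) := by rw [le_div_iff₀ (by linarith)]; linarith
  rw [gsel, min_eq_left this, max_eq_right zero_le_one, max_eq_left (by linarith)]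

section Line

variable {p : ℝ → ℝ} {D : Set ℝ} {σ a b : ℝ}

lemma w_const (hσ : 0 < σ) (hD : ∀ t, p t ≠ 0 → t ∈ D)
    (hsep : ∀ s ∈ D, ∀ t ∈ D, |s - t| ≤ 7 * σ → |s - t| ≤ 2 * σ) {s t : ℝ} (hs : s ∈ D)
    (ht : t ∈ D) (hst : |s - t| ≤ 2 * σ) :
    ∫ u in (-(5 * σ) + s)..(5 * σ + s), p u = ∫ u in (-(5 * σ) + t)..(5 * σ + t), p u := by
  refine int_eq_of_supp (by linarith) (by linarith) fun u hu => ?_
  have h1 := hsep u (hD u hu) s hs
  have h2 := hsep u (hD u hu) t ht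
  simp only [abs_le, mem_Icc] at *
  constructor
  · intro h
    have := h1 ⟨by linarith, by linarith⟩
    constructor <;> linarith
  · intro h
    have := h2 ⟨by linarith, by linarith⟩
    constructor <;> linarith

lemma clear_or (hσ : 0 < σ) (hsep : ∀ s ∈ D, ∀ t ∈ D, |s - t| ≤ 7 * σ → |s - t| ≤ 2 * σ) (c : ℝ) :
    (∀ u ∈ Icc 0 (2 * σ), u + c ∉ D) ∨ ∀ u ∈ Icc 0 (2 * σ), u + (5 * σ + c) ∉ D := by
  by_contra h
  push Not at h
  obtain ⟨⟨u, hu, h1⟩, v, hv, h2⟩ := h
  have := hsep _ h2 _ h1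
  simp only [abs_le, mem_Icc] at *
  have := this ⟨by linarith, by linarith⟩
  linarith

lemma step_int (hσ : 0 < σ) (ha : 0 < a) (hab : a < b) (h0 : ∀ t, 0 ≤ p t)
    (hD : ∀ t, p t ≠ 0 → t ∈ D) (hsep : ∀ s ∈ D, ∀ t ∈ D, |s - t| ≤ 7 * σ → |s - t| ≤ 2 * σ)
    (hgap : ∀ t, 0 < p t → ∫ u in (-(5 * σ) + t)..(5 * σ + t), p u ≤ a ∨
      b ≤ ∫ u in (-(5 * σ) + t)..(5 * σ + t), p u) {c c' : ℝ}
    (hc : ∀ u ∈ Icc 0 (2 * σ), u + c ∉ D) (hc' : ∀ u ∈ Icc 0 (2 * σ), u + c' ∉ D) (h1 : c ≤ c')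
    (h2 : c' ≤ c + 7 * σ) : ∃ n : ℤ,
      ∫ t in c..c', p t * gsel a b (∫ u in (-(5 * σ) + t)..(5 * σ + t), p u) = n := by
  by_cases h : ∀ t ∈ Icc c c', p t * gsel a b (∫ u in (-(5 * σ) + t)..(5 * σ + t), p u) = 0
  · refine ⟨0, ?_⟩
    rw [integral_congr (g := fun _ => 0) fun t ht => h t (by rwa [uIcc_of_le h1] at ht)]
    simp
  push Not at h
  obtain ⟨t0, ht0, hne⟩ := h
  have hp0 : p t0 ≠ 0 := left_ne_zero_of_mul hne
  have hb : b ≤ ∫ u in (-(5 * σ) + t0)..(5 * σ + t0), p u :=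
    (hgap t0 ((h0 t0).lt_of_ne' hp0)).resolve_left fun hl =>
      right_ne_zero_of_mul hne (gsel_low hab hl)
  have e1 : ∫ u in c..c', p u = ∫ u in (-(5 * σ) + t0)..(5 * σ + t0), p u := by
    refine int_eq_of_supp h1 (by linarith) fun u hu => ?_
    have a1 := hsep u (hD u hu) t0 (hD t0 hp0)
    have a2 := hc (t0 - c)
    have a3 := hc' (u - c')
    rw [sub_add_cancel] at a2 a3
    simp only [abs_le, mem_Icc] at *
    constructor
    · intro h
      have := a1 ⟨by linarith, by linarith⟩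
      constructor <;> linarith
    · intro h
      have := a1 ⟨by linarith, by linarith⟩
      constructor
      · by_contra hlt
        exact a2 ⟨by linarith, by linarith⟩ (hD t0 hp0)
      · by_contra hlt
        exact a3 ⟨by linarith, by linarith⟩ (hD u hu)
  refine ⟨1, ?_⟩
  rw [integral_congr (g := fun t => p t * (1 / ∫ u in (-(5 * σ) + t0)..(5 * σ + t0), p u)),
    intervalIntegral.integral_mul_const, e1, mul_one_div_cancel (by linarith), Int.cast_one]
  intro t ht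
  rw [uIcc_of_le h1] at ht
  by_cases hp : p t = 0
  · simp [hp]
  · have := hsep t (hD t hp) t0 (hD t0 hp0)
      (abs_le.2 ⟨by linarith [ht.1, ht0.2], by linarith [ht.2, ht0.1]⟩)
    simp only
    rw [w_const hσ hD hsep (hD t hp) (hD t0 hp0) this, gsel_high hab hb]

lemma clear_int {r : ℝ → ℝ} (hσ : 0 < σ) (hr : Continuous r)
    (hsep : ∀ s ∈ D, ∀ t ∈ D, |s - t| ≤ 7 * σ → |s - t| ≤ 2 * σ)
    (hstep : ∀ c c', (∀ u ∈ Icc 0 (2 * σ), u + c ∉ D) → (∀ u ∈ Icc 0 (2 * σ), u + c' ∉ D) →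
      c ≤ c' → c' ≤ c + 7 * σ → ∃ n : ℤ, ∫ t in c..c', r t = n) {c c' : ℝ}
    (hc : ∀ u ∈ Icc 0 (2 * σ), u + c ∉ D) (hc' : ∀ u ∈ Icc 0 (2 * σ), u + c' ∉ D) :
    ∃ n : ℤ, ∫ t in c..c', r t = n := by
  have key : ∀ k : ℕ, ∀ c c', (∀ u ∈ Icc 0 (2 * σ), u + c ∉ D) →
      (∀ u ∈ Icc 0 (2 * σ), u + c' ∉ D) → c ≤ c' → c' ≤ c + k * σ →
      ∃ n : ℤ, ∫ t in c..c', r t = n := by
    intro k
    induction k with
    | zero => exact fun c c' h h' h1 h2 => hstep c c' h h' h1 (by simp at h2; linarith)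
    | succ k ih =>
      intro c c' h h' h1 h2
      by_cases h7 : c' ≤ c + 7 * σ
      · exact hstep c c' h h' h1 h7
      push_cast at h2
      obtain ⟨c1, a1, a2, a3⟩ : ∃ c1, (∀ u ∈ Icc 0 (2 * σ), u + c1 ∉ D) ∧ c + σ ≤ c1 ∧
          c1 ≤ c + 6 * σ := by
        rcases clear_or hσ hsep (c + σ) with h3 | h3
        exacts [⟨_, h3, le_rfl, by linarith⟩, ⟨_, h3, by linarith, by linarith⟩]
      obtain ⟨n, hn⟩ := hstep c c1 h a1 (by linarith) (by linarith)
      obtain ⟨m, hm⟩ := ih c1 c' a1 h' (by linarith) (by linarith)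
      refine ⟨n + m, ?_⟩
      rw [← integral_add_adjacent_intervals (hr.intervalIntegrable c c1)
        (hr.intervalIntegrable c1 c'), hn, hm, Int.cast_add]
  have key2 : ∀ c c', (∀ u ∈ Icc 0 (2 * σ), u + c ∉ D) → (∀ u ∈ Icc 0 (2 * σ), u + c' ∉ D) →
      c ≤ c' → ∃ n : ℤ, ∫ t in c..c', r t = n := fun c c' h h' h1 =>
    key ⌈(c' - c) / σ⌉₊ c c' h h' h1 (by
      have := Nat.le_ceil ((c' - c) / σ)
      rw [div_le_iff₀ hσ] at this; linarith)
  rcases le_total c c' with h | h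
  · exact key2 c c' hc hc' h
  · obtain ⟨n, hn⟩ := key2 c' c hc' hc h
    exact ⟨-n, by rw [integral_symm, hn, Int.cast_neg]⟩

lemma phase_indep {r : ℝ → ℝ} {L : ℝ} (hL : L ≠ 0) (hr : Continuous r)
    (hp : Function.Periodic r L) {c c' : ℝ} {n : ℤ} (hn : ∫ t in c..c', r t = n) :
    ee (L⁻¹ * ∫ t in c'..c' + L, t * r t) = ee (L⁻¹ * ∫ t in c..c + L, t * r t) := by
  have hi : ∀ a b, IntervalIntegrable (fun t => t * r t) volume a b := fun a b =>
    Continuous.intervalIntegrable (by fun_prop) _ _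
  have h1 := integral_interval_sub_interval_comm' (hi c' (c' + L)) (hi c (c + L)) (hi c' c)
  have h2 := integral_comp_add_right (a := c) (b := c') (fun t => t * r t) L
  simp only [hp _, add_mul] at h2
  rw [intervalIntegral.integral_add (hi _ _) (Continuous.intervalIntegrable (by fun_prop) _ _),
    intervalIntegral.integral_const_mul, hn] at h2
  have : L⁻¹ * ∫ t in c'..c' + L, t * r t = L⁻¹ * (∫ t in c..c + L, t * r t) + n := by
    have e : (n : ℝ) = L⁻¹ * (L * n) := by field_simp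
    rw [e, ← mul_add]; congr 1; linarith
  rw [this, ee_add, ee_int, mul_one]

end Line

variable {Z : Type*} [TopologicalSpace Z]

/-- mass of ψ along a window of the orbit -/
noncomputable def mass (φ : Flow ℝ Z) (ψ : Z → ℝ) (σ : ℝ) (y : Z) : ℝ :=
  ∫ u in (-(5 * σ))..(5 * σ), ψ (φ u y)

lemma continuous_mass (φ : Flow ℝ Z) {ψ : Z → ℝ} (hψ : Continuous ψ) (σ : ℝ) :
    Continuous (mass φ ψ σ) :=
  continuous_parametric_intervalIntegral_of_continuous' (f := fun y u => ψ (φ u y))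
    (hψ.comp (φ.continuous continuous_snd continuous_fst)) _ _

lemma mass_flow (φ : Flow ℝ Z) (ψ : Z → ℝ) (σ t : ℝ) (y : Z) :
    mass φ ψ σ (φ t y) = ∫ u in (-(5 * σ) + t)..(5 * σ + t), ψ (φ u y) := by
  rw [← integral_comp_add_right (fun u => ψ (φ u y))]
  simp only [φ.map_add, mass]

theorem cov_pass [T2Space Z] (φ : Flow ℝ Z) {ψ : Z → ℝ} (hψ : Continuous ψ) (h0 : ∀ y, 0 ≤ ψ y)
    {T : Set Z} (hT : IsClosed T) (hsupp : ∀ y, ψ y ≠ 0 → y ∈ T) {σ a b L : ℝ} (hσ : 0 < σ)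
    (hsep : ∀ y ∈ T, ∀ t, φ t y ∈ T → |t| ≤ 7 * σ → |t| ≤ 2 * σ) (ha : 0 < a) (hab : a < b)
    (hL : 0 < L) : Cov φ L 1 {y | y ∈ Per φ L ∧
      (∀ t, 0 < ψ (φ t y) → mass φ ψ σ (φ t y) ≤ a ∨ b ≤ mass φ ψ σ (φ t y)) ∧
      ∃ t, 0 < ψ (φ t y) ∧ b ≤ mass φ ψ σ (φ t y)} := by
  classical
  have hW := continuous_mass φ hψ σ
  let ρ : Z → ℝ := fun y => ψ y * gsel a b (mass φ ψ σ y)
  have hρ : Continuous ρ := hψ.mul ((continuous_gsel ha).comp hW)
  have hρ0 : ∀ y, 0 ≤ ρ y := fun y => mul_nonneg (h0 y) (gsel_nonneg ha _)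
  let N : Z → ℝ := fun y => ∫ t in (0 : ℝ)..L, ρ (φ t y)
  have hN : Continuous N :=
    continuous_parametric_intervalIntegral_of_continuous' (f := fun y t => ρ (φ t y))
      (hρ.comp (φ.continuous continuous_snd continuous_fst)) _ _
  let th : ℝ → Z → ℂ := fun c y => ee (L⁻¹ * ∫ t in c..c + L, t * ρ (φ t y))
  have hth : ∀ c, Continuous (th c) := fun c => continuous_ee.comp (continuous_const.mul
    (continuous_parametric_intervalIntegral_of_continuous' (f := fun y t => t * ρ (φ t y))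
      (continuous_snd.mul (hρ.comp (φ.continuous continuous_snd continuous_fst))) _ _))
  let Γ : Set Z := {y | y ∈ Per φ L ∧
    ∀ t, 0 < ψ (φ t y) → mass φ ψ σ (φ t y) ≤ a ∨ b ≤ mass φ ψ σ (φ t y)}
  let Cl : ℝ → Z → Prop := fun c y => ∀ u ∈ Icc 0 (2 * σ), u + c ∉ {t | φ t y ∈ T}
  have hsep' : ∀ y, ∀ s ∈ {t | φ t y ∈ T}, ∀ t ∈ {t | φ t y ∈ T},
      |s - t| ≤ 7 * σ → |s - t| ≤ 2 * σ := fun y s hs t ht =>
    hsep _ ht _ (by rw [← φ.map_add, sub_add_cancel]; exact hs)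
  have hint : ∀ y ∈ Γ, ∀ c c', Cl c y → Cl c' y → ∃ n : ℤ, ∫ t in c..c', ρ (φ t y) = n := by
    intro y hy c c' hc hc'
    refine clear_int hσ (by fun_prop) (hsep' y) (fun c c' h h' h1 h2 => ?_) hc hc'
    simp only [ρ, mass_flow]
    exact step_int hσ ha hab (fun _ => h0 _) (fun t ht => hsupp _ ht) (hsep' y)
      (fun t ht => by simpa only [mass_flow] using hy.2 t ht) h h' h1 h2
  have hor : ∀ y, Cl 0 y ∨ Cl (5 * σ) y := fun y => by
    simpa only [add_zero, Cl] using clear_or hσ (hsep' y) 0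
  have hopen : ∀ c, IsOpen {y | Cl c y} := by
    intro c
    have : {y | Cl c y} = (Prod.snd '' {q : Icc (0 : ℝ) (2 * σ) × Z | φ (q.1 + c) q.2 ∈ T})ᶜ := by
      ext y; simp [Cl]
    rw [this, isOpen_compl_iff]
    exact isClosedMap_snd_of_compactSpace _ (hT.preimage (by fun_prop))
  let θ : Z → ℂ := fun y => if Cl 0 y then th 0 y else th (5 * σ) y
  have hθ : ∀ y ∈ Γ, ∀ c, Cl c y → θ y = th c y := by
    intro y hy c hc
    by_cases h : Cl 0 y
    · obtain ⟨n, hn⟩ := hint y hy c 0 hc h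
      simp only [θ, h, if_true]
      exact phase_indep hL.ne' (by fun_prop) (per_periodic hy.1 ρ) hn
    · obtain ⟨n, hn⟩ := hint y hy c _ hc ((hor y).resolve_left h)
      simp only [θ, h, if_false]
      exact phase_indep hL.ne' (by fun_prop) (per_periodic hy.1 ρ) hn
  have hex : ∀ y, ∃ c, Cl c y := fun y => (hor y).elim (fun h => ⟨_, h⟩) fun h => ⟨_, h⟩
  have hNc : ∀ y ∈ Per φ L, ∀ c, N y = ∫ t in c..c + L, ρ (φ t y) := fun y hy c => by
    rw [(per_periodic hy ρ).intervalIntegral_add_eq c 0, zero_add]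
  have hNint : ∀ y ∈ Γ, ∃ n : ℤ, N y = n := by
    intro y hy
    obtain ⟨c, hc⟩ := hex y
    rw [hNc y hy.1 c]
    refine hint y hy c _ hc fun u hu => ?_
    have := per_periodic hy.1 id (u + c)
    simp only [id] at this
    simpa only [mem_ofPred_eq, ← add_assoc, this] using hc u hu
  have hNi : ∀ y ∈ Per φ L, ∀ s, N (φ s y) = N y := fun y hy s => by
    rw [hNc y hy s, add_comm s L]
    have := integral_comp_add_right (a := 0) (b := L) (fun t => ρ (φ t y)) s
    rw [zero_add] at this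
    simp only [← this, φ.map_add, N]
  have hΓi : ∀ y ∈ Γ, ∀ s, φ s y ∈ Γ := fun y hy s =>
    ⟨per_inv hy.1 s, fun t => by simpa only [φ.map_add] using hy.2 (t + s)⟩
  refine (IsPhase.cov (A := Γ ∩ {y | 1 / 2 ≤ N y}) ⟨IsClosed.inter ?_
    (isClosed_le continuous_const hN), θ, fun y => -N y, ?_, hN.neg.continuousOn, ?_⟩).mono
    le_rfl ?_
  · refine (isClosed_Per L).inter ?_
    change IsClosed {y | ∀ t, 0 < ψ (φ t y) → mass φ ψ σ (φ t y) ≤ a ∨ b ≤ mass φ ψ σ (φ t y)}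
    simp only [ofPred_forall, imp_iff_not_or, not_lt]
    have c1 := fun t => hψ.comp (φ.continuous_toFun t)
    have c2 := fun t => hW.comp (φ.continuous_toFun t)
    exact isClosed_iInter fun t => (isClosed_le (c1 t) continuous_const).union
      ((isClosed_le (c2 t) continuous_const).union (isClosed_le continuous_const (c2 t)))
  · intro y hy
    obtain ⟨c, hc⟩ := hex y
    refine (hth c).continuousWithinAt.congr_of_eventuallyEq ?_ (hθ y hy.1 c hc)
    filter_upwards [self_mem_nhdsWithin, nhdsWithin_le_nhds ((hopen c).mem_nhds hc)] with z hz hz'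
    exact hθ z hz.1 c hz'
  · rintro y ⟨hy, hy2⟩
    obtain ⟨c, hc⟩ := hex y
    refine ⟨by rw [hθ y hy c hc]; exact ee_ne_zero _, ?_, fun s => ⟨⟨hΓi y hy s, ?_⟩, ?_, ?_⟩⟩
    · obtain ⟨n, hn⟩ := hNint y hy
      refine ⟨-n, neg_ne_zero.2 fun h => ?_, by simp [hn]⟩
      rw [mem_ofPred_eq, hn, h] at hy2
      norm_num at hy2
    · rwa [mem_ofPred_eq, hNi y hy.1]
    · simp only [hNi y hy.1]
    · rw [hθ y hy c hc, hθ _ (hΓi y hy s) (c - s) fun u hu => by
        simpa only [mem_ofPred_eq, ← φ.map_add, add_assoc, sub_add_cancel] using hc u hu]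
      simp only [th]
      rw [← ee_add]
      congr 1
      have := integral_comp_add_right (a := c - s) (b := c - s + L)
        (fun t => (t - s) * ρ (φ t y)) s
      simp only [add_sub_cancel_right, φ.map_add, sub_add_cancel] at this
      rw [this, show c - s + L + s = c + L by ring]
      simp only [sub_mul]
      rw [intervalIntegral.integral_sub (Continuous.intervalIntegrable (by fun_prop) _ _)
        (Continuous.intervalIntegrable (by fun_prop) _ _), intervalIntegral.integral_const_mul,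
        ← hNc y hy.1 c]
      ring
  · rintro y ⟨hy, hy2, t, ht, htb⟩
    refine ⟨⟨hy, hy2⟩, ?_⟩
    obtain ⟨n, hn⟩ := hNint y ⟨hy, hy2⟩
    have hpos : 0 < N y := by
      rw [hNc y hy t]
      refine intervalIntegral.integral_pos (by linarith) (by fun_prop) (fun _ _ => hρ0 _)
        ⟨t, ⟨le_rfl, by linarith⟩, mul_pos ht ?_⟩
      rw [gsel_high hab htb]
      exact one_div_pos.2 (by linarith)
    rw [hn] at hpos
    have : (1 : ℝ) ≤ n := by exact_mod_cast (by exact_mod_cast hpos : 0 < n)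
    rw [mem_ofPred_eq, hn]; linarith

end Pool.Agent.MP_4a8842_an

end MrgPart4

-- ======== part 5: formerly Pool.Agent.MP_4a8842_an.NoCov
section MrgPart5

/-! A sphere with a periodic linear flow is not covered by few phase sets. -/

open Set Topology Metric

namespace Pool.Agent.MP_4a8842_an

section Lab

variable {Y : Type*}

/-- points of B whose phase lies in a prescribed short arc -/
def lab (B : Set Y) (θ : Y → ℂ) (ν : Y → ℝ) (p : ℕ) (j : ℕ) (m : ℤ) : Set Y :=
  {y | y ∈ B ∧ ∃ r ∈ Icc ((j : ℝ) / (2 * p)) ((j + 1) / (2 * p)),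
    θ y = ‖θ y‖ * ee (r + m * ν y / p)}

lemma isClosed_lab [TopologicalSpace Y] {B : Set Y} {θ : Y → ℂ} {ν : Y → ℝ} (hB : IsClosed B)
    (hθ : ContinuousOn θ B) (hν : ContinuousOn ν B) (h0 : ∀ y ∈ B, θ y ≠ 0) (p j : ℕ) (m : ℤ) :
    IsClosed (lab B θ ν p j m) := by
  have hK : IsClosed (ee '' Icc ((j : ℝ) / (2 * p)) ((j + 1) / (2 * p))) :=
    (isCompact_Icc.image continuous_ee).isClosed
  have hc : ContinuousOn (fun y => θ y / (‖θ y‖ : ℂ) * ee (-(m * ν y / p))) B := by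
    refine ContinuousOn.mul (hθ.div (Complex.continuous_ofReal.comp_continuousOn hθ.norm)
      fun y hy => by simpa using h0 y hy) (continuous_ee.comp_continuousOn ?_)
    exact ((continuousOn_const.mul hν).div_const _).neg
  convert hc.preimage_isClosed_of_isClosed hB hK using 1
  ext y
  simp only [lab, mem_ofPred_eq, mem_inter_iff, mem_preimage, mem_image]
  refine and_congr_right fun hy => exists_congr fun r => and_congr_right fun _ => ?_
  have hn : (‖θ y‖ : ℂ) ≠ 0 := by simpa using h0 y hy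
  have h1 := ee_neg_mul (m * ν y / p)
  have h2 := ee_ne_zero (m * ν y / p)
  rw [ee_add]
  constructor
  · intro h
    rw [div_mul_eq_mul_div, eq_div_iff hn]
    calc ee r * ‖θ y‖ = (‖θ y‖ * (ee r * ee (m * ν y / p))) * ee (-(m * ν y / p)) := by
          linear_combination (-(ee r * ‖θ y‖)) * h1
      _ = _ := by rw [← h]
  · intro h
    rw [h]
    field_simp
    linear_combination (-θ y) * h1

lemma lab_congr {B : Set Y} {θ : Y → ℂ} {ν : Y → ℝ} (hint : ∀ y ∈ B, ∃ n : ℤ, n ≠ 0 ∧ ν y = n)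
    {p : ℕ} (hp : 0 < p) (j : ℕ) {m m' : ℤ} (h : (m : ZMod p) = m') :
    lab B θ ν p j m ⊆ lab B θ ν p j m' := by
  rintro y ⟨hy, r, hr, e⟩
  refine ⟨hy, r, hr, ?_⟩
  obtain ⟨n, -, hn⟩ := hint y hy
  obtain ⟨c, hc⟩ := (ZMod.intCast_eq_intCast_iff_dvd_sub m m' p).1 h
  have hp' : (p : ℝ) ≠ 0 := by positivity
  have hc' : (m' : ℝ) = m + p * c := by
    have : m' = m + p * c := by linarith
    exact_mod_cast this
  have : r + m' * ν y / p = (r + m * ν y / p) + ((c * n : ℤ) : ℝ) := by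
    rw [hc', hn]; push_cast; field_simp; ring
  rw [this, ee_add (r + _), ee_int, mul_one]
  exact e

lemma lab_disj {B : Set Y} {θ : Y → ℂ} {ν : Y → ℝ} (h0 : ∀ y ∈ B, θ y ≠ 0)
    (hint : ∀ y ∈ B, ∃ n : ℤ, n ≠ 0 ∧ ν y = n) {p : ℕ} (hp : p.Prime)
    (hb : ∀ y ∈ B, |ν y| < p) (j : ℕ) {m m' : ℤ} {y : Y} (h : y ∈ lab B θ ν p j m)
    (h' : y ∈ lab B θ ν p j m') : (m : ZMod p) = m' := by
  obtain ⟨hy, r, hr, e⟩ := h
  obtain ⟨-, r', hr', e'⟩ := h'
  obtain ⟨n, hn0, hn⟩ := hint y hy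
  have hnz : (‖θ y‖ : ℂ) ≠ 0 := by simpa using h0 y hy
  have e2 : ee (r + m * ν y / p) = ee (r' + m' * ν y / p) :=
    mul_left_cancel₀ hnz (e.symm.trans e')
  have e3 : ee ((r + m * ν y / p) - (r' + m' * ν y / p)) = 1 := by
    rw [sub_eq_add_neg, ee_add, e2, mul_comm, ee_neg_mul]
  obtain ⟨c, hc⟩ := ee_eq_one e3
  have hp0 : (0 : ℝ) < p := by exact_mod_cast hp.pos
  have h1 : p * (r - r') = ((p * c - (m - m') * n : ℤ) : ℝ) := by
    push_cast; rw [← hc, hn]; field_simp; ring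
  have h2 : |p * (r - r')| < 1 := by
    have a1 := hr.1; have a2 := hr.2; have a3 := hr'.1; have a4 := hr'.2
    rw [div_le_iff₀ (by positivity)] at a1 a3
    rw [le_div_iff₀ (by positivity)] at a2 a4
    rw [abs_lt]; constructor <;> nlinarith
  rw [h1] at h2
  have h3 : p * c - (m - m') * n = 0 := by
    have : |p * c - (m - m') * n| < 1 := by exact_mod_cast h2
    exact Int.abs_lt_one_iff.1 this
  have h4 : (p : ℤ) ∣ (m - m') * n := ⟨c, by linarith⟩
  rcases (Nat.prime_iff_prime_int.1 hp).dvd_or_dvd h4 with h5 | h5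
  · exact ((ZMod.intCast_eq_intCast_iff_dvd_sub m' m p).2 h5).symm
  · exfalso
    have h6 := Int.le_abs_of_dvd hn0 h5
    have h7 := hb y hy
    rw [hn] at h7
    have : |n| < (p : ℤ) := by exact_mod_cast h7
    omega

lemma lab_cover {B : Set Y} {θ : Y → ℂ} {ν : Y → ℝ}
    (hint : ∀ y ∈ B, ∃ n : ℤ, n ≠ 0 ∧ ν y = n) {p : ℕ} (hp : p.Prime)
    (hb : ∀ y ∈ B, |ν y| < p) {y : Y} (hy : y ∈ B) :
    ∃ (j : Fin 2) (m : ℤ), y ∈ lab B θ ν p j m := by
  obtain ⟨s, hs⟩ := exists_ee (θ y)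
  obtain ⟨n, hn0, hn⟩ := hint y hy
  have hp0 : (0 : ℝ) < p := by exact_mod_cast hp.pos
  have hcop : IsCoprime (p : ℤ) n := by
    refine (Nat.prime_iff_prime_int.1 hp).irreducible.coprime_iff_not_dvd.2 fun h5 => ?_
    have h6 := Int.le_abs_of_dvd hn0 h5
    have h7 := hb y hy
    rw [hn] at h7
    have : |n| < (p : ℤ) := by exact_mod_cast h7
    omega
  obtain ⟨a, b, hab⟩ := hcop
  set N := ⌊s * p⌋ with hN
  have f0 := Int.fract_nonneg (s * p)
  have f1 := Int.fract_lt_one (s * p)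
  have hf : s * p = N + Int.fract (s * p) := (Int.floor_add_fract _).symm
  have hab' : (a : ℝ) * p + b * n = 1 := by exact_mod_cast hab
  have key : θ y = ‖θ y‖ * ee (Int.fract (s * p) / p + ((N * b : ℤ) : ℝ) * ν y / p) := by
    have : s = (Int.fract (s * p) / p + ((N * b : ℤ) : ℝ) * ν y / p) + ((N * a : ℤ) : ℝ) := by
      rw [hn]; push_cast; field_simp
      linear_combination hf - N * hab'
    have e : ee s = ee (Int.fract (s * p) / p + ((N * b : ℤ) : ℝ) * ν y / p) := by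
      conv_lhs => rw [this, ee_add, ee_int, mul_one]
    rw [← e]; exact hs
  by_cases h : Int.fract (s * p) ≤ 1 / 2
  · refine ⟨0, N * b, hy, _, ⟨by simp; positivity, ?_⟩, key⟩
    rw [div_le_div_iff₀ hp0 (by positivity)]; simp; nlinarith
  · refine ⟨1, N * b, hy, _, ⟨?_, ?_⟩, key⟩
    · rw [div_le_div_iff₀ (by positivity) hp0]; simp; nlinarith
    · rw [div_le_div_iff₀ hp0 (by positivity)]; simp; nlinarith

lemma lab_shift [TopologicalSpace Y] {φ : Flow ℝ Y} {L : ℝ} (hL : L ≠ 0) {B : Set Y} {θ : Y → ℂ} {ν : Y → ℝ}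
    (h : ∀ y ∈ B, ∀ t, φ t y ∈ B ∧ ν (φ t y) = ν y ∧ θ (φ t y) = ee (ν y * t / L) * θ y)
    {p : ℕ} (j : ℕ) (m k : ℤ) {y : Y} (hy : y ∈ lab B θ ν p j m) :
    φ (k * (L / p)) y ∈ lab B θ ν p j (m + k) := by
  obtain ⟨hy, r, hr, e⟩ := hy
  obtain ⟨h1, h2, h3⟩ := h y hy (k * (L / p))
  refine ⟨h1, r, hr, ?_⟩
  rw [h2, h3, norm_mul, norm_ee, one_mul]
  have : r + ((m + k : ℤ) : ℝ) * ν y / p = ν y * (k * (L / p)) / L + (r + m * ν y / p) := by
    push_cast; field_simp; ring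
  rw [this, ee_add, mul_left_comm (‖θ y‖ : ℂ), ← e]

end Lab

theorem no_cov {V : Type*} [NormedAddCommGroup V] [NormedSpace ℝ V] [FiniteDimensional ℝ V]
    (φ : Flow ℝ (sphere (0 : V) 1)) (g : ℝ → V →L[ℝ] V) (hg : ∀ t x, (φ t x : V) = g t x)
    (hiso : ∀ t x, ‖g t x‖ = ‖x‖) (hadd : ∀ s t x, g (s + t) x = g s (g t x))
    (h0 : ∀ x, g 0 x = x) {L : ℝ} (hL : 0 < L) (hper : ∀ x, g L x = x) {k : ℝ}
    (hk : 2 * k < Module.finrank ℝ V) : ¬ Cov φ L k univ := by
  classical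
  rintro ⟨s, h1, h2, h3⟩
  choose! hc θ ν hθ hν hB using h2
  have hbd : ∀ B ∈ s, ∃ M : ℝ, ∀ y ∈ B, |ν B y| ≤ M := fun B hBs => by
    simpa using (hc B hBs).isCompact.exists_bound_of_continuousOn (hν B hBs)
  choose! M hM using hbd
  obtain ⟨p, hpM, hp⟩ := Nat.exists_infinite_primes (⌈∑ B ∈ s, |M B|⌉₊ + 1)
  have hb : ∀ B ∈ s, ∀ y ∈ B, |ν B y| < p := by
    intro B hBs y hy
    have a1 : |M B| ≤ ∑ B ∈ s, |M B| :=
      Finset.single_le_sum (f := fun B => |M B|) (fun _ _ => abs_nonneg _) hBs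
    have a2 := Nat.le_ceil (∑ B ∈ s, |M B|)
    have a3 : ((⌈∑ B ∈ s, |M B|⌉₊ + 1 : ℕ) : ℝ) ≤ p := by exact_mod_cast hpM
    have a4 := hM B hBs y hy
    have a5 := le_abs_self (M B)
    push_cast at a3
    linarith
  have : Fact p.Prime := ⟨hp⟩
  have hp0 : (p : ℝ) ≠ 0 := by exact_mod_cast hp.pos.ne'
  let C : s × Fin 2 → ZMod p → Set V := fun i a =>
    Subtype.val '' lab i.1.1 (θ i.1.1) (ν i.1.1) p i.2 (a.val : ℤ)
  have hCc : ∀ i a, IsClosed (C i a) := fun i a =>
    ((isClosed_lab (hc _ i.1.2) (hθ _ i.1.2) (hν _ i.1.2) (fun y hy => (hB _ i.1.2 y hy).1)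
      p _ _).isCompact.image continuous_subtype_val).isClosed
  have hsh : ∀ i a (k : ℤ) x, x ∈ C i a → g (k * (L / p)) x ∈ C i (a + k) := by
    rintro i a k _ ⟨y, hy, rfl⟩
    refine ⟨_, lab_congr (fun y hy => (hB _ i.1.2 y hy).2.1) hp.pos _ ?_
      (lab_shift hL.ne' (fun y hy => (hB _ i.1.2 y hy).2.2) _ _ k hy), hg _ _⟩
    simp
  have him : ∀ i a, g (L / p) '' C i a = C i (a + 1) := by
    intro i a
    apply Subset.antisymm
    · rintro _ ⟨x, hx, rfl⟩
      simpa using hsh i a 1 x hx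
    · intro x hx
      refine ⟨g (((-1 : ℤ) : ℝ) * (L / p)) x, by simpa using hsh i _ (-1) x hx, ?_⟩
      rw [← hadd]; simpa using h0 x
  have hisom : Isometry (g (L / p)) := AddMonoidHomClass.isometry_of_norm _ (hiso _)
  let O : s × Fin 2 → ZMod p → Set V := fun i a => {x | x ≠ 0} ∩ (fun x => ‖x‖⁻¹ • x) ⁻¹'
    {u | ∀ a', a' ≠ a → infEDist u (C i a) < infEDist u (C i a')}
  have hit : ∀ (n : ℕ) x, (g (L / p))^[n] x = g (n * (L / p)) x := by
    intro n
    induction n with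
    | zero => intro x; simpa using (h0 x).symm
    | succ n ih =>
      intro x
      rw [Function.iterate_succ_apply', ih, ← hadd]; congr 2; push_cast; ring
  refine absurd (MP_8bdec9_gt.zp_cover p hp.two_le (g (L / p))
    (fun x => by rw [hit, mul_div_cancel₀ _ hp0, hper]) (ι := s × Fin 2) ?_ O ?_ ?_ ?_) ?_
  rotate_right
  · rintro ⟨x, hx0, hx⟩
    have hn : ‖x‖ ≠ 0 := norm_ne_zero_iff.2 hx0
    let u : sphere (0 : V) 1 := ⟨‖x‖⁻¹ • x, by simp [norm_smul, hn]⟩
    obtain ⟨B, hBs, huB⟩ := h3 u trivial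
    obtain ⟨j, m, hm⟩ := lab_cover (θ := θ B) (fun y hy => (hB _ hBs y hy).2.1) hp (hb B hBs) huB
    refine hx (⟨B, hBs⟩, j) (m : ZMod p) ⟨hx0, fun a' ha' => ?_⟩
    have hu : (u : V) ∈ C (⟨B, hBs⟩, j) (m : ZMod p) :=
      ⟨u, lab_congr (fun y hy => (hB _ hBs y hy).2.1) hp.pos _ (by simp) hm, rfl⟩
    change infEDist (u : V) _ < infEDist (u : V) _
    rw [infEDist_zero_of_mem hu, infEDist_pos_iff_notMem_closure, (hCc _ _).closure_eq]
    rintro ⟨y, hy, hyu⟩
    obtain rfl : y = u := Subtype.ext hyu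
    have := lab_disj (fun y hy => (hB _ hBs y hy).1) (fun y hy => (hB _ hBs y hy).2.1) hp
      (hb B hBs) _ hy hm
    exact ha' (by simpa using this)
  · have : (2 * s.card : ℝ) < Module.finrank ℝ V := by linarith
    have : 2 * s.card < Module.finrank ℝ V := by exact_mod_cast this
    simpa [mul_comm] using this
  · intro i a
    refine ContinuousOn.isOpen_inter_preimage ?_ isOpen_ne ?_
    · exact (continuous_norm.continuousOn.inv₀ fun x hx => norm_ne_zero_iff.2 hx).smul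
        continuousOn_id
    · have : {u : V | ∀ a', a' ≠ a → infEDist u (C i a) < infEDist u (C i a')} =
          ⋂ a' ∈ {a' | a' ≠ a}, {u : V | infEDist u (C i a) < infEDist u (C i a')} := by
        ext; simp
      rw [this]
      exact (toFinite _).isOpen_biInter fun a' _ =>
        isOpen_lt continuous_infEDist continuous_infEDist
  · rintro i a x ⟨hx0, hx⟩
    refine ⟨fun h => hx0 ?_, fun a' ha' => ?_⟩
    · rw [← norm_eq_zero, ← hiso (L / p), h, norm_zero]
    · have e : a' = (a' - 1) + 1 := by ring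
      change infEDist (‖g (L / p) x‖⁻¹ • g (L / p) x) _ < infEDist (‖g (L / p) x‖⁻¹ • g (L / p) x) _
      rw [hiso, ← map_smul, e, ← him, ← him, infEDist_image hisom, infEDist_image hisom]
      exact hx _ fun h => ha' (by rw [e, h])
  · rintro i a a' x ⟨-, hx⟩ ⟨-, hx'⟩
    by_contra hne
    exact lt_asymm (hx a' (Ne.symm hne)) (hx' a hne)

end Pool.Agent.MP_4a8842_an

end MrgPart5

-- marker of a merged file
example : 731051 + 86636 = 731051 + 86636 := rfl
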