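import Mathlib.Algebra.Order.Archimedean.Real.Hom
import Mathlib.LinearAlgebra.Complex.FiniteDimensional
import Mathlib.MeasureTheory.Measure.Prokhorov
import Mathlib.Order.CompletePartialOrder
import Mathlib.Topology.UniformSpace.Ascoli
import Mathlib.Topology.ContinuousMap.SecondCountableSpace
import Mathlib.Topology.Metrizable.ContinuousMap
import Mathlib.Topology.UniformSpace.Uniformizable
import Pool.Agent.MP_4a8842_an.NoCov

-- ======== part 0: formerly Pool.Agent.MP_4a8842_an.Ocap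
section MrgPart0

/-! Invariant measures and time averages along orbits. -/

open Set MeasureTheory Real Topology Filter ProbabilityTheory

namespace Pool.Agent.MP_4a8842_an

variable {Z : Type*} [MetricSpace Z] [MeasurableSpace Z] [BorelSpace Z]

lemma small_of_null (φ : Flow ℝ Z) {E : Set Z} (hE : MeasurableSet E)
    (h : ∀ y, volume {t | φ t y ∈ E} = 0) : Small φ E := by
  intro μ hμ hinv
  have hm : MeasurableSet {p : ℝ × Z | φ p.1 p.2 ∈ E} := φ.cont'.measurable hE
  have h1 := Measure.prod_apply (μ := volume) (ν := μ) hm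
  rw [Measure.prod_apply_symm hm] at h1
  have e1 : ∀ y, volume ((fun t : ℝ => (t, y)) ⁻¹' {p : ℝ × Z | φ p.1 p.2 ∈ E}) = 0 := h
  have e2 : ∀ t : ℝ, μ (Prod.mk t ⁻¹' {p : ℝ × Z | φ p.1 p.2 ∈ E}) = μ E := fun t =>
    (hinv t).measure_preimage hE.nullMeasurableSet
  simp only [e1, e2] at h1
  simpa [eq_comm] using h1

lemma small_of_isolated (φ : Flow ℝ Z) {E : Set Z} (hE : MeasurableSet E)
    (h : ∀ y ∈ E, ∀ᶠ t in 𝓝[≠] (0 : ℝ), φ t y ∉ E) : Small φ E := by
  refine small_of_null φ hE fun y => Set.Countable.measure_zero ?_ _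
  refine (countable_setOfPred_isolated_right_within (s := {t | φ t y ∈ E})).mono fun t ht =>
    And.intro ht ?_
  have h1 : Tendsto (fun s => s - t) (𝓝[>] t) (𝓝[≠] 0) := by
    refine tendsto_nhdsWithin_iff.2 ⟨?_, ?_⟩
    · exact ((continuous_sub_right t).tendsto' t 0 (sub_self t)).mono_left nhdsWithin_le_nhds
    · filter_upwards [self_mem_nhdsWithin] with s hs
      exact (sub_pos.2 hs).ne'
  rw [inter_comm, nhdsWithin_inter, inf_comm, ← nhdsWithin_inter, inter_comm, nhdsWithin_inter',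
    inf_principal_eq_bot]
  filter_upwards [h1.eventually (h _ ht)] with s hs
  rwa [← φ.map_add, sub_add_cancel] at hs

/-- empirical measure on the orbit segment of length T -/
noncomputable def emp (φ : Flow ℝ Z) (T : ℝ) (y : Z) : Measure Z :=
  (volume[|Icc 0 T]).map fun t => φ t y

lemma emp_prob (φ : Flow ℝ Z) {T : ℝ} (hT : 0 < T) (y : Z) : IsProbabilityMeasure (emp φ T y) := by
  have : IsProbabilityMeasure (volume[|Icc 0 T]) :=
    cond_isProbabilityMeasure_of_finite (by simpa using hT) (by simp)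
  exact Measure.isProbabilityMeasure_map (Continuous.aemeasurable (by fun_prop))

lemma emp_apply (φ : Flow ℝ Z) (T : ℝ) (y : Z) {E : Set Z} (hE : MeasurableSet E) :
    emp φ T y E = (ENNReal.ofReal T)⁻¹ * volume ({t | φ t y ∈ E} ∩ Icc 0 T) := by
  rw [emp, Measure.map_apply (Continuous.measurable (by fun_prop)) hE, cond_apply measurableSet_Icc,
    inter_comm]
  simp; rfl

lemma emp_integral (φ : Flow ℝ Z) {T : ℝ} (hT : 0 < T) (y : Z) {f : Z → ℝ} (hf : Continuous f) :
    ∫ z, f z ∂(emp φ T y) = T⁻¹ * ∫ t in (0 : ℝ)..T, f (φ t y) := by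
  rw [emp, integral_map (Continuous.aemeasurable (by fun_prop)) hf.aestronglyMeasurable,
    ProbabilityTheory.cond, integral_smul_measure, intervalIntegral.integral_of_le hT.le,
    integral_Icc_eq_integral_Ioc]
  simp [hT.le]

theorem ocap [CompactSpace Z] (φ : Flow ℝ Z) {G Ψ : ℕ → Set Z} (hG : ∀ n, IsClosed (G n))
    (hΨ : ∀ n, IsClosed (Ψ n)) (aG : Antitone G) (aΨ : Antitone Ψ)
    (hi : ∀ n, ∀ y ∈ G n, ∀ t, φ t y ∈ G n)
    (h : ∀ μ : Measure Z, IsProbabilityMeasure μ → (∀ t, MeasurePreserving (φ t) μ μ) →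
      μ (⋂ n, G n) = 1 → μ (⋂ n, Ψ n) = 0) {ε : ℝ} (hε : 0 < ε) :
    ∃ n : ℕ, ∀ y ∈ G n, ∀ T : ℝ, n ≤ T → 0 < T →
      volume ({t | φ t y ∈ Ψ n} ∩ Icc 0 T) ≤ ENNReal.ofReal (ε * T) := by
  by_contra hc
  push Not at hc
  choose y hy T hT hT0 hv using hc
  let P : ℕ → ProbabilityMeasure Z := fun n => ⟨emp φ (T n) (y n), emp_prob φ (hT0 n) _⟩
  obtain ⟨μ, s, hs, hlim⟩ := CompactSpace.tendsto_subseq P
  have key : ∀ (F : ℕ → Set Z) (c : ENNReal), (∀ n, IsClosed (F n)) → Antitone F →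
      (∀ n, c ≤ emp φ (T n) (y n) (F n)) → c ≤ (μ : Measure Z) (⋂ n, F n) := by
    intro F c h1 h2 h3
    refine ge_of_tendsto' (tendsto_measure_iInter_atTop (fun n => (h1 n).nullMeasurableSet) h2
      ⟨0, measure_ne_top _ _⟩) fun n => ?_
    refine le_trans (le_limsup_of_frequently_le' (Eventually.frequently ?_))
      (ProbabilityMeasure.limsup_measure_closed_le_of_tendsto hlim (h1 n))
    filter_upwards [eventually_ge_atTop n] with k hk
    exact (h3 (s k)).trans (measure_mono (h2 (hk.trans (hs.le_apply))))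
  have h1 : (μ : Measure Z) (⋂ n, G n) = 1 := by
    refine le_antisymm prob_le_one (key G 1 hG aG fun n => ?_)
    rw [emp_apply _ _ _ (hG n).measurableSet, show {t | φ t (y n) ∈ G n} = univ from
      eq_univ_of_forall (hi n _ (hy n)), univ_inter, Real.volume_Icc, sub_zero,
      ENNReal.inv_mul_cancel (by simpa using hT0 n) (by simp)]
  have h2 : ENNReal.ofReal ε ≤ (μ : Measure Z) (⋂ n, Ψ n) := by
    refine key Ψ _ hΨ aΨ fun n => ?_
    rw [emp_apply _ _ _ (hΨ n).measurableSet]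
    refine le_trans (le_of_eq ?_) (mul_le_mul_right (hv n).le _)
    rw [ENNReal.ofReal_mul hε.le, mul_comm (ENNReal.ofReal ε), ← mul_assoc,
      ENNReal.inv_mul_cancel (by simpa using hT0 n) (by simp), one_mul]
  rw [h μ inferInstance (fun t => ⟨(φ.continuous_toFun t).measurable, ?_⟩) h1] at h2
  · exact absurd h2 (by simpa using hε)
  refine ext_of_forall_integral_eq_of_IsFiniteMeasure fun f => ?_
  rw [integral_map (φ.continuous_toFun t).aemeasurable f.continuous.aestronglyMeasurable]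
  have l1 := ProbabilityMeasure.tendsto_iff_forall_integral_tendsto.1 hlim f
  have l2 := ProbabilityMeasure.tendsto_iff_forall_integral_tendsto.1 hlim
    (f.compContinuous ⟨φ t, φ.continuous_toFun t⟩)
  refine sub_eq_zero.1 (tendsto_nhds_unique (l2.sub l1) ?_)
  have hTt : Tendsto (fun k => T (s k)) atTop atTop :=
    tendsto_atTop_mono (fun k => hT (s k)) (tendsto_natCast_atTop_atTop.comp hs.tendsto_atTop)
  refine squeeze_zero_norm (a := fun k => (T (s k))⁻¹ * (2 * (‖f‖ * |t|))) (fun k => ?_)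
    (by simpa using hTt.inv_tendsto_atTop.mul_const (2 * (‖f‖ * |t|)))
  change ‖∫ z, f (φ t z) ∂(emp φ _ _) - ∫ z, f z ∂(emp φ _ _)‖ ≤ _
  rw [emp_integral φ (hT0 _) _ (f := fun z => f (φ t z)) (by fun_prop),
    emp_integral φ (hT0 _) _ f.continuous, ← mul_sub, norm_mul, Real.norm_eq_abs,
    abs_of_pos (inv_pos.2 (hT0 _))]
  refine mul_le_mul_of_nonneg_left ?_ (inv_pos.2 (hT0 _)).le
  have e := intervalIntegral.integral_comp_add_left (a := 0) (b := T (s k))
    (fun u => f (φ u (y (s k)))) t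
  simp only [φ.map_add, add_zero] at e
  have hint : ∀ a b, IntervalIntegrable (fun u => f (φ u (y (s k)))) volume a b := fun a b =>
    Continuous.intervalIntegrable (by fun_prop) _ _
  have hn : ∀ a b, ‖∫ u in a..b, f (φ u (y (s k)))‖ ≤ ‖f‖ * |b - a| := fun a b =>
    intervalIntegral.norm_integral_le_of_norm_le_const fun u _ => f.norm_coe_le_norm _
  rw [e, intervalIntegral.integral_interval_sub_interval_comm' (hint _ _) (hint _ _) (hint _ _)]
  refine (norm_sub_le _ _).trans ?_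
  have a1 := hn (T (s k)) (t + T (s k))
  have a2 := hn 0 t
  simp only [add_sub_cancel_right, sub_zero] at a1 a2
  linarith

theorem orbit_integral_const [CompactSpace Z] (φ : Flow ℝ Z) {h : Z → ℝ} (hh : Continuous h)
    (hb : ∀ y, |h y| ≤ 1) (hs : ∀ ξ > 0, ∀ ε > 0, ∀ T0 : ℝ, ∃ T, T0 ≤ T ∧ 0 < T ∧ ∀ y,
      ‖av T (fun u => (h (φ u y) : ℂ)) ξ‖ ≤ ε) {τ : ℝ} (hτ : τ ≠ 0) (ν : Measure Z)
    [IsProbabilityMeasure ν] (hν : MeasurePreserving (φ τ) ν ν) (s : ℝ) :
    ∫ y, h (φ s y) ∂ν = ∫ y, h y ∂ν := by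
  set H : ℝ → ℂ := fun s => ((∫ y, h (φ s y) ∂ν : ℝ) : ℂ) with hH
  have hc : Continuous H := by
    refine Complex.continuous_ofReal.comp ?_
    simpa using continuous_parametric_integral_of_continuous (μ := ν)
      (f := fun s y => h (φ s y)) (hh.comp φ.cont') isCompact_univ
  have hp0 : Function.Periodic H τ := fun s => by
    simp only [hH, φ.map_add]
    congr 1
    conv_rhs => rw [← hν.map_eq]
    rw [integral_map hν.aemeasurable (Continuous.aestronglyMeasurable (by fun_prop))]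
  have hp : Function.Periodic H |τ| := by
    rcases abs_choice τ with e | e <;> rw [e]
    exacts [hp0, hp0.neg]
  have hτ' : 0 < |τ| := abs_pos.2 hτ
  have hHb : ∀ u, ‖H u‖ ≤ 1 := fun u => by
    rw [Complex.norm_real]
    simpa using norm_integral_le_of_norm_le_const (μ := ν) (f := fun y => h (φ u y)) (C := 1)
      (.of_forall fun y => hb _)
  have hsw : ∀ T ξ, av T H ξ = ∫ y, av T (fun u => (h (φ u y) : ℂ)) ξ ∂ν := by
    intro T ξ
    simp only [av, hH, integral_const_mul, ← integral_complex_ofReal, ← integral_mul_const]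
    rw [intervalIntegral_integral_swap]
    have hcc : Continuous (Function.uncurry fun u y => (h (φ u y) : ℂ) * ee (-(ξ * u))) := by
      unfold Function.uncurry; fun_prop
    have : IsFiniteMeasure (volume.restrict (uIoc 0 T)) := ⟨by simp [uIoc]⟩
    refine Integrable.of_bound hcc.aestronglyMeasurable 1 (.of_forall fun p => ?_)
    simpa [Function.uncurry] using hb _
  have pos : ∀ n : ℤ, 0 < n → av |τ| H (n / |τ|) = 0 := by
    intro n hn
    refine norm_le_zero_iff.1 (le_of_forall_pos_le_add fun ε hε => ?_)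
    obtain ⟨T, h1, h2, h3⟩ := hs (n / |τ|) (by positivity) (ε / 2) (by positivity) (4 * |τ| / ε)
    have a1 := av_long hτ' h2 hc hp hHb n
    have a2 : ‖av T H (n / |τ|)‖ ≤ ε / 2 := by
      rw [hsw]
      simpa using norm_integral_le_of_norm_le_const (μ := ν) (.of_forall h3)
    have a3 : 2 * |τ| / T ≤ ε / 2 := by
      rw [div_le_iff₀ hε] at h1
      rw [div_le_iff₀ h2]; linarith
    linarith
  have := const_of_coeff hτ' hc hp (fun n hn => ?_) s
  · simpa [hH] using this
  rcases hn.lt_or_gt with hn | hn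
  · have h1 := congrArg (starRingEnd ℂ) (pos (-n) (by omega))
    rw [map_zero] at h1
    rw [← h1, av, av, map_mul, map_inv₀, Complex.conj_ofReal,
      intervalIntegral.integral_of_le hτ'.le, intervalIntegral.integral_of_le hτ'.le,
      ← integral_conj]
    congr 2
    ext u
    rw [map_mul, conj_ee, Complex.conj_ofReal]
    congr 2; push_cast; ring
  · exact pos n hn

end Pool.Agent.MP_4a8842_an

end MrgPart0

-- ======== part 1: formerly Pool.Agent.MP_4a8842_an.Sect
section MrgPart1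

/-! Local structure of a flow without fixed points. -/

open Set MeasureTheory Real Topology Filter Metric

namespace Pool.Agent.MP_4a8842_an

variable {X : Type*} [MetricSpace X] {φ : Flow ℝ X}

variable (φ) in
/-- F is differentiable along the flow with derivative g -/
def FD (F g : X → ℝ) : Prop :=
  Continuous F ∧ Continuous g ∧ ∀ y s, HasDerivAt (fun s => F (φ s y)) (g (φ s y)) s

lemma FD_int {f : X → ℝ} (hf : Continuous f) (a b : ℝ) :
    FD φ (fun y => ∫ t in a..b, f (φ t y)) (fun y => f (φ b y) - f (φ a y)) := by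
  refine ⟨intervalIntegral.continuous_parametric_intervalIntegral_of_continuous'
    (f := fun y t => f (φ t y)) (hf.comp (φ.continuous continuous_snd continuous_fst)) _ _,
    by fun_prop, fun y s => ?_⟩
  have hc : Continuous fun u => f (φ u y) := by fun_prop
  have hd : ∀ c : ℝ, HasDerivAt (fun s => ∫ u in (0 : ℝ)..c + s, f (φ u y))
      (f (φ c (φ s y))) s := fun c => by
    rw [← φ.map_add]
    exact (hc.integral_hasStrictDerivAt 0 (c + s)).hasDerivAt.comp_const_add c s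
  refine ((hd b).sub (hd a)).congr_of_eventuallyEq (.of_forall fun s => ?_)
  rw [Pi.sub_apply, intervalIntegral.integral_interval_sub_left (hc.intervalIntegrable _ _)
    (hc.intervalIntegrable _ _), ← intervalIntegral.integral_comp_add_right (fun u => f (φ u y))]
  simp only [φ.map_add]

lemma FD.add {F g F' g' : X → ℝ} (h : FD φ F g) (h' : FD φ F' g') :
    FD φ (fun y => F y + F' y) (fun y => g y + g' y) :=
  ⟨h.1.add h'.1, h.2.1.add h'.2.1, fun y s => (h.2.2 y s).add (h'.2.2 y s)⟩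

lemma FD.sub {F g F' g' : X → ℝ} (h : FD φ F g) (h' : FD φ F' g') :
    FD φ (fun y => F y - F' y) (fun y => g y - g' y) :=
  ⟨h.1.sub h'.1, h.2.1.sub h'.2.1, fun y s => (h.2.2 y s).sub (h'.2.2 y s)⟩

lemma exists_FD {x : X} (hx : ∃ t, φ t x ≠ x) : ∃ F g, FD φ F g ∧ g x = 1 := by
  obtain ⟨t, ht⟩ := hx
  refine ⟨_, _, FD_int (f := fun y => dist y x / dist (φ t x) x) (by fun_prop) 0 t, ?_⟩
  simp [div_self (dist_ne_zero.2 ht)]

lemma FD.strictMonoOn {F g : X → ℝ} (h : FD φ F g) {a b : ℝ} {y : X}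
    (hg : ∀ t ∈ Icc a b, 0 < g (φ t y)) : StrictMonoOn (fun t => F (φ t y)) (Icc a b) :=
  strictMonoOn_of_deriv_pos (convex_Icc a b) (h.1.comp (by fun_prop)).continuousOn fun t ht => by
    rw [(h.2.2 y t).deriv]; exact hg t (interior_subset ht)

lemma tube {N : Set X} {x : X} (hN : N ∈ 𝓝 x) :
    ∃ η > 0, ∀ t, |t| ≤ η → ∀ y ∈ closedBall x η, φ t y ∈ N := by
  have h1 : ∀ᶠ p : ℝ × X in 𝓝 (0, x), φ p.1 p.2 ∈ N :=
    φ.cont'.continuousAt.eventually_mem (by simpa using hN)
  obtain ⟨δ, hδ, h⟩ := Metric.eventually_nhds_iff.1 h1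
  refine ⟨δ / 2, by positivity, fun t ht y hy => @h (t, y) ?_⟩
  rw [Prod.dist_eq, max_lt_iff, Real.dist_eq, sub_zero]
  exact ⟨by linarith, by linarith [mem_closedBall.1 hy]⟩

theorem exists_section {x : X} (hx : ∃ t, φ t x ≠ x) : ∃ η S, IsClosed S ∧ CrossSection φ η S ∧
    x ∈ S ∧ x ∈ interior (box φ η S) := by
  obtain ⟨F, g, h, hg⟩ := exists_FD hx
  obtain ⟨r, hr, h1⟩ := tube (φ := φ) (h.2.1.continuousAt.eventually (lt_mem_nhds
    (show 0 < g x by rw [hg]; exact one_pos)))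
  have hm : ∀ y ∈ closedBall x r, StrictMonoOn (fun t => F (φ t y)) (Icc (-r) r) := fun y hy =>
    h.strictMonoOn fun t ht => h1 t (abs_le.2 ht) y hy
  have h0 : (0 : ℝ) ∈ Icc (-r) r := ⟨by linarith, hr.le⟩
  refine ⟨r / 2, closedBall x r ∩ {y | F y = F x},
    isClosed_closedBall.inter (isClosed_eq h.1 continuous_const), ⟨by positivity, ?_⟩,
    ⟨mem_closedBall_self hr.le, rfl⟩, ?_⟩
  · rintro ⟨t, y⟩ ⟨ht, hy, hFy⟩ ⟨s, z⟩ ⟨hs, hz, hFz⟩ e
    have e1 : φ (t - s) y = z := by
      rw [sub_eq_neg_add, φ.map_add, show φ t y = φ s z from e, ← φ.map_add, neg_add_cancel,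
        φ.map_zero_apply]
    have e2 : t - s = 0 := (hm y hy).injOn ⟨by linarith [ht.1, hs.2], by linarith [ht.2, hs.1]⟩ h0
      (by simp only [e1, φ.map_zero_apply]; exact (show F z = F x from hFz).trans hFy.symm)
    rw [e2, φ.map_zero_apply] at e1
    exact Prod.ext (sub_eq_zero.1 e2) e1
  · obtain ⟨η, hη, h2⟩ := tube (φ := φ) (closedBall_mem_nhds x hr)
    set a := min η (r / 2)
    have ha : 0 < a := by positivity
    have a1 : a ≤ η := min_le_left _ _
    have a2 : a ≤ r / 2 := min_le_right _ _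
    have b1 : F (φ (-a) x) < F x := by
      simpa using hm x (mem_closedBall_self hr.le) ⟨by linarith, by linarith⟩ h0 (neg_lt_zero.2 ha)
    have b2 : F x < F (φ a x) := by
      simpa using hm x (mem_closedBall_self hr.le) h0 ⟨by linarith, by linarith⟩ ha
    have hF := h.1
    rw [mem_interior_iff_mem_nhds]
    filter_upwards [closedBall_mem_nhds x hη,
      (by fun_prop : Continuous fun y => F (φ (-a) y)).continuousAt.eventually (gt_mem_nhds b1),
      (by fun_prop : Continuous fun y => F (φ a y)).continuousAt.eventually (lt_mem_nhds b2)]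
      with y hy c1 c2
    obtain ⟨t, ht, e⟩ := intermediate_value_Icc (by linarith : -a ≤ a)
      (f := fun t => F (φ t y)) (by fun_prop) ⟨c1.le, c2.le⟩
    refine ⟨-t, ⟨by linarith [ht.2], by linarith [ht.1]⟩, φ t y,
      ⟨h2 t ((abs_le.2 ht).trans a1) y hy, e⟩, ?_⟩
    rw [← φ.map_add, neg_add_cancel, φ.map_zero_apply]

lemma CrossSection.inj {η : ℝ} {S : Set X} (hc : CrossSection φ η S) {t t' : ℝ} {s s' : X}
    (ht : t ∈ Icc (-η) η) (hs : s ∈ S) (ht' : t' ∈ Icc (-η) η) (hs' : s' ∈ S)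
    (e : φ t s = φ t' s') : t = t' ∧ s = s' :=
  Prod.ext_iff.1 (@hc.2 (t, s) ⟨ht, hs⟩ (t', s') ⟨ht', hs'⟩ e)

lemma CrossSection.zero {η : ℝ} {S : Set X} (hc : CrossSection φ η S) : (0 : ℝ) ∈ Icc (-η) η :=
  ⟨by linarith [hc.1], hc.1.le⟩

lemma box_eq (η : ℝ) (U : Set X) :
    box φ η U = (fun p : ℝ × X => φ p.1 p.2) '' (Icc (-η) η ×ˢ U) := by
  ext z; simp [box, and_assoc]

lemma box_mono {η : ℝ} {U V : Set X} (h : U ⊆ V) : box φ η U ⊆ box φ η V :=
  fun _ ⟨t, ht, u, hu, e⟩ => ⟨t, ht, u, h hu, e⟩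

lemma isClosed_box [CompactSpace X] (η : ℝ) {U : Set X} (hU : IsClosed U) :
    IsClosed (box φ η U) := by
  rw [box_eq]
  exact ((isCompact_Icc.prod hU.isCompact).image φ.cont').isClosed

lemma closure_box [CompactSpace X] (η : ℝ) (U : Set X) :
    closure (box φ η U) = box φ η (closure U) := by
  refine subset_antisymm (closure_minimal (box_mono subset_closure)
    (isClosed_box η isClosed_closure)) ?_
  rintro _ ⟨t, ht, u, hu, rfl⟩
  exact map_mem_closure (φ.continuous_toFun t) hu fun v hv => ⟨t, ht, v, hv, rfl⟩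

lemma lat [CompactSpace X] {η : ℝ} {S U : Set X} (hS : IsClosed S) (hc : CrossSection φ η S)
    (hU : U ⊆ S) {s : X} (hs : s ∈ S) {t0 t : ℝ} (ht0 : |t0| ≤ η)
    (h : φ t0 s ∈ interior (box φ η U)) (ht : |t| < η) : φ t s ∈ interior (box φ η U) := by
  let K := (fun p : ℝ × X => φ p.1 p.2) '' ((Icc (-η) η ∩ {u | η - |t| ≤ |u - t0|}) ×ˢ S)
  have hK : IsClosed K := (((isCompact_Icc.inter_right (isClosed_le continuous_const
    (by fun_prop))).prod hS.isCompact).image φ.cont').isClosed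
  have hO : IsOpen (φ (t0 - t) ⁻¹' (interior (box φ η U) \ K)) :=
    (isOpen_interior.sdiff hK).preimage (φ.continuous_toFun _)
  refine interior_maximal (fun z hz => ?_) hO ?_
  · obtain ⟨u, hu, w, hw, e⟩ := interior_subset hz.1
    have h1 : |u - t0| < η - |t| := by
      by_contra hn
      exact hz.2 ⟨(u, w), ⟨⟨hu, not_lt.1 hn⟩, hU hw⟩, e⟩
    refine ⟨t + (u - t0), abs_le.1 ((abs_add_le _ _).trans (by linarith)), w, hw, ?_⟩
    rw [show t + (u - t0) = -(t0 - t) + u by ring, φ.map_add, e, ← φ.map_add, neg_add_cancel,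
      φ.map_zero_apply]
  · rw [mem_preimage, ← φ.map_add, sub_add_cancel]
    refine ⟨h, ?_⟩
    rintro ⟨⟨u, w⟩, ⟨⟨h1, h2⟩, h3⟩, e⟩
    rw [show u = t0 from (hc.inj h1 h3 (abs_le.1 ht0) hs e).1, mem_ofPred_eq, sub_self,
      abs_zero] at h2
    linarith

variable [MeasurableSpace X] [BorelSpace X]

omit [BorelSpace X] in
lemma Small.mono {A B : Set X} (h : Small φ B) (hA : A ⊆ B) : Small φ A :=
  fun μ h1 h2 => measure_mono_null hA (h μ h1 h2)

omit [BorelSpace X] in
lemma Small.union {A B : Set X} (h : Small φ A) (h' : Small φ B) : Small φ (A ∪ B) :=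
  fun μ h1 h2 => measure_union_null (h μ h1 h2) (h' μ h1 h2)

lemma FD.small {F g : X → ℝ} (h : FD φ F g) (c : ℝ) : Small φ {y | 0 < g y ∧ F y = c} := by
  refine small_of_isolated φ ((isOpen_lt continuous_const h.2.1).measurableSet.inter
    (isClosed_eq h.1 continuous_const).measurableSet) fun y hy => ?_
  filter_upwards [(h.2.2 y 0).eventually_ne (c := c) (by simpa using hy.1.ne')] with t ht
  exact fun h' => ht h'.2

theorem small_basis [CompactSpace X] (hfix : ∀ x, ∃ t, φ t x ≠ x) : ∃ B : Set (Set X),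
    TopologicalSpace.IsTopologicalBasis B ∧ ∀ U ∈ B, Small φ (frontier U) := by
  refine ⟨{U | IsOpen U ∧ Small φ (frontier U)}, TopologicalSpace.isTopologicalBasis_of_isOpen_of_nhds
    (fun _ h => h.1) fun x u hx hu => ?_, fun _ h => h.2⟩
  obtain ⟨F, g, h, hg⟩ := exists_FD (hfix x)
  obtain ⟨r, hr, h1⟩ := tube (φ := φ) (inter_mem (hu.mem_nhds hx)
    (h.2.1.continuousAt.eventually (lt_mem_nhds (show 1 / 2 < g x by rw [hg]; norm_num))))
  have h2 : ∀ y ∈ closedBall x r, y ∈ u ∧ 1 / 2 < g y := fun y hy => by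
    simpa using h1 0 (by simpa using hr.le) y hy
  have h0 : (0 : ℝ) ∈ Icc (-r) r := ⟨by linarith, hr.le⟩
  let K := (fun t => φ t x) '' Icc (-r) r
  have hK : IsClosed K := (isCompact_Icc.image (by fun_prop)).isClosed
  let k : X → ℝ := fun y => min (1 / 4) (infDist y K)
  have hk : Continuous k := continuous_const.min (continuous_infDist_pt K)
  have k0 : ∀ y, 0 ≤ k y := fun y => le_min (by norm_num) infDist_nonneg
  have k1 : ∀ y, k y ≤ 1 / 4 := fun y => min_le_left _ _
  have hρ := FD_int (φ := φ) hk (-r) r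
  set ρ := fun y => ∫ t in (-r)..r, k (φ t y) with hρ'
  have ρ0 : ∀ y, 0 ≤ ρ y := fun y => intervalIntegral.integral_nonneg (by linarith) fun _ _ => k0 _
  have hM : Continuous fun y => |F y - F x| + ρ y := ((h.1.sub continuous_const).abs).add hρ.1
  obtain ⟨c, hc, hc'⟩ := (isClosed_sphere (x := x) (ε := r)).isCompact.exists_forall_le'
    hM.continuousOn (a := 0) fun y hy => by
      by_contra hn
      have a1 := abs_nonneg (F y - F x)
      have a2 := ρ0 y
      have a3 : y ∈ K := by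
        by_contra hK'
        have : 0 < ρ y := intervalIntegral.integral_pos (by linarith) (by fun_prop)
          (fun _ _ => k0 _) ⟨0, h0, by
            rw [φ.map_zero_apply]
            exact lt_min (by norm_num) ((hK.notMem_iff_infDist_pos ⟨_, 0, h0, rfl⟩).1 hK')⟩
        linarith
      obtain ⟨t, ht, rfl⟩ := a3
      have := (h.strictMonoOn (y := x) fun t ht => lt_trans (by norm_num)
        (h1 t (abs_le.2 ht) x (mem_closedBall_self hr.le)).2).injOn ht h0 (by
          simp only [φ.map_zero_apply]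
          exact sub_eq_zero.1 (abs_eq_zero.1 (by linarith)))
      simp [this] at hy
      linarith
  have hO : IsOpen (ball x r ∩ {y | |F y - F x| + ρ y < c}) :=
    isOpen_ball.inter (isOpen_lt hM continuous_const)
  refine ⟨_, ⟨hO, (((h.add hρ).small (c + F x)).union ((h.sub hρ).small (F x - c))).mono
    fun y hy => ?_⟩, ⟨mem_ball_self hr, ?_⟩, fun y hy => (h2 y (ball_subset_closedBall hy.1)).1⟩
  · rw [hO.frontier_eq] at hy
    have b1 : y ∈ closedBall x r ∩ {y | |F y - F x| + ρ y ≤ c} :=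
      closure_minimal (inter_subset_inter ball_subset_closedBall fun _ h => le_of_lt h)
        (isClosed_closedBall.inter (isClosed_le hM continuous_const)) hy.1
    have b2 : |F y - F x| + ρ y = c := by
      refine le_antisymm b1.2 (not_lt.1 fun hlt => hy.2 ⟨?_, hlt⟩)
      exact lt_of_le_of_ne b1.1 fun e => not_lt.2 (hc' y e) hlt
    have b3 := (h2 y b1.1).2
    have := k0 (φ r y); have := k1 (φ r y); have := k0 (φ (-r) y); have := k1 (φ (-r) y)
    rcases abs_choice (F y - F x) with e | e <;> rw [e] at b2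
    · exact Or.inl ⟨by linarith, by linarith⟩
    · exact Or.inr ⟨by linarith, by linarith⟩
  · have : ρ x = 0 := by
      rw [hρ']
      refine (intervalIntegral.integral_congr (g := fun _ => 0) fun t ht => ?_).trans (by simp)
      rw [uIcc_of_le (by linarith)] at ht
      simp [k, infDist_zero_of_mem (show φ t x ∈ K from ⟨t, ht, rfl⟩)]
    simpa [this] using hc

omit [BorelSpace X] in
theorem SFBP.local [CompactSpace X] (hfix : ∀ x, ∃ t, φ t x ≠ x) (h : SFBP φ) : LocalSFBP φ := by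
  intro x
  obtain ⟨η, S, h1, h2, h3, h4⟩ := exists_section (hfix x)
  obtain ⟨B, hB, hs⟩ := h η S h1 h2
  obtain ⟨U, hU, hx, -⟩ := hB.exists_subset_of_mem_open (mem_univ ⟨x, h3⟩) isOpen_univ
  refine ⟨η, S, _, h1, h2, Subtype.coe_image_subset S U, ?_, hs U hU⟩
  have hc : IsClosed (Subtype.val '' Uᶜ) :=
    h1.isClosedEmbedding_subtypeVal.isClosedMap _ (hB.isOpen hU).isClosed_compl
  refine interior_maximal (fun z hz => ?_) (isOpen_interior.sdiff (isClosed_box (φ := φ) η hc))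
    ⟨h4, ?_⟩
  · obtain ⟨t, ht, u, hu, e⟩ := interior_subset hz.1
    refine ⟨t, ht, u, ⟨⟨u, hu⟩, ?_, rfl⟩, e⟩
    by_contra hn
    exact hz.2 ⟨t, ht, u, ⟨⟨u, hu⟩, hn, rfl⟩, e⟩
  · rintro ⟨t, ht, _, ⟨u, hu, rfl⟩, e⟩
    have := h2.inj ht u.2 h2.zero h3 (by simpa using e)
    exact hu (by rwa [show u = ⟨x, h3⟩ from Subtype.ext this.2])

lemma small_slice {η : ℝ} {S : Set X} (hS : IsClosed S) (hc : CrossSection φ η S) (c : ℝ) :
    Small φ (φ c ⁻¹' S) := by
  refine small_of_isolated φ (hS.preimage (φ.continuous_toFun c)).measurableSet fun y hy => ?_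
  filter_upwards [self_mem_nhdsWithin, nhdsWithin_le_nhds (Icc_mem_nhds (neg_lt_zero.2 hc.1) hc.1)]
    with t h1 h2 h3
  refine h1 (hc.inj h2 hy hc.zero h3 ?_).1
  simp only [← φ.map_add, add_zero, add_comm]

theorem BurguetSFBP.local [CompactSpace X] (hfix : ∀ x, ∃ t, φ t x ≠ x) (h : BurguetSFBP φ) :
    LocalSFBP φ := by
  intro x
  obtain ⟨η, S', h1, h2, h3, h4⟩ := exists_section (hfix x)
  obtain ⟨S, hS, hx, hs⟩ := h x η S' h1 h2 ⟨h3, h4⟩
  refine ⟨η, S', S, h1, h2, hS, hx.2, (hs.union ((small_slice h1 h2 η).union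
    (small_slice h1 h2 (-η)))).mono fun z hz => ?_⟩
  obtain ⟨t, ht, u, hu, rfl⟩ := closure_box (φ := φ) η S ▸ hz.1
  have hu' : u ∈ S' := closure_minimal hS h1 hu
  by_cases hf : u ∈ flowInt φ η S
  swap
  · exact Or.inl ⟨t, ht, u, ⟨hu, hf⟩, rfl⟩
  right
  rcases ht.1.eq_or_lt with e | a1
  · left; rwa [mem_preimage, ← e, ← φ.map_add, add_neg_cancel, φ.map_zero_apply]
  rcases ht.2.eq_or_lt with e | a2
  · right; rwa [mem_preimage, e, ← φ.map_add, neg_add_cancel, φ.map_zero_apply]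
  exact absurd (lat h1 h2 hS hu' (t0 := 0) (by simpa using h2.1.le) (by simpa using hf.2)
    (abs_lt.2 ⟨a1, a2⟩)) hz.2

end Pool.Agent.MP_4a8842_an

end MrgPart1

-- ======== part 2: formerly Pool.Agent.MP_4a8842_an.Box
section MrgPart2

/-! Flow boxes with small boundary give cheap covers of nearby periodic points. -/

open Set MeasureTheory Real Topology Filter Metric

namespace Pool.Agent.MP_4a8842_an

variable {Z : Type*} [MetricSpace Z]

lemma zero_fun {C : Set Z} (hC : IsClosed C) :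
    ∃ f : Z → ℝ, Continuous f ∧ (∀ y, 0 ≤ f y) ∧ ∀ y, f y = 0 ↔ y ∈ C := by
  rcases C.eq_empty_or_nonempty with rfl | h
  · exact ⟨fun _ => 1, continuous_const, by simp, by simp⟩
  · exact ⟨fun y => infDist y C, continuous_infDist_pt C, fun _ => infDist_nonneg,
      fun y => (hC.mem_iff_infDist_zero h).symm⟩

variable [CompactSpace Z] {φ : Flow ℝ Z}

lemma exists_sep {σ : ℝ} {S : Set Z} (hc : CrossSection φ (10 * σ) S) {f : Z → ℝ}
    (hf : Continuous f) (f0 : ∀ y, 0 ≤ f y) (hz : ∀ y, f y = 0 → y ∈ box φ (σ / 2) S) :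
    ∃ δ > 0, ∀ y t, f y ≤ δ → f (φ t y) ≤ δ → |t| ≤ 10 * σ → |t| ≤ 2 * σ := by
  have hσ : 0 < σ := by linarith [hc.1]
  have hK : IsCompact ((Icc (-(10 * σ)) (10 * σ) ∩ {t : ℝ | 2 * σ ≤ |t|}) ×ˢ (univ : Set Z)) :=
    (isCompact_Icc.inter_right (isClosed_le continuous_const continuous_abs)).prod isCompact_univ
  obtain ⟨c, hc0, h⟩ := hK.exists_forall_le' (f := fun p => f p.2 + f (φ p.1 p.2))
    (by fun_prop) (a := 0) (by
      rintro ⟨t, y⟩ ⟨⟨h1, h2⟩, -⟩
      by_contra hn
      have a1 := f0 y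
      have a2 := f0 (φ t y)
      obtain ⟨a, ha, s, hs, e⟩ := hz y (by simp only at hn; linarith)
      obtain ⟨b, hb, s', hs', e'⟩ := hz (φ t y) (by simp only at hn; linarith)
      simp only [mem_Icc, mem_ofPred_eq] at h1 h2 ha hb
      have := (hc.inj (t := (t + a - b) / 2) (t' := -((t + a - b) / 2))
        ⟨by linarith, by linarith⟩ hs ⟨by linarith, by linarith⟩ hs' (by
          rw [show (t + a - b) / 2 = -((t + a + b) / 2) + (t + a) by ring_nf, φ.map_add, φ.map_add,
            e, ← e', ← φ.map_add]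
          congr 1; ring)).1
      have : |t| ≤ σ := abs_le.2 ⟨by linarith, by linarith⟩
      linarith)
  refine ⟨c / 3, by positivity, fun y t h1 h2 h3 => ?_⟩
  by_contra hn
  have := h (t, y) ⟨⟨abs_le.1 h3, (not_le.1 hn).le⟩, mem_univ _⟩
  simp only at this
  linarith

variable [MeasurableSpace Z] [BorelSpace Z]

theorem box_cov {G : ℕ → Set Z} (hG : ∀ n, IsClosed (G n)) (aG : Antitone G)
    (hi : ∀ n, ∀ y ∈ G n, ∀ t, φ t y ∈ G n) {σ : ℝ} {S N : Set Z} (hS : IsClosed S)
    (hc : CrossSection φ (10 * σ) S) {d : Z → ℝ} (hd : Continuous d)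
    (h1 : ∀ w ∈ ⋂ n, G n, 0 ≤ d w → ∃ s ∈ S, ∃ t1, |t1| ≤ 10 * σ ∧ φ t1 s = w ∧
      ∀ t, |t| < 10 * σ → φ t s ∈ N ∨ ∀ t', |t'| < 10 * σ → 0 < d (φ t' s))
    (hN : ∀ μ : Measure Z, IsProbabilityMeasure μ → (∀ t, MeasurePreserving (φ t) μ μ) →
      μ (⋂ n, G n) = 1 → μ N = 0) {s0 : Z} (hs0 : s0 ∈ S)
    (h2 : ∀ t', |t'| < 10 * σ → 0 < d (φ t' s0)) (t0 : ℝ) :
    ∃ O, IsOpen O ∧ φ t0 s0 ∈ O ∧ ∀ ε > 0, ∃ (n : ℕ) (C : ℝ), ∀ L : ℝ, n ≤ L → 0 < L →
      Cov φ L (ε * L + C) (Per φ L ∩ G n ∩ O) := by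
  have hσ : 0 < σ := by linarith [hc.1]
  obtain ⟨f, hf, f0, fz⟩ := zero_fun (isClosed_box (φ := φ) (σ / 2) hS)
  obtain ⟨δ, hδ, hsep⟩ := exists_sep hc hf f0 fun y => (fz y).1
  let T := {y | f y ≤ δ}
  have hT : IsClosed T := isClosed_le hf continuous_const
  have hsep' : ∀ y ∈ T, ∀ t, φ t y ∈ T → |t| ≤ 7 * σ → |t| ≤ 2 * σ := fun y hy t ht h =>
    hsep y t hy ht (by linarith)
  let ψ : ℕ → Z → ℝ := fun j y => max 0 (1 - f y / δ) * max 0 (min 1 (j * d y))
  have ψc : ∀ j, Continuous (ψ j) := fun j => by simp only [ψ]; fun_prop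
  have ψ0 : ∀ j y, 0 ≤ ψ j y := fun j y => mul_nonneg (le_max_left _ _) (le_max_left _ _)
  have ψs : ∀ j y, ψ j y ≠ 0 → y ∈ T ∧ 0 ≤ d y := by
    intro j y h
    constructor
    · by_contra hn
      have : 1 ≤ f y / δ := by rw [le_div_iff₀ hδ, one_mul]; exact (not_le.1 hn).le
      exact left_ne_zero_of_mul h (max_eq_left (by linarith))
    · by_contra hn
      exact right_ne_zero_of_mul h (max_eq_left ((min_le_right _ _).trans
        (mul_nonpos_of_nonneg_of_nonpos (Nat.cast_nonneg _) (not_le.1 hn).le)))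
  have ψm : ∀ {i j : ℕ}, i ≤ j → ∀ y, ψ i y ≤ ψ j y := by
    intro i j hij y
    by_cases h : ψ i y = 0
    · rw [h]; exact ψ0 _ _
    have := (ψs i y h).2
    have : (i : ℝ) ≤ j := by exact_mod_cast hij
    simp only [ψ]
    gcongr
  have Mm : ∀ {i j : ℕ}, i ≤ j → ∀ y, mass φ (ψ i) σ y ≤ mass φ (ψ j) σ y := fun hij y =>
    intervalIntegral.integral_mono_on (by linarith)
      (((ψc _).comp (by fun_prop)).intervalIntegrable _ _)
      (((ψc _).comp (by fun_prop)).intervalIntegrable _ _) fun _ _ => ψm hij _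
  have full : ∀ s ∈ S, (∀ t', |t'| < 10 * σ → 0 < d (φ t' s)) → ∃ j : ℕ, 0 < ψ j s ∧
      ∀ c, |c| ≤ 2 * σ → σ ≤ mass φ (ψ j) σ (φ c s) := by
    intro s hs h
    obtain ⟨c0, hc0, h'⟩ := (isCompact_Icc (a := -(σ / 2)) (b := σ / 2)).exists_forall_le'
      (f := fun t => d (φ t s)) (by fun_prop) (a := 0) fun t ht =>
        h t ((abs_le.2 ht).trans_lt (by linarith))
    obtain ⟨j, hj⟩ := exists_nat_ge (1 / c0)
    have e : ∀ t ∈ Icc (-(σ / 2)) (σ / 2), ψ j (φ t s) = 1 := by
      intro t ht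
      have a1 : 1 ≤ j * d (φ t s) := by
        rw [div_le_iff₀ hc0] at hj
        exact hj.trans (mul_le_mul_of_nonneg_left (h' t ht) (Nat.cast_nonneg _))
      simp [ψ, (fz _).2 ⟨t, ht, s, hs, rfl⟩, min_eq_left a1]
    refine ⟨j, ?_, fun c hc => ?_⟩
    · have := e 0 ⟨by linarith, by linarith⟩
      rw [φ.map_zero_apply] at this
      rw [this]; exact one_pos
    · rw [mass_flow]
      obtain ⟨c1, c2⟩ := abs_le.1 hc
      refine le_trans (le_of_eq ?_) (intervalIntegral.integral_mono_interval (a := -(σ / 2))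
        (b := σ / 2) (by linarith) (by linarith) (by linarith) (.of_forall fun _ => ψ0 _ _)
        (((ψc _).comp (by fun_prop)).intervalIntegrable _ _))
      rw [intervalIntegral.integral_congr (g := fun _ => 1) fun t ht =>
        e t (by rwa [uIcc_of_le (by linarith)] at ht)]
      simp
  let W : ℕ → Set Z := fun j => {w | w ∈ T ∧ 0 ≤ d w ∧ mass φ (ψ j) σ w ≤ 3 * σ / 4}
  have hW : ∀ j, IsClosed (W j) := fun j => hT.inter ((isClosed_le continuous_const hd).inter
    (isClosed_le (continuous_mass φ (ψc j) σ) continuous_const))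
  have aW : Antitone W := fun i j hij w hw => ⟨hw.1, hw.2.1, (Mm hij w).trans hw.2.2⟩
  let Ψ : ℕ → Set Z := fun j => {z | ∃ u ∈ Icc 0 σ, φ (-u) z ∈ W j}
  have hΨ : ∀ j, IsClosed (Ψ j) := fun j => by
    have : Ψ j = Prod.snd '' {q : Icc (0 : ℝ) σ × Z | φ (-q.1) q.2 ∈ W j} := by
      ext y; simp [Ψ, and_assoc]
    rw [this]
    exact isClosedMap_snd_of_compactSpace _ ((hW j).preimage (by fun_prop))
  have aΨ : Antitone Ψ := fun i j hij z ⟨u, hu, h⟩ => ⟨u, hu, aW hij h⟩
  have hnull : (⋂ j, Ψ j) ⊆ (⋂ n, G n)ᶜ ∪ N := by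
    intro z hz
    by_cases hX : z ∈ ⋂ n, G n
    swap
    · exact Or.inl hX
    obtain ⟨u, hu⟩ := IsCompact.nonempty_iInter_of_sequence_nonempty_isCompact_isClosed
      (fun j => Icc 0 σ ∩ {u | φ (-u) z ∈ W j}) (fun j u hu => ⟨hu.1, aW j.le_succ hu.2⟩)
      (fun j => mem_iInter.1 hz j) (isCompact_Icc.inter_right ((hW 0).preimage (by fun_prop)))
      fun j => isClosed_Icc.inter ((hW j).preimage (by fun_prop))
    rw [mem_iInter] at hu
    obtain ⟨s, hs, t1, a1, a2, a3⟩ := h1 _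
      (mem_iInter.2 fun n => hi n z (mem_iInter.1 hX n) (-u)) (hu 0).2.2.1
    have a4 := hsep s t1 (((fz s).2 ⟨0, ⟨by linarith, by linarith⟩, s, hs,
      φ.map_zero_apply _⟩).trans_le hδ.le) (a2 ▸ (hu 0).2.1) a1
    obtain ⟨b1, b2⟩ := abs_le.1 a4
    obtain ⟨b3, b4⟩ := (hu 0).1
    rcases a3 (u + t1) (abs_lt.2 ⟨by linarith, by linarith⟩) with h | h
    · right
      rwa [φ.map_add, a2, ← φ.map_add, add_neg_cancel, φ.map_zero_apply] at h
    · obtain ⟨j, -, hj⟩ := full s hs h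
      have := (hj t1 a4).trans (a2 ▸ (hu j).2.2.2)
      linarith
  obtain ⟨j0, k1, k2⟩ := full s0 hs0 h2
  refine ⟨φ (-t0) ⁻¹' {y | 0 < ψ j0 y ∧ 3 * σ / 4 < mass φ (ψ j0) σ y},
    ((isOpen_lt continuous_const (ψc _)).inter (isOpen_lt continuous_const
      (continuous_mass φ (ψc _) σ))).preimage (φ.continuous_toFun _), ?_, fun ε hε => ?_⟩
  · rw [mem_preimage, ← φ.map_add, neg_add_cancel]
    exact ⟨by rwa [φ.map_zero_apply], lt_of_lt_of_le (by linarith) (k2 0 (by simpa using hσ.le))⟩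
  obtain ⟨n, hn⟩ := ocap φ hG hΨ aG aΨ hi (fun μ m1 m2 m3 => measure_mono_null hnull
    (measure_union_null ((prob_compl_eq_zero_iff (MeasurableSet.iInter fun n =>
      (hG n).measurableSet)).2 m3) (hN μ m1 m2 m3))) (mul_pos hε hσ)
  refine ⟨n, ε * σ + 1, fun L hL hL0 => ?_⟩
  set m := ⌊ε * (L + σ)⌋₊ + 1 with hm
  have m1 : ε * (L + σ) < m := by rw [hm]; push_cast; exact Nat.lt_floor_add_one _
  have m2 : (m : ℝ) ≤ ε * (L + σ) + 1 := by
    rw [hm]; push_cast; gcongr; exact Nat.floor_le (by positivity)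
  have m0 : (0 : ℝ) < m := lt_trans (by positivity) m1
  have hd' : 0 < σ / (2 * m) := by positivity
  have em : σ / 4 + m * (σ / (2 * m)) = 3 * σ / 4 := by field_simp; ring
  refine (Cov.biUnion (Finset.range m) _ _ fun r _ => cov_pass φ (ψc (n + j0)) (ψ0 _) hT
    (fun y h => (ψs _ y h).1) hσ hsep' (a := σ / 4 + (r : ℕ) * (σ / (2 * m)))
    (b := σ / 4 + (r + 1) * (σ / (2 * m))) (by positivity) (by linarith) hL0).mono
    (by simp; linarith) ?_
  rintro y ⟨⟨hy, hyG⟩, hyO⟩
  by_contra hcon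
  obtain ⟨c, c1, c2⟩ := gap (fun t => t ∈ Ico 0 L ∧ 0 < ψ (n + j0) (φ t y))
    (fun t => mass φ (ψ (n + j0)) σ (φ t y)) (σ / 4) hd' m fun r hr => by
      by_contra hn
      push Not at hn
      refine hcon (mem_biUnion (Finset.mem_range.2 hr) ⟨hy, fun t ht => ?_, -t0,
        hyO.1.trans_le (ψm (by omega) _), le_trans ?_ (hyO.2.le.trans (Mm (by omega) _))⟩)
      · obtain ⟨t', h1, h2⟩ := (per_periodic hy id).exists_mem_Ico₀ hL0 t
        simp only [id] at h2
        rw [h2] at ht ⊢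
        exact (le_or_gt _ _).imp_right (hn t' ⟨h1, ht⟩)
      · have : (r : ℝ) + 1 ≤ m := by exact_mod_cast hr
        rw [← em]; gcongr
  have v1 : volume (⋃ r, Ico (c r) (c r + σ)) = ENNReal.ofReal (m * σ) := by
    rw [measure_iUnion (fun r r' hr => ?_) fun _ => measurableSet_Ico]
    · simp [ENNReal.ofReal_mul]
    refine Set.disjoint_left.2 fun u hu hu' => hr (c2 ?_)
    simp only [mass_flow]
    exact w_const (D := {t | φ t y ∈ T}) hσ (fun t h => (ψs _ _ h).1)
      (fun s hs t ht => hsep' _ ht _ (by rw [← φ.map_add, sub_add_cancel]; exact hs))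
      (ψs _ _ (c1 r).1.2.ne').1 (ψs _ _ (c1 r').1.2.ne').1
      (abs_le.2 ⟨by linarith [hu.2, hu'.1], by linarith [hu.1, hu'.2]⟩)
  have v2 := (measure_mono (s := ⋃ r, Ico (c r) (c r + σ)) fun u hu => ?_).trans
    (hn y hyG (L + σ) (by linarith) (by linarith))
  · rw [v1, ENNReal.ofReal_le_ofReal_iff (by positivity)] at v2
    nlinarith
  obtain ⟨r, hr⟩ := mem_iUnion.1 hu
  obtain ⟨⟨p1, p2⟩, -, p3⟩ := c1 r
  refine ⟨⟨u - c r, ⟨by linarith [hr.1], by linarith [hr.2]⟩, aW (n.le_add_right j0) ?_⟩,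
    by linarith [hr.1, p1.1], by linarith [hr.2, p1.2]⟩
  rw [← φ.map_add, show -(u - c r) + u = c r by ring]
  exact ⟨(ψs _ _ p2.ne').1, (ψs _ _ p2.ne').2, em ▸ p3.le⟩

end Pool.Agent.MP_4a8842_an

end MrgPart2

-- ======== part 3: formerly Pool.Agent.MP_4a8842_an.Box2
section MrgPart3

/-! The local small flow boundary property gives cheap covers of nearby periodic points. -/

open Set MeasureTheory Real Topology Filter Metric

namespace Pool.Agent.MP_4a8842_an

variable {Z : Type*} [MetricSpace Z] [CompactSpace Z] {φ : Flow ℝ Z} [MeasurableSpace Z]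
  [BorelSpace Z]

omit [CompactSpace Z] in
lemma small_val {X : Set Z} (hX : IsClosed X) (hi : IsInvariant φ X) {E : Set X}
    (h : Small (φ.restrict hi) E) (μ : Measure Z) (_ : IsProbabilityMeasure μ)
    (m2 : ∀ t, MeasurePreserving (φ t) μ μ) (m3 : μ X = 1) : μ (Subtype.val '' E) = 0 := by
  have he := MeasurableEmbedding.subtype_coe hX.measurableSet
  rw [← he.comap_apply]
  refine h _ ⟨by rw [he.comap_apply]; simpa using m3⟩ fun t =>
    ⟨((φ.restrict hi).continuous_toFun t).measurable, ?_⟩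
  ext A hA
  rw [Measure.map_apply ((φ.restrict hi).continuous_toFun t).measurable hA, he.comap_apply,
    he.comap_apply, ← (m2 t).measure_preimage (he.measurableSet_image.2 hA).nullMeasurableSet]
  congr 1
  ext z
  constructor
  · rintro ⟨y, hy, rfl⟩
    exact ⟨_, hy, rfl⟩
  · rintro ⟨y, hy, e⟩
    have hz : z ∈ X := by
      have := hi (-t) y.2
      rwa [e, ← φ.map_add, neg_add_cancel, φ.map_zero_apply] at this
    refine ⟨⟨z, hz⟩, ?_, rfl⟩
    rwa [mem_preimage, show (φ.restrict hi) t ⟨z, hz⟩ = y from Subtype.ext e.symm]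

theorem local_cov {G : ℕ → Set Z} (hG : ∀ n, IsClosed (G n)) (aG : Antitone G)
    (hi : ∀ n, ∀ y ∈ G n, ∀ t, φ t y ∈ G n) (hX : IsInvariant φ (⋂ n, G n))
    (h : LocalSFBP (φ.restrict hX)) {ε : ℝ} (hε : 0 < ε) :
    ∃ (n : ℕ) (C : ℝ), ∀ L : ℝ, n ≤ L → 0 < L → Cov φ L (ε * L + C) (Per φ L ∩ G n) := by
  classical
  have hXc : IsClosed (⋂ n, G n) := isClosed_iInter hG
  have : CompactSpace (⋂ n, G n : Set Z) := isCompact_iff_compactSpace.1 hXc.isCompact
  have he := hXc.isClosedEmbedding_subtypeVal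
  have key : ∀ x ∈ ⋂ n, G n, ∃ O, IsOpen O ∧ x ∈ O ∧ ∀ ε > 0, ∃ (n : ℕ) (C : ℝ), ∀ L : ℝ, n ≤ L →
      0 < L → Cov φ L (ε * L + C) (Per φ L ∩ G n ∩ O) := by
    intro x hx
    obtain ⟨η, S, U, hS, hc, hU, hxU, hs⟩ := h ⟨x, hx⟩
    obtain ⟨σ, rfl⟩ : ∃ σ, η = 10 * σ := ⟨η / 10, by ring⟩
    set B := box (φ.restrict hX) (10 * σ) U with hB
    obtain ⟨fi, i1, i2, i3⟩ := zero_fun (he.isClosedMap _ (isClosed_closure (s := B)))
    obtain ⟨fo, o1, o2, o3⟩ := zero_fun (he.isClosedMap _ (isOpen_interior (s := B)).isClosed_compl)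
    have d1 : ∀ y ∈ interior B, 0 < fo y - fi y := by
      intro y hy
      rw [(i3 _).2 ⟨y, subset_closure (interior_subset hy), rfl⟩, sub_zero]
      refine (o2 _).lt_of_ne' fun h0 => ?_
      exact Subtype.val_injective.mem_set_image.1 ((o3 _).1 h0) hy
    have d2 : ∀ y : (⋂ n, G n : Set Z), 0 ≤ fo y - fi y → y ∈ closure B := by
      intro y hy
      by_contra hn
      rw [(o3 _).2 ⟨y, fun h => hn (subset_closure (interior_subset h)), rfl⟩] at hy
      exact hn (Subtype.val_injective.mem_set_image.1 ((i3 _).1 (by linarith [i2 y])))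
    obtain ⟨t0, ht0, s0, hs0, e0⟩ := interior_subset hxU
    have := box_cov hG aG hi (σ := σ) (S := Subtype.val '' S) (N := Subtype.val '' frontier B)
      (he.isClosedMap _ hS) ⟨hc.1, ?_⟩ (d := fun y => fo y - fi y) (o1.sub i1) ?_
      (small_val hXc hX hs) ⟨s0, hU hs0, rfl⟩
      (fun t ht => d1 _ (lat hS hc hU (hU hs0) (abs_le.2 ht0) (e0 ▸ hxU) ht)) t0
    · rwa [show φ t0 s0 = x from congrArg Subtype.val e0] at this
    · rintro ⟨t, _⟩ ⟨ht, s, hs, rfl⟩ ⟨t', _⟩ ⟨ht', s', hs', rfl⟩ e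
      obtain ⟨rfl, rfl⟩ := hc.inj ht hs ht' hs' (Subtype.ext e)
      rfl
    · intro w hw hd
      obtain ⟨t1, ht1, s, hs, e⟩ := closure_box (φ := φ.restrict hX) _ U ▸ d2 ⟨w, hw⟩ hd
      have hs' : s ∈ S := closure_minimal hU hS hs
      refine ⟨s, ⟨s, hs', rfl⟩, t1, abs_le.2 ht1, congrArg Subtype.val e, fun t ht => ?_⟩
      by_cases hin : φ.restrict hX t s ∈ interior B
      · exact Or.inr fun t' ht' => d1 _ (lat hS hc hU hs' ht.le hin ht')
      · refine Or.inl ⟨_, ⟨?_, hin⟩, rfl⟩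
        rw [hB, closure_box]
        exact ⟨t, abs_le.1 ht.le, s, hs, rfl⟩
  choose! O o1 o2 o3 using key
  obtain ⟨F, f1, f2⟩ := hXc.isCompact.elim_nhds_subcover O fun x hx => (o1 x hx).mem_nhds (o2 x hx)
  obtain ⟨n0, hn0⟩ := exists_subset_nhds_of_compactSpace aG.directed_ge hG
    (U := ⋃ x ∈ F, O x) fun x hx => (isOpen_biUnion fun y hy => o1 y (f1 y hy)).mem_nhds (f2 hx)
  choose! n C hC using fun x (hx : x ∈ F) => o3 x (f1 x hx) (ε / (F.card + 1)) (by positivity)
  refine ⟨n0 + ∑ x ∈ F, n x, ∑ x ∈ F, C x, fun L hL hL0 => ?_⟩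
  have hle : ∀ x ∈ F, n x ≤ n0 + ∑ x ∈ F, n x := fun x hx =>
    (Finset.single_le_sum (fun _ _ => Nat.zero_le _) hx).trans (Nat.le_add_left _ _)
  refine (Cov.biUnion F _ _ fun x hx => hC x hx L
    (le_trans (by exact_mod_cast hle x hx) hL) hL0).mono ?_ fun y hy => ?_
  · rw [Finset.sum_add_distrib, Finset.sum_const, nsmul_eq_mul, ← mul_assoc]
    gcongr
    rw [← mul_div_assoc, div_le_iff₀ (by positivity)]
    nlinarith
  · obtain ⟨x, hx, hy'⟩ := mem_iUnion₂.1 (hn0 (aG (Nat.le_add_right _ _) hy.2))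
    exact mem_biUnion hx ⟨⟨hy.1, aG (hle x hx) hy.2⟩, hy'⟩

end Pool.Agent.MP_4a8842_an

end MrgPart3

-- ======== part 4: formerly Pool.Agent.MP_4a8842_an.Model
section MrgPart4

/-! A compact flow whose periodic points need many phase sets. -/

open Set Real Topology Filter Metric

namespace Pool.Agent.MP_4a8842_an

/-- the phase space -/
def Zs : Set C(ℝ, Fin 7 → ℂ) :=
  {u | (∀ t, ‖u t‖ ≤ 2) ∧ (∀ s t, ‖u s - u t‖ ≤ 20 * ‖s - t‖) ∧
    ∀ t, 1 / 2 ≤ ∑ i, ‖u (t + 1 / 3) i - u t i‖ ^ 2}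

lemma isCompact_Zs : IsCompact Zs := by
  have hl : ∀ u : ℝ → Fin 7 → ℂ, (∀ s t, ‖u s - u t‖ ≤ 20 * ‖s - t‖) → LipschitzWith 20 u :=
    fun u hu => LipschitzWith.of_dist_le_mul fun s t => by
      simpa [dist_eq_norm] using hu s t
  refine ArzelaAscoli.isCompact_of_equicontinuous _ ?_ ?_
  · have : ContinuousMap.toFun '' Zs = (univ.pi fun _ => closedBall (0 : Fin 7 → ℂ) 2) ∩
        ({u | ∀ s t, ‖u s - u t‖ ≤ 20 * ‖s - t‖} ∩
          {u | ∀ t, 1 / 2 ≤ ∑ i, ‖u (t + 1 / 3) i - u t i‖ ^ 2}) := by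
      ext u
      constructor
      · rintro ⟨v, ⟨h1, h2, h3⟩, rfl⟩
        exact ⟨fun t _ => mem_closedBall_zero_iff.2 (h1 t), h2, h3⟩
      · rintro ⟨h1, h2, h3⟩
        exact ⟨⟨u, (hl u h2).continuous⟩, ⟨fun t => mem_closedBall_zero_iff.1 (h1 t trivial), h2, h3⟩,
          rfl⟩
    rw [this]
    refine (isCompact_univ_pi fun _ => isCompact_closedBall _ _).inter_right (IsClosed.inter ?_ ?_)
    · simp only [ofPred_forall]
      exact isClosed_iInter fun s => isClosed_iInter fun t => isClosed_le (by fun_prop) (by fun_prop)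
    · simp only [ofPred_forall]
      exact isClosed_iInter fun t => isClosed_le (by fun_prop) (by fun_prop)
  · exact (LipschitzWith.uniformEquicontinuous _ 20 fun u : Zs => hl _ u.2.2.1).equicontinuous

/-- translation flow -/
noncomputable def tr : Flow ℝ Zs where
  toFun t u := ⟨u.1.comp ⟨fun s => s + t, by fun_prop⟩, fun s => u.2.1 _,
    fun s s' => by simpa using u.2.2.1 (s + t) (s' + t),
    fun s => by simpa [add_right_comm] using u.2.2.2 (s + t)⟩
  cont' := Continuous.subtype_mk (ContinuousMap.continuous_of_continuous_uncurry _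
    (show Continuous fun q : (ℝ × Zs) × ℝ => q.1.2.1 (q.2 + q.1.1) by fun_prop)) _
  map_add' s t u := Subtype.ext (ContinuousMap.ext fun x => congrArg u.1 (add_assoc _ _ _).symm)
  map_zero' u := Subtype.ext (ContinuousMap.ext fun x => congrArg u.1 (add_zero _))

lemma tr_free (u : Zs) : tr (1 / 3) u ≠ u := fun h => by
  have h1 := u.2.2.2 0
  have h2 : u.1 (0 + 1 / 3) = u.1 0 := congrArg (fun v : Zs => v.1 0) h
  rw [h2] at h1
  norm_num at h1

variable {L : ℕ}

/-- frequencies -/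
noncomputable def fr (m : Fin L) : ℝ := (L + m) / L

/-- trigonometric signal -/
noncomputable def sig (z : Fin 7 × Fin L → ℂ) (t : ℝ) (i : Fin 7) : ℂ :=
  ∑ m, z (i, m) * ee (fr m * t)

/-- correlation -/
noncomputable def cor (z : Fin 7 × Fin L → ℂ) (n : ℤ) : ℂ :=
  ∑ i, ∑ m : Fin L, ∑ m' : Fin L,
    if (m : ℤ) - m' = n then z (i, m) * (starRingEnd ℂ) (z (i, m')) else 0

lemma ee_fr {m m' : Fin L} {n : ℤ} (h : (m : ℤ) - m' = n) (t : ℝ) :
    ee (fr m * t) * ee (-(fr m' * t)) = ee (n * t / L) := by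
  rw [← ee_add, ← h, fr, fr]; congr 1; push_cast; ring

lemma cor_rot (z : Fin 7 × Fin L → ℂ) (n : ℤ) (t : ℝ) :
    cor (fun p => z p * ee (fr p.2 * t)) n = ee (n * t / L) * cor z n := by
  simp only [cor, Finset.mul_sum]
  refine Finset.sum_congr rfl fun i _ => Finset.sum_congr rfl fun m _ =>
    Finset.sum_congr rfl fun m' _ => ?_
  split_ifs with h
  · rw [map_mul, conj_ee, ← ee_fr h]; ring
  · simp

lemma cor_zero (z : Fin 7 × Fin L → ℂ) : cor z 0 = ((∑ p, ‖z p‖ ^ 2 : ℝ) : ℂ) := by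
  simp only [cor, sub_eq_zero, Nat.cast_inj, Fin.val_inj, Finset.sum_ite_eq, Finset.mem_univ,
    if_true, Complex.mul_conj', Fintype.sum_prod_type]
  push_cast; rfl

lemma sig_sq (z : Fin 7 × Fin L → ℂ) (t : ℝ) :
    |∑ i, ‖sig z t i‖ ^ 2 - ∑ p, ‖z p‖ ^ 2| ≤ ∑ n ∈ (Finset.Ioo (-L : ℤ) L).erase 0, ‖cor z n‖ := by
  rcases L.eq_zero_or_pos with rfl | hL
  · simp [sig]
  have e : ((∑ i, ‖sig z t i‖ ^ 2 : ℝ) : ℂ) =
      ∑ n ∈ Finset.Ioo (-L : ℤ) L, cor (fun p => z p * ee (fr p.2 * t)) n := by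
    simp only [cor]
    rw [Finset.sum_comm]
    push_cast
    refine Finset.sum_congr rfl fun i _ => ?_
    rw [← Complex.mul_conj', sig, map_sum, Finset.sum_mul_sum, Finset.sum_comm (s := Finset.Ioo _ _)]
    refine Finset.sum_congr rfl fun m _ => ?_
    rw [Finset.sum_comm]
    refine Finset.sum_congr rfl fun m' _ => ?_
    rw [Finset.sum_ite_eq, if_pos]
    have := m.2; have := m'.2
    rw [Finset.mem_Ioo]; omega
  rw [← Finset.add_sum_erase _ _ (show (0 : ℤ) ∈ Finset.Ioo (-L : ℤ) L by simpa using hL)] at e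
  simp only [cor_rot, cor_zero, norm_mul, norm_ee, mul_one] at e
  rw [← Real.norm_eq_abs, ← Complex.norm_real, Complex.ofReal_sub, e, add_sub_cancel_left]
  exact (norm_sum_le _ _).trans_eq (by simp)

variable (L) in
/-- rotation -/
noncomputable def rot (t : ℝ) :
    EuclideanSpace ℂ (Fin 7 × Fin L) →L[ℝ] EuclideanSpace ℂ (Fin 7 × Fin L) :=
  LinearMap.toContinuousLinearMap
    { toFun x := WithLp.toLp 2 fun p => x p * ee (fr p.2 * t)
      map_add' x y := by ext p; simp [add_mul]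
      map_smul' c x := by ext p; simp [mul_assoc] }

lemma rot_apply (t : ℝ) (x : EuclideanSpace ℂ (Fin 7 × Fin L)) (p : Fin 7 × Fin L) :
    rot L t x p = x p * ee (fr p.2 * t) := rfl

lemma norm_rot (t : ℝ) (x : EuclideanSpace ℂ (Fin 7 × Fin L)) : ‖rot L t x‖ = ‖x‖ := by
  simp [EuclideanSpace.norm_eq, rot_apply]

lemma rot_add (s t : ℝ) (x : EuclideanSpace ℂ (Fin 7 × Fin L)) :
    rot L (s + t) x = rot L s (rot L t x) := by
  ext p; simp only [rot_apply, mul_add, ee_add]; ring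

lemma rot_zero (x : EuclideanSpace ℂ (Fin 7 × Fin L)) : rot L 0 x = x := by
  ext p; simp [rot_apply]

lemma ee_per (m : Fin L) : ee (fr m * L) = 1 := by
  have : (L : ℝ) ≠ 0 := by exact_mod_cast m.pos.ne'
  rw [fr, div_mul_cancel₀ _ this, ← ee_int (L + m)]; push_cast; rfl

variable (L) in
/-- rotation flow on the sphere -/
noncomputable def rf : Flow ℝ (sphere (0 : EuclideanSpace ℂ (Fin 7 × Fin L)) 1) where
  toFun t x := ⟨rot L t x, by simp [norm_rot]⟩
  cont' := Continuous.subtype_mk ((PiLp.continuous_toLp 2 _).comp (continuous_pi fun p =>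
    show Continuous fun q : ℝ × sphere (0 : EuclideanSpace ℂ (Fin 7 × Fin L)) 1 =>
      q.2.1 p * ee (fr p.2 * q.1) by fun_prop)) _
  map_add' s t x := Subtype.ext (rot_add _ _ _)
  map_zero' x := Subtype.ext (rot_zero _)

/-- total correlation for the multiplier w -/
noncomputable def tc (w : Fin L → ℂ) (x : sphere (0 : EuclideanSpace ℂ (Fin 7 × Fin L)) 1) : ℝ :=
  ∑ n ∈ (Finset.Ioo (-L : ℤ) L).erase 0, ‖cor (fun p => w p.2 * x.1 p) n‖

lemma continuous_cor (w : Fin L → ℂ) (n : ℤ) :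
    Continuous fun x : sphere (0 : EuclideanSpace ℂ (Fin 7 × Fin L)) 1 =>
      cor (fun p => w p.2 * x.1 p) n := by
  refine continuous_finsetSum _ fun i _ => continuous_finsetSum _ fun m _ =>
    continuous_finsetSum _ fun m' _ => ?_
  split_ifs
  · exact Continuous.mul (by fun_prop) (Complex.continuous_conj.comp (by fun_prop))
  · exact continuous_const

lemma continuous_tc (w : Fin L → ℂ) : Continuous (tc w) :=
  continuous_finsetSum _ fun n _ => (continuous_cor w n).norm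

lemma cor_rf (w : Fin L → ℂ) (n : ℤ) (t : ℝ) (x : sphere (0 : EuclideanSpace ℂ (Fin 7 × Fin L)) 1) :
    cor (fun p => w p.2 * (rf L t x).1 p) n = ee (n * t / L) * cor (fun p => w p.2 * x.1 p) n := by
  rw [← cor_rot]; congr 1; ext p; exact (mul_assoc _ _ _).symm

lemma tc_rf (w : Fin L → ℂ) (t : ℝ) (x : sphere (0 : EuclideanSpace ℂ (Fin 7 × Fin L)) 1) :
    tc w (rf L t x) = tc w x := by
  simp [tc, cor_rf]

lemma cov_tc (w : Fin L → ℂ) : Cov (rf L) L (2 * L) {x | 1 / 2 ≤ tc w x} := by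
  refine (cov_of_fam ((Finset.Ioo (-L : ℤ) L).erase 0) (isClosed_le continuous_const (continuous_tc w))
    (fun x hx s => by rwa [mem_ofPred_eq, tc_rf]) (fun n x => cor (fun p => w p.2 * x.1 p) n)
    (fun n _ => n) (fun n _ => (continuous_cor w n).continuousOn) (fun _ _ => continuousOn_const)
    (fun n hn _ _ => ⟨n, Finset.ne_of_mem_erase hn, rfl⟩) (fun _ _ _ _ _ => rfl)
    (fun n _ x _ s => cor_rf w n s x) fun x hx => ?_).mono ?_ Subset.rfl
  · by_contra hc
    push Not at hc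
    rw [mem_ofPred_eq, tc, Finset.sum_eq_zero fun n hn => by rw [hc n hn, norm_zero]] at hx
    norm_num at hx
  · have := (Finset.card_erase_le (s := Finset.Ioo (-L : ℤ) L) (a := 0))
    rw [Int.card_Ioo] at this
    exact_mod_cast this.trans (by omega)

lemma fr_mem (m : Fin L) : 1 ≤ fr m ∧ fr m ≤ 2 := by
  have h : (0 : ℝ) < L := by exact_mod_cast m.pos
  have h2 : ((m : ℕ) : ℝ) ≤ L := by exact_mod_cast m.2.le
  rw [fr, le_div_iff₀ h, div_le_iff₀ h]
  constructor <;> linarith [Nat.cast_nonneg (α := ℝ) m]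

lemma hasDerivAt_ee (a t : ℝ) :
    HasDerivAt (fun t => ee (a * t)) (2 * π * a * Complex.I * ee (a * t)) t := by
  have e : ∀ t : ℝ, ee (a * t) = Complex.exp (2 * π * a * Complex.I * t) := fun t => by
    unfold ee; congr 1; push_cast; ring
  simp only [e]
  simpa [mul_comm] using ((Complex.hasDerivAt_exp _).comp (t : ℂ)
    ((hasDerivAt_id (t : ℂ)).const_mul (2 * π * a * Complex.I))).comp_ofReal

lemma sig_mem (x : sphere (0 : EuclideanSpace ℂ (Fin 7 × Fin L)) 1)
    (h1 : tc (fun _ => 1) x ≤ 1 / 2) (h2 : tc (fun m => 2 * π * fr m * Complex.I) x ≤ 1 / 2)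
    (h3 : tc (fun m => ee (fr m * (1 / 3)) - 1) x ≤ 1 / 2) :
    (∀ t, ‖sig x.1 t‖ ≤ 2) ∧ (∀ s t, ‖sig x.1 s - sig x.1 t‖ ≤ 20 * ‖s - t‖) ∧
    ∀ t, 1 / 2 ≤ ∑ i, ‖sig x.1 (t + 1 / 3) i - sig x.1 t i‖ ^ 2 := by
  have hx : ∑ p, ‖x.1 p‖ ^ 2 = 1 := by rw [← EuclideanSpace.norm_sq_eq]; simp
  have up : ∀ (w : Fin L → ℂ) (c : ℝ), 0 ≤ c → (∀ m, ‖w m‖ ≤ c) → tc w x ≤ 1 / 2 → ∀ t,
      ‖sig (fun p => w p.2 * x.1 p) t‖ ≤ c + 1 := by
    intro w c hc hw h t
    refine (pi_norm_le_iff_of_nonneg (by linarith)).2 fun i => ?_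
    have a1 := (le_abs_self _).trans ((sig_sq (fun p => w p.2 * x.1 p) t).trans h)
    have a2 : ∑ p : Fin 7 × Fin L, ‖w p.2 * x.1 p‖ ^ 2 ≤ c ^ 2 := by
      refine le_trans (Finset.sum_le_sum (g := fun p => c ^ 2 * ‖x.1 p‖ ^ 2) fun p _ => ?_)
        (by rw [← Finset.mul_sum, hx, mul_one])
      rw [norm_mul, mul_pow]; gcongr; exact hw _
    have a3 := Finset.single_le_sum (f := fun i => ‖sig (fun p => w p.2 * x.1 p) t i‖ ^ 2)
      (fun _ _ => by positivity) (Finset.mem_univ i)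
    exact abs_le_of_sq_le_sq' (by nlinarith) (by linarith) |>.2
  refine ⟨fun t => ?_, fun s t => ?_, fun t => ?_⟩
  · simpa [one_add_one_eq_two] using up _ 1 zero_le_one (by simp) h1 t
  · refine Convex.norm_image_sub_le_of_norm_hasDerivWithin_le (f := sig x.1) (s := univ)
      (f' := sig fun p => 2 * π * fr p.2 * Complex.I * x.1 p)
      (fun u _ => HasDerivAt.hasDerivWithinAt ?_)
      (fun u _ => (up _ 19 (by norm_num) (fun m => ?_) h2 u).trans (by norm_num)) convex_univ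
      trivial trivial
    · refine hasDerivAt_pi.2 fun i => ?_
      refine (HasDerivAt.fun_sum fun m _ => (hasDerivAt_ee (fr m) u).const_mul (x.1 (i, m))).congr_deriv ?_
      exact Finset.sum_congr rfl fun m _ => by ring
    · have := fr_mem m
      simp only [norm_mul, Complex.norm_I, Complex.norm_real, Real.norm_eq_abs, Complex.norm_ofNat,
        abs_of_pos pi_pos, abs_of_pos (one_pos.trans_le this.1)]
      nlinarith [pi_le_four, pi_pos]
  · have a1 := (neg_le_abs _).trans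
      ((sig_sq (fun p => (ee (fr p.2 * (1 / 3)) - 1) * x.1 p) t).trans h3)
    have a2 : 1 ≤ ∑ p : Fin 7 × Fin L, ‖(ee (fr p.2 * (1 / 3)) - 1) * x.1 p‖ ^ 2 := by
      refine hx.ge.trans (Finset.sum_le_sum fun p _ => ?_)
      rw [norm_mul, mul_pow]
      refine le_mul_of_one_le_left (by positivity) (one_le_pow₀ ?_)
      refine le_trans ?_ ((neg_le_abs _).trans (Complex.abs_re_le_norm _))
      have := fr_mem p.2
      have := cos_nonpos_of_pi_div_two_le_of_le (x := 2 * π * (fr p.2 * (1 / 3)))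
        (by nlinarith [pi_pos]) (by nlinarith [pi_pos])
      rw [Complex.sub_re, ee, Complex.exp_ofReal_mul_I_re, Complex.one_re]
      linarith
    have e : ∀ i, sig x.1 (t + 1 / 3) i - sig x.1 t i =
        sig (fun p => (ee (fr p.2 * (1 / 3)) - 1) * x.1 p) t i := fun i => by
      simp only [sig, ← Finset.sum_sub_distrib, mul_add, ee_add]
      exact Finset.sum_congr rfl fun m _ => by ring
    simp only [e]
    linarith

theorem tr_no_cov (hL : 0 < L) {k : ℝ} (hk : k < L) : ¬ Cov tr L k (Per tr L) := by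
  intro h
  let G : Set (sphere (0 : EuclideanSpace ℂ (Fin 7 × Fin L)) 1) :=
    {x | tc (fun _ => 1) x ≤ 1 / 2 ∧ tc (fun m => 2 * π * fr m * Complex.I) x ≤ 1 / 2 ∧
      tc (fun m => ee (fr m * (1 / 3)) - 1) x ≤ 1 / 2}
  have hG : IsClosed G := (isClosed_le (continuous_tc _) continuous_const).inter
    ((isClosed_le (continuous_tc _) continuous_const).inter
      (isClosed_le (continuous_tc _) continuous_const))
  have hi : IsInvariant (rf L) G := fun t x hx => by simpa only [G, mem_ofPred_eq, tc_rf] using hx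
  let f : G → Zs := fun x => ⟨⟨sig x.1.1, by unfold sig; fun_prop⟩, sig_mem x.1 x.2.1 x.2.2.1 x.2.2.2⟩
  have hf : Continuous f := Continuous.subtype_mk (ContinuousMap.continuous_of_continuous_uncurry _
    (show Continuous fun q : G × ℝ => sig q.1.1.1 q.2 by unfold sig; fun_prop)) _
  have he : ∀ t y, f ((rf L).restrict hi t y) = tr t (f y) := fun t y => by
    refine Subtype.ext (ContinuousMap.ext fun s => funext fun i => ?_)
    change ∑ m, y.1.1 (i, m) * ee (fr m * t) * ee (fr m * s) = ∑ m, y.1.1 (i, m) * ee (fr m * (s + t))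
    exact Finset.sum_congr rfl fun m _ => by rw [mul_add, ee_add]; ring
  have hper : ∀ x, rot L L x = x := fun x => by ext p; rw [rot_apply, ee_per, mul_one]
  refine no_cov (rf L) (rot L) (fun _ _ => rfl) norm_rot rot_add rot_zero (by exact_mod_cast hL)
    hper (k := k + 2 * L + 2 * L + 2 * L) ?_
    ((((((h.preimage hf he).image_val hG hi).union (cov_tc fun _ => 1)).union
      (cov_tc fun m => 2 * π * fr m * Complex.I)).union
      (cov_tc fun m => ee (fr m * (1 / 3)) - 1)).mono le_rfl fun x _ => ?_)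
  · rw [finrank_real_of_complex, finrank_euclideanSpace]
    simp only [Fintype.card_prod, Fintype.card_fin]
    push_cast; linarith
  · by_cases hx : x ∈ G
    · refine Or.inl (Or.inl (Or.inl ⟨⟨x, hx⟩, ?_, rfl⟩))
      change tr L (f _) = f _
      rw [← he]
      exact congrArg f (Subtype.ext (Subtype.ext (hper _)))
    · simp only [G, mem_ofPred_eq, not_and_or, not_le] at hx
      rcases hx with hx | hx | hx
      exacts [Or.inl (Or.inl (Or.inr hx.le)), Or.inl (Or.inr hx.le), Or.inr hx.le]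

theorem model : ∃ (Z : Type) (_ : MetricSpace Z) (_ : CompactSpace Z) (φ : Flow ℝ Z),
    (∀ x, ∃ t, φ t x ≠ x) ∧ ∀ L : ℕ, 0 < L → ∀ k : ℝ, k < L → ¬ Cov φ L k (Per φ L) :=
  ⟨Zs, TopologicalSpace.metrizableSpaceMetric Zs, isCompact_iff_compactSpace.1 isCompact_Zs, tr,
    fun x => ⟨_, tr_free x⟩, fun _ hL _ hk => tr_no_cov hL hk⟩

end Pool.Agent.MP_4a8842_an

end MrgPart4

-- ======== part 5: formerly Pool.Agent.MP_4a8842_an.Main
section MrgPart5

/-! A flow with the discrete small boundary property and without the local flow version. -/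

open Set MeasureTheory Real Topology Filter Metric

namespace Pool.Agent.MP_4a8842_an

theorem main : ∃ (X : Type) (_ : MetricSpace X) (_ : CompactSpace X) (_ : MeasurableSpace X)
    (_ : BorelSpace X) (φ : Flow ℝ X), (∀ x, ∃ t, φ t x ≠ x) ∧ DSBP φ ∧ ¬ LocalSFBP φ := by
  obtain ⟨Z, _, _, φ, hfix, hno⟩ := model
  borelize Z
  obtain ⟨g, hg⟩ := TopologicalSpace.exists_dense_seq C(Z, ℝ)
  let h : ℕ → Z → ℝ := fun i y => g i y / (1 + ‖g i‖)
  have hc : ∀ i, Continuous (h i) := fun i => (g i).continuous.div_const _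
  have hb : ∀ i y, |h i y| ≤ 1 := fun i y => by
    rw [abs_div, abs_of_pos (by positivity : 0 < 1 + ‖g i‖), div_le_one (by positivity)]
    exact ((g i).norm_coe_le_norm y).trans (by linarith)
  choose T C t1 t2 hT using fun n : ℕ => wm φ (ε := 1 / (n + 1)) (δ := (1 / 2) ^ n / 4)
    (α := 1 / (n + 1)) (β := n + 1) (by positivity) (by positivity) (by positivity) n
  let A : ℕ → Set Z := fun n =>
    Good φ (fun y => (h n.unpair.1 y : ℂ)) (T n) (1 / (n + 1)) (n + 1) (1 / (n + 1))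
  let G : ℕ → Set Z := fun n => ⋂ m < n, A m
  have hG : ∀ n, IsClosed (G n) := fun n => isClosed_biInter fun m _ =>
    isClosed_Good (Complex.continuous_ofReal.comp (hc _)) _ _ _ _
  have aG : Antitone G := fun n n' hn y hy =>
    mem_iInter₂.2 fun m hm => mem_iInter₂.1 hy m (hm.trans_le hn)
  have hi : ∀ n, ∀ y ∈ G n, ∀ t, φ t y ∈ G n := fun n y hy t =>
    mem_iInter₂.2 fun m hm => good_inv (mem_iInter₂.1 hy m hm) t
  have hX : IsInvariant φ (⋂ n, G n) := fun t y hy =>
    mem_iInter.2 fun n => hi n y (mem_iInter.1 hy n) t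
  have hXc : IsClosed (⋂ n, G n) := isClosed_iInter hG
  have : CompactSpace (⋂ n, G n : Set Z) := isCompact_iff_compactSpace.1 hXc.isCompact
  have hfix' : ∀ x, ∃ t, φ.restrict hX t x ≠ x := fun x =>
    (hfix x).imp fun t ht e => ht (congrArg Subtype.val e)
  refine ⟨(⋂ n, G n : Set Z), inferInstance, this, inferInstance, inferInstance, φ.restrict hX,
    hfix', fun τ hτ => ?_, fun hl => ?_⟩
  · obtain ⟨B, hB, hs⟩ := small_basis hfix'
    refine ⟨B, hB, fun U hU ν m1 m2 => hs U hU ν m1 fun t =>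
      ⟨((φ.restrict hX).continuous_toFun t).measurable, ?_⟩⟩
    have lip : ∀ e : (⋂ n, G n : Set Z) → Z, Continuous e →
        Continuous fun F : C(Z, ℝ) => ∫ y, F (e y) ∂ν := by
      intro e he
      have hint : ∀ F : C(Z, ℝ), Integrable (fun y => F (e y)) ν := fun F =>
        Continuous.integrable_of_hasCompactSupport (by fun_prop) (.of_compactSpace _)
      refine (LipschitzWith.of_dist_le_mul (K := 1) fun F F' => ?_).continuous
      rw [dist_eq_norm, ← integral_sub (hint F) (hint F')]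
      simpa [dist_eq_norm] using norm_integral_le_of_norm_le_const (μ := ν) (C := ‖F - F'‖)
        (f := fun y => F (e y) - F' (e y)) (.of_forall fun y => (F - F').norm_coe_le_norm _)
    have key : ∀ F : C(Z, ℝ), ∫ y, F (φ.restrict hX t y) ∂ν = ∫ y, F y ∂ν := by
      intro F
      refine hg.induction_on F (isClosed_eq (lip _ (continuous_subtype_val.comp
        ((φ.restrict hX).continuous_toFun t))) (lip _ continuous_subtype_val)) fun i => ?_
      have := orbit_integral_const (φ.restrict hX) (h := fun y => h i y)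
        ((hc i).comp continuous_subtype_val) (fun y => hb i y) (fun ξ hξ ε hε T0 => ?_) hτ ν m2 t
      · simp only [h, integral_div] at this
        exact (div_left_inj' (by positivity)).1 this
      obtain ⟨k, hk⟩ := exists_nat_ge (max (max (1 / ξ) ξ) (max (1 / ε) T0))
      simp only [max_le_iff] at hk
      have hn : (k : ℝ) ≤ Nat.pair i k := by exact_mod_cast Nat.right_le_pair i k
      refine ⟨T (Nat.pair i k), by linarith [t1 (Nat.pair i k)], t2 _, fun y => ?_⟩
      have hy := mem_iInter₂.1 (mem_iInter.1 y.2 (Nat.pair i k + 1)) _ (Nat.lt_succ_self _) 0 ξ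
        ((one_div_le (by positivity) hξ).2 (by linarith)) (by linarith)
      rw [Nat.unpair_pair, φ.map_zero_apply] at hy
      exact hy.trans ((one_div_le (by positivity) hε).2 (by linarith))
    have he := MeasurableEmbedding.subtype_coe hXc.measurableSet
    refine he.map_injective (ext_of_forall_integral_eq_of_IsFiniteMeasure fun f => ?_)
    rw [he.integral_map, he.integral_map, integral_map
      ((φ.restrict hX).continuous_toFun t).aemeasurable
      (Continuous.aestronglyMeasurable (by fun_prop))]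
    exact key f.toContinuousMap
  · obtain ⟨n, C', h1⟩ := local_cov hG aG hi hX hl (ε := 1 / 4) (by norm_num)
    obtain ⟨L, hL⟩ := exists_nat_gt (max (n : ℝ) (4 * (C' + ∑ m ∈ Finset.range n, C m)))
    simp only [max_lt_iff] at hL
    have hL0 : (0 : ℝ) < L := lt_of_le_of_lt (Nat.cast_nonneg n) hL.1
    refine hno L (by exact_mod_cast hL0) _ ?_ (((h1 L hL.1.le hL0).union
      (Cov.biUnion (Finset.range n) _ _ fun m _ => hT m (fun y => (h m.unpair.1 y : ℂ))
        (Complex.continuous_ofReal.comp (hc _)) (fun y => by simpa using hb _ y) L hL0)).mono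
      le_rfl fun y hy => ?_)
    · rw [Finset.sum_add_distrib, ← Finset.sum_mul, ← Finset.sum_div]
      nlinarith [sum_geometric_two_le n, hL.2]
    · by_cases hyG : y ∈ G n
      · exact Or.inl ⟨hy, hyG⟩
      · simp only [G, mem_iInter, not_forall] at hyG
        obtain ⟨m, hm, hy'⟩ := hyG
        exact Or.inr (mem_biUnion (Finset.mem_range.2 hm) ⟨hy, hy'⟩)

end Pool.Agent.MP_4a8842_an

end MrgPart5

-- marker of a merged file
example : 731051 + 391268 = 731051 + 391268 := rfl
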